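import Pool.Agent.Helper92.GG.Defs

/-! # General algebraic graphs: statements of the modules -/

set_option autoImplicit false

namespace Pool.Agent.Helper92.GG

open MvPolynomial
open Pool.Agent.Helper49.Girth (cl ty)

universe u

/-! ## A. Field theory -/

/-- Conjugation: an isomorphism of tuples extends to the relative algebraic closure. -/
def ST_CONJ : Prop :=
  ∀ (K L L' : Type u) [Field K] [Field L] [Field L'] [Algebra K L] [Algebra K L']
    [IsAlgClosed L'] (ι : Type) (x : ι → L) (x' : ι → L'), Conj K x x' →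
    ∃ θ : cl K (Set.range x) →ₐ[K] L', ∀ (i : ι) (b : cl K (Set.range x)), (b : L) = x i →
      θ b = x' i

/-- Relative conjugation. -/
def ST_CONJR : Prop :=
  ∀ (K L L' : Type u) [Field K] [Field L] [Field L'] [Algebra K L] [Algebra K L']
    [IsAlgClosed L'] (s : Set L) (θ₀ : cl K s →ₐ[K] L') (ι : Type) (y : ι → L) (y' : ι → L'),
    (∀ f : MvPolynomial ι (cl K s), aeval y f = 0 ↔ eval₂ (θ₀ : cl K s →+* L') y' f = 0) →
    ∃ θ : cl K (s ∪ Set.range y) →ₐ[K] L',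
      (∀ (a : cl K s) (b : cl K (s ∪ Set.range y)), (b : L) = a → θ b = θ₀ a) ∧
      ∀ (i : ι) (b : cl K (s ∪ Set.range y)), (b : L) = y i → θ b = y' i

/-- Free conjugates exist in big fields. -/
def ST_FREE : Prop :=
  ∀ (K Ω : Type u) [Field K] [Field Ω] [Algebra K Ω] [Big K Ω] (s A : Set Ω),
    s.Finite → A.Finite → s ⊆ A → ∀ (ι : Type) [Finite ι] (y : ι → Ω),
    ∃ y' : ι → Ω, Conj (cl K s) y y' ∧
      rk K (A ∪ Set.range y') + rk K s = rk K A + rk K (s ∪ Set.range y)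

/-- Linear disjointness over algebraically closed fields, in terms of specializations. -/
def ST_LD : Prop :=
  ∀ (K L : Type u) [Field K] [Field L] [Algebra K L] [IsAlgClosed L] (s A : Set L),
    s.Finite → A.Finite → s ⊆ A → ∀ (ι : Type) [Finite ι] (y y' : ι → L),
    rk K (A ∪ Set.range y) + rk K s = rk K A + rk K (s ∪ Set.range y) →
    Spec (cl K s) y y' → Spec (cl K A) y y'

/-- every field embeds into a big one -/
def ST_BIG : Prop :=
  ∀ (K L : Type u) [Field K] [Field L] [Algebra K L],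
    ∃ (Ω : Type u) (_ : Field Ω) (_ : Algebra K Ω) (_ : Algebra L Ω),
      IsScalarTower K L Ω ∧ Big K Ω

/-- purely inseparable elements -/
def ST_PI : Prop :=
  ∀ (F L : Type u) [Field F] [Field L] [Algebra F L] [IsAlgClosed L] (z : L),
    IsAlgebraic F z → (∀ σ : L →ₐ[F] L, σ z = z) →
    ∃ (N : ℕ) (c : F), algebraMap F L c = z ^ ((ringExpChar F) ^ N)

/-- the local ring of a curve at a smooth point with local parameter `ξ t - ξ₀ t` -/
def ST_LOC : Prop :=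
  ∀ (F L : Type u) [Field F] [Field L] [Algebra F L] (n : ℕ) (ξ : Fin n → L) (ξ₀ : Fin n → F)
    (t : Fin n), Spec F ξ ξ₀ → ξ t ≠ algebraMap F L (ξ₀ t) →
    (∀ c : Fin n, ∃ f : MvPolynomial (Fin 2) F,
      aeval ![ξ t, ξ c] f = 0 ∧ aeval ![ξ₀ t, ξ₀ c] (pderiv 1 f) ≠ 0) →
    ∀ z ∈ IntermediateField.adjoin F (Set.range ξ), z ≠ 0 →
      ∃ (B : ℤ) (f g : MvPolynomial (Fin n) F), aeval ξ₀ f ≠ 0 ∧ aeval ξ₀ g ≠ 0 ∧
        z * aeval ξ g = (ξ t - algebraMap F L (ξ₀ t)) ^ B * aeval ξ f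

/-- algebraic Hartogs -/
def ST_HLEM : Prop :=
  ∀ (A F : Type u) [CommRing A] [IsDomain A] [IsNoetherianRing A] [IsIntegrallyClosed A]
    [Field F] [Algebra A F] [IsFractionRing A F] (M : Ideal A) [M.IsPrime] (z : F),
    (¬ ∃ a b : A, b ∉ M ∧ z * algebraMap A F b = algebraMap A F a) →
    ∃ (H : Ideal A) (_ : H.IsPrime), H ≤ M ∧ H ≠ ⊥ ∧
      IsDiscreteValuationRing (Localization.AtPrime H) ∧
      ¬ ∃ a b : A, b ∉ H ∧ z * algebraMap A F b = algebraMap A F a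

/-- Hartogs for surfaces, in terms of valuation subrings of an algebraically closed field. -/
def ST_HART : Prop :=
  ∀ (k L : Type u) [Field k] [IsAlgClosed k] [Field L] [IsAlgClosed L] [Algebra k L] (n : ℕ)
    (v : Fin n → L) (x : Fin n → k) (U : ValuationSubring L),
    (∀ c : k, algebraMap k L c ∈ U) →
    (∀ i, U.valuation (v i - algebraMap k L (x i)) < 1) →
    rk k (Set.range v) = 2 →
    ∀ e₀ : L, e₀ ∈ cl k (Set.range v) → (∀ c : k, U.valuation (e₀ - algebraMap k L c) = 1) →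
    ∀ S : Set L, S.Finite → (∀ Y ∈ S, Y ∈ cl k (Set.range v)) →
    ∃ 𝒱 : Set (ValuationSubring L),
      (∀ V ∈ 𝒱, (∀ c : k, algebraMap k L c ∈ V) ∧ (∀ i, v i ∈ V) ∧
        (∀ f : MvPolynomial (Fin n) k, V.valuation (aeval v f) < 1 → aeval x f = 0) ∧
        (∃ i, ¬ V.valuation (v i - algebraMap k L (x i)) < 1) ∧
        (∀ a ∈ Algebra.adjoin k (Set.range v), ∀ b ∈ Algebra.adjoin k (Set.range v),
          ∃ f : MvPolynomial (Fin 2) k, f ≠ 0 ∧ V.valuation (aeval ![a, b] f) < 1)) ∧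
      ∀ Y ∈ S, (∀ V ∈ 𝒱, Y ∈ V) →
        (∃ c : k, U.valuation (Y - algebraMap k L c) < 1) ∧
        (∀ V ∈ 𝒱, V.valuation Y < 1 → U.valuation Y < 1)

/-- height of maximal ideals of affine domains -/
def ST_DIM : Prop :=
  ∀ (k B : Type u) [Field k] [IsAlgClosed k] [CommRing B] [IsDomain B] [Algebra k B]
    [Algebra.FiniteType k B] (M : Ideal B) [M.IsMaximal] (d : ℕ),
    (d : Cardinal.{u}) ≤ Algebra.trdeg k B → (d : ℕ∞) ≤ M.height

/-- intersection of two subvarieties, in terms of generic points -/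
def ST_KRULL : Prop :=
  ∀ (K Ω : Type u) [Field K] [Field Ω] [Algebra K Ω] [Big K Ω] (n : ℕ) (sw s₂ : Set Ω),
    sw.Finite → s₂.Finite → sw ⊆ s₂ → ∀ x v : Fin n → Ω, (∀ c, x c ∈ cl K s₂) →
    Spec K x v → Spec (cl K s₂) v x →
    rk K (Set.range x) + rk K sw + rk K s₂ < rk K (sw ∪ Set.range x) + rk K (s₂ ∪ Set.range v) →
    ∃ z : Fin n → Ω, Spec (cl K s₂) v z ∧ Spec (cl K s₂) z x ∧ z ≠ x ∧ Conj (cl K sw) z x

/-! ## B. Places -/

/-- triviality on the closure of a set whose residues have the same rank -/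
def ST_PL1 : Prop :=
  ∀ (K L : Type u) [Field K] [Field L] [Algebra K L] (w : KVal K L) (s : Set L), s.Finite →
    (∀ a ∈ s, a ∈ w.V) → rk K s ≤ rk K (w.red '' s) → w.Triv (cl K s)

/-- the residue map on a trivially valued subfield -/
def ST_PL2 : Prop :=
  ∀ (K L : Type u) [Field K] [Field L] [Algebra K L] (w : KVal K L) (s : Set L),
    w.Triv (cl K s) →
    (∃ θ : cl K s →ₐ[K] w.κ, ∀ a : cl K s, θ a = w.red a) ∧
    (∀ t : Set L, t.Finite → t ⊆ cl K s → rk K (w.red '' t) = rk K t) ∧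
    (∀ t : Set L, t ⊆ cl K s → ∀ a ∈ cl K t, w.red a ∈ cl K (w.red '' t)) ∧
    (IsAlgClosed L → ∀ b ∈ cl K (w.red '' s), ∃ a ∈ cl K s, w.red a = b)

/-- ranks drop under residues -/
def ST_PL3 : Prop :=
  ∀ (K L : Type u) [Field K] [Field L] [Algebra K L] (w : KVal K L) (t : Set L), t.Finite →
    (∀ a ∈ t, a ∈ w.V) →
    rk K (w.red '' t) ≤ rk K t ∧
    ∀ s : Set L, s.Finite → t ⊆ cl K s → ¬ w.Triv (cl K s) → rk K (w.red '' t) + 1 ≤ rk K s

/-- existence of places -/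
def ST_PL4 : Prop :=
  ∀ (K L : Type u) [Field K] [Field L] [Algebra K L] (s : Set L) (ι : Type) (y y' : ι → L),
    (∀ i, y' i ∈ cl K s) → Spec (cl K s) y y' →
    ∃ w : KVal K L, w.Triv (cl K s) ∧ ∀ i, y i ∈ w.V ∧ w.red (y i) = w.red (y' i)

/-- residue fields of algebraically closed fields -/
def ST_PL5 : Prop :=
  ∀ (K L : Type u) [Field K] [Field L] [Algebra K L] [IsAlgClosed L] (w : KVal K L),
    IsAlgClosed w.κ

/-- extension of places, and the map of residue fields -/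
def ST_PL6 : Prop :=
  ∀ (K L L' : Type u) [Field K] [Field L] [Field L'] [Algebra K L] [Algebra K L']
    [Algebra L L'] [IsScalarTower K L L'] (w : KVal K L),
    (∃ w' : KVal K L', w.Ext w') ∧
    ∀ w' : KVal K L', w.Ext w' →
      (∃ j : w.κ →ₐ[K] w'.κ, ∀ a ∈ w.V, j (w.red a) = w'.red (algebraMap L L' a)) ∧
      ∀ (a b : L) (A B : ℕ), w'.V.valuation (algebraMap L L' a) ^ A =
        w'.V.valuation (algebraMap L L' b) ^ B → w.V.valuation a ^ A = w.V.valuation b ^ B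

/-- specializations in the residue field -/
def ST_PL7 : Prop :=
  ∀ (K L : Type u) [Field K] [Field L] [Algebra K L] [IsAlgClosed L] (w : KVal K L)
    (s : Set L), w.Triv (cl K s) → ∀ (ι : Type) (y x : ι → L), (∀ i, y i ∈ w.V) →
    (∀ i, x i ∈ cl K s) →
    (∀ f : MvPolynomial ι (cl K s), w.red (aeval y f) = 0 → aeval x f = 0) →
    Spec (cl K (w.red '' s)) (fun i => w.red (y i)) (fun i => w.red (x i))

/-! ## C. Graphs -/

/-- uniqueness of non-backtracking walks from the girth -/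
def ST_GRAPH : Prop :=
  ∀ (V : Type u) (G : SimpleGraph V) (M : ℕ), (M : ℕ∞) < G.egirth →
    ∀ (r r' : ℕ) (y y' : ℕ → V), r + r' ≤ M →
    (∀ i < r, G.Adj (y i) (y (i + 1))) → (∀ i < r', G.Adj (y' i) (y' (i + 1))) →
    (∀ i, i + 2 ≤ r → y i ≠ y (i + 2)) → (∀ i, i + 2 ≤ r' → y' i ≠ y' (i + 2)) →
    y 0 = y' 0 → y r = y' r' → r = r' ∧ ∀ i ≤ r, y i = y' i

section sys

/-- vertices of non-backtracking walks of length `≤ m` are algebraic over the ends -/
def ST_ENDS : Prop :=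
  ∀ (K : Type u) [Field K] [IsAlgClosed K] (n m k : ℕ) (S : Sys K n m k)
    (L : Type u) [Field L] [Algebra K L] (σ : Bool) (r : ℕ) (v : ℕ → Fin n → L), r ≤ m →
    IsWalk S.P σ r v → NB r v → ∀ i ≤ r, ∀ c, v i c ∈ cl K (Set.range (v 0) ∪ Set.range (v r))

/-- generic steps in big fields -/
def ST_STEP : Prop :=
  ∀ (K : Type u) [Field K] [IsAlgClosed K] (n m k : ℕ) (S : Sys K n m k)
    (Ω : Type u) [Field Ω] [Algebra K Ω] [Big K Ω] (σ : Bool) (x : Fin n → Ω) (A : Set Ω),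
    A.Finite → Vtx S.P σ x →
    ∃ y : Fin n → Ω, Edge S.P σ x y ∧
      rk K (A ∪ Set.range x ∪ Set.range y) = rk K (A ∪ Set.range x) + k

/-- Moore bound: a dense system is a `Sys` -/
def ST_MOORE : Prop :=
  ∀ (K : Type u) [Field K] [IsAlgClosed K] (n m N : ℕ)
    (P : Ideal (MvPolynomial (Fin n ⊕ Fin n) K)), 2 ≤ m → Uniq P m →
    ∀ (L : Type u) [Field L] [Algebra K L] (x y : Fin n → L), Edge P true x y →
    rk K (Set.range x) ≤ N → rk K (Set.range y) ≤ N →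
    (m + 1) * N ≤ m * rk K (Set.range x ∪ Set.range y) →
    1 ≤ rk K (Set.range x ∪ Set.range y) →
    ∃ (k : ℕ) (S : Sys K n m k), S.P = P

/-- irreducibility: neighbours of a vertex are conjugate over its closure -/
def ST_IRR : Prop :=
  ∀ (K : Type u) [Field K] [IsAlgClosed K] (n m k : ℕ) (S : Sys K n m k)
    (L : Type u) [Field L] [Algebra K L] [IsAlgClosed L] (σ : Bool) (x y y' : Fin n → L),
    Edge S.P σ x y → Edge S.P σ x y' → Spec (cl K (Set.range x)) y y'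

/-- the case `k ≥ 2` is impossible -/
def ST_K2 : Prop :=
  ∀ (K : Type u) [Field K] [IsAlgClosed K] (n m k : ℕ) (_ : Sys K n m k), k = 1

/-- separating coordinates -/
def ST_SEP : Prop :=
  ∀ (K : Type u) [Field K] [IsAlgClosed K] (n m : ℕ) (S : Sys K n m 1),
    ∃ T : SysT K n m, T.toSys = S

/-- `m`-walks between generic pairs -/
def ST_MWALK : Prop :=
  ∀ (K : Type u) [Field K] [IsAlgClosed K] (n m k : ℕ) (S : Sys K n m k)
    (L : Type u) [Field L] [Algebra K L] [IsAlgClosed L] (σ : Bool) (x q : Fin n → L),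
    Vtx S.P σ x → Vtx S.P (ty σ m) q → rk K (Set.range x ∪ Set.range q) = 2 * (m * k) →
    ∃ v : ℕ → Fin n → L, IsWalk S.P σ m v ∧ NB m v ∧ v 0 = x ∧ v m = q

/-- generic walks are non-backtracking -/
def ST_GNB : Prop :=
  ∀ (K : Type u) [Field K] [IsAlgClosed K] (n m k : ℕ) (S : Sys K n m k)
    (L : Type u) [Field L] [Algebra K L] (σ : Bool) (r : ℕ) (v : ℕ → Fin n → L),
    IsWalk S.P σ r v → m * k + r * k ≤ rk K (pts v (Set.Iic r)) → NB r v

/-- Lemma W (non-contraction) -/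
def ST_LEMW : Prop :=
  ∀ (K : Type u) [Field K] [IsAlgClosed K] (n m k : ℕ) (S : Sys K n m k)
    (L : Type u) [Field L] [Algebra K L] (σ : Bool) (a b : ℕ) (h l : ℕ → Fin n → L),
    a + b + 1 ≤ m → IsWalk S.P σ a h → IsWalk S.P σ b l → h 0 ≠ l 0 →
    rk K (Set.range (h 0) ∪ Set.range (l 0)) + (a + b) * k ≤
      rk K (pts h (Set.Iic a) ∪ pts l (Set.Iic b)) →
    ¬ ∃ w : ℕ → Fin n → L, IsWalk S.P (ty σ a) (a + b) w ∧ NB (a + b) w ∧ w 0 = h a ∧
      w (a + b) = l b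

/-- uniqueness of the type of a generic walk together with an independent vertex -/
def ST_TYPE : Prop :=
  ∀ (K : Type u) [Field K] [IsAlgClosed K] (n m : ℕ) (S : SysT K n m)
    (L₁ L₂ : Type u) [Field L₁] [Algebra K L₁] [IsAlgClosed L₁] [Field L₂] [Algebra K L₂]
    [IsAlgClosed L₂] (σ ρ : Bool) (r : ℕ) (v₁ : ℕ → Fin n → L₁) (v₂ : ℕ → Fin n → L₂)
    (q₁ : Fin n → L₁) (q₂ : Fin n → L₂),
    IsWalk S.P σ r v₁ → IsWalk S.P σ r v₂ → Vtx S.P σ (v₁ 0) → Vtx S.P σ (v₂ 0) →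
    Vtx S.P ρ q₁ → Vtx S.P ρ q₂ →
    rk K (pts v₁ (Set.Iic r) ∪ Set.range q₁) = m + r + m →
    rk K (pts v₂ (Set.Iic r) ∪ Set.range q₂) = m + r + m →
    ∃ θ : cl K (pts v₁ (Set.Iic r) ∪ Set.range q₁) →ₐ[K] L₂,
      (∀ i ≤ r, ∀ (c : Fin n) (b : cl K (pts v₁ (Set.Iic r) ∪ Set.range q₁)),
        (b : L₁) = v₁ i c → θ b = v₂ i c) ∧
      (∀ (c : Fin n) (b : cl K (pts v₁ (Set.Iic r) ∪ Set.range q₁)),
        (b : L₁) = q₁ c → θ b = q₂ c)

/-- one-dimensional steps with a prescribed coordinate -/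
def ST_STEP1 : Prop :=
  ∀ (K : Type u) [Field K] [IsAlgClosed K] (n m : ℕ) (S : SysT K n m)
    (L : Type u) [Field L] [Algebra K L] [IsAlgClosed L] (σ : Bool) (x : Fin n → L) (T : L),
    Vtx S.P σ x → T ∉ cl K (Set.range x) → ∃ y : Fin n → L, Edge S.P σ x y ∧ y (S.t (!σ)) = T

/-- generic steps for places -/
def ST_VGS : Prop :=
  ∀ (K : Type u) [Field K] [IsAlgClosed K] (n m : ℕ) (S : SysT K n m)
    (L : Type u) [Field L] [Algebra K L] (w : KVal K L) (σ : Bool) (x : Fin n → L),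
    (∀ c, x c ∈ w.V) → Vtx S.P σ x → Vtx S.P σ (w.redv x) →
    ∃ (L' : Type u) (_ : Field L') (_ : Algebra K L') (_ : Algebra L L') (w' : KVal K L')
      (y : Fin n → L'), IsScalarTower K L L' ∧ IsAlgClosed L' ∧ w.Ext w' ∧
      (∀ c, y c ∈ w'.V) ∧ Edge S.P σ (fun c => algebraMap L L' (x c)) y ∧
      Edge S.P σ (w'.redv (fun c => algebraMap L L' (x c))) (w'.redv y) ∧
      ∀ s : Set L, s.Finite → (∀ a ∈ s, a ∈ w.V) →
        w'.red (y (S.t (!σ))) ∉ cl K (w'.red '' (algebraMap L L' '' s))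

/-! ## D. The relation `R` between ends of `(m-1)`-walks, and orders -/

/-- `R σ` vanishes at the ends of generic `(m-1)`-walks from type `σ`, not at generic pairs. -/
structure RData {K : Type u} [Field K] [IsAlgClosed K] {n m : ℕ} (S : SysT K n m) where
  R : Bool → MvPolynomial (Fin n ⊕ Fin n) K
  van : ∀ (L : Type u) [Field L] [Algebra K L] (σ : Bool) (w : ℕ → Fin n → L),
    IsWalk S.P σ (m - 1) w → Vtx S.P σ (w 0) →
    rk K (pts w (Set.Iic (m - 1))) + 1 = 2 * m →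
    aeval (Sum.elim (w 0) (w (m - 1))) (R σ) = 0
  nonvan : ∀ (L : Type u) [Field L] [Algebra K L] (σ : Bool) (x q : Fin n → L),
    Vtx S.P σ x → Vtx S.P (ty σ (m - 1)) q →
    rk K (Set.range x ∪ Set.range q) = 2 * m → aeval (Sum.elim x q) (R σ) ≠ 0

def ST_RPOLY : Prop :=
  ∀ (K : Type u) [Field K] [IsAlgClosed K] (n m : ℕ) (S : SysT K n m), Nonempty (RData S)

/-- an `(m+1)`-walk degenerating to a generic point of the locus `v (i+1) = v (i-1)` -/
structure Config {K : Type u} [Field K] [IsAlgClosed K] {n m : ℕ} (S : SysT K n m)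
    {L : Type u} [Field L] [Algebra K L] (w : KVal K L) (σ : Bool) (i : ℕ)
    (v : ℕ → Fin n → L) : Prop where
  one_le : 1 ≤ i
  le_m : i ≤ m
  walk : IsWalk S.P σ (m + 1) v
  mem : ∀ j ≤ m + 1, ∀ c, v j c ∈ w.V
  rwalk : IsWalk S.P σ (m + 1) (fun j => w.redv (v j))
  back : w.redv (v (i + 1)) = w.redv (v (i - 1))
  ne : v (i + 1) ≠ v (i - 1)
  rk_le : 2 * m ≤ rk K (w.red '' pts v (Set.Iic (m + 1)))

/-- orders of `R` along the loci `v (i+1) = v (i-1)` -/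
structure Ords {K : Type u} [Field K] [IsAlgClosed K] {n m : ℕ} (S : SysT K n m)
    (D : RData S) where
  A : ℕ
  B : Bool → ℕ → ℕ
  A_pos : 0 < A
  B_zero : ∀ σ, B σ 0 = 0
  B_end : ∀ σ, B σ (m + 1) = 0
  B_pos : ∀ σ i, 1 ≤ i → i ≤ m → 0 < B σ i
  ord : ∀ (L : Type u) [Field L] [Algebra K L] (w : KVal K L) (σ : Bool) (i : ℕ)
    (v : ℕ → Fin n → L), Config S w σ i v →
    w.V.valuation (aeval (Sum.elim (v 0) (v (m + 1))) (D.R σ)) ^ A =
      w.V.valuation (v (i + 1) (S.t (ty σ (i + 1))) - v (i - 1) (S.t (ty σ (i + 1)))) ^ B σ i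

def ST_ORD : Prop :=
  ∀ (K : Type u) [Field K] [IsAlgClosed K] (n m : ℕ) (S : SysT K n m) (D : RData S),
    Nonempty (Ords S D)

/-! ## E. Frames -/

section frames

variable {K : Type u} [Field K] [IsAlgClosed K] {n m : ℕ} (S : SysT K n m)
  {L : Type u} [Field L] [Algebra K L]

/-- A generic walk `c` of length `2 m - 1` over `cl K s` with centre `x = c (m-1)`, and an
`m`-walk `a` from `v` to the end of `c`. `ρ` is the type of `c 0`. -/
structure Tail (ρ : Bool) (s : Set L) (x v : Fin n → L) (c a : ℕ → Fin n → L) : Prop where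
  walk : IsWalk S.P ρ (2 * m - 1) c
  sub : pts c (Set.Iic (2 * m - 1)) ⊆ cl K s
  gen : rk K (pts c (Set.Iic (2 * m - 1))) + 1 = 3 * m
  cen : c (m - 1) = x
  awalk : IsWalk S.P (ty ρ (m - 1)) m a
  anb : NB m a
  a0 : a 0 = v
  am : a m = c (2 * m - 1)

/-- a generic 2-walk `x, u, v` over `cl K s` (`σ` is the type of `x`) -/
structure Mov (σ : Bool) (s : Set L) (x u v : Fin n → L) : Prop where
  fin : s.Finite
  xs : ∀ c, x c ∈ cl K s
  xu : Edge S.P σ x u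
  uv : Edge S.P (!σ) u v
  ut : u (S.t (!σ)) ∉ cl K s
  vt : v (S.t σ) ∉ cl K (s ∪ Set.range u)

/-- the function `g_j` -/
noncomputable def gfun {S : SysT K n m} (D : RData S) (ρ : Bool) (c a : ℕ → Fin n → L)
    (j : ℕ) : L :=
  aeval (Sum.elim (c (m - j)) (a (m - j))) (D.R (ty ρ (m - j)))

/-- places `v → v̄ → x` over `cl K s`, `v̄ ≠ x` of rank one -/
structure Good (s : Set L) (x v : Fin n → L) (w : KVal K L) : Prop where
  triv : w.Triv (cl K s)
  mem : ∀ c, v c ∈ w.V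
  spec : ∀ f : MvPolynomial (Fin n) (cl K s), w.red (aeval v f) = 0 → aeval x f = 0
  ne : w.redv v ≠ w.redv x
  rk_le : rk K (w.red '' s ∪ Set.range (w.redv v)) ≤ rk K s + 1

end frames

/-- first facts on the residue of the walk `a` -/
def ST_FR0 : Prop :=
  ∀ (K : Type u) [Field K] [IsAlgClosed K] (n m : ℕ) (S : SysT K n m)
    (L : Type u) [Field L] [Algebra K L] [IsAlgClosed L] (ρ : Bool) (s : Set L)
    (x u v : Fin n → L) (c a : ℕ → Fin n → L) (w : KVal K L),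
    Mov S (ty ρ (m - 1)) s x u v → Tail S ρ s x v c a → Good s x v w →
    w.Triv (cl K (Set.range v ∪ Set.range (c (2 * m - 1)))) ∧
    (∀ i ≤ m, ∀ d, a i d ∈ w.V) ∧
    IsWalk S.P (ty ρ (m - 1)) m (fun i => w.redv (a i)) ∧
    NB m (fun i => w.redv (a i)) ∧
    ∀ j, 1 ≤ j → j ≤ m → 2 * m ≤
      rk K (w.red '' (pts c (Set.Icc (m - j) (m - 1)) ∪ pts a (Set.Iic (m - j))))

/-- if the residue of `g_j` vanishes there is an `(m-1)`-walk in the residue field -/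
def ST_ZERO : Prop :=
  ∀ (K : Type u) [Field K] [IsAlgClosed K] (n m : ℕ) (S : SysT K n m) (D : RData S)
    (L : Type u) [Field L] [Algebra K L] [IsAlgClosed L] (ρ : Bool) (s : Set L)
    (x u v : Fin n → L) (c a : ℕ → Fin n → L) (w : KVal K L),
    Mov S (ty ρ (m - 1)) s x u v → Tail S ρ s x v c a → Good s x v w →
    ∀ j, 1 ≤ j → j ≤ m → w.red (gfun D ρ c a j) = 0 →
    ∃ b : ℕ → Fin n → w.κ, IsWalk S.P (ty ρ (m - j)) (m - 1) b ∧ NB (m - 1) b ∧
      b 0 = w.redv (c (m - j)) ∧ b (m - 1) = w.redv (a (m - j))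

/-- Case A: `v̄` of rank one over `x` -/
def ST_CASEA : Prop :=
  ∀ (K : Type u) [Field K] [IsAlgClosed K] (n m : ℕ) (S : SysT K n m) (D : RData S)
    (L : Type u) [Field L] [Algebra K L] [IsAlgClosed L] (ρ : Bool) (s : Set L)
    (x u v : Fin n → L) (c a : ℕ → Fin n → L) (w : KVal K L),
    Mov S (ty ρ (m - 1)) s x u v → Tail S ρ s x v c a → Good s x v w →
    rk K (Set.range (w.redv x) ∪ Set.range (w.redv v)) ≤ m + 1 →
    ∀ j, 1 ≤ j → j ≤ m → w.V.valuation (gfun D ρ c a j) = 1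

/-- Case A, residues of elements algebraic over `x, v` -/
def ST_CASEA2 : Prop :=
  ∀ (K : Type u) [Field K] [IsAlgClosed K] (n m : ℕ) (S : SysT K n m)
    (L : Type u) [Field L] [Algebra K L] [IsAlgClosed L] (σ : Bool) (s : Set L)
    (x u v : Fin n → L) (w : KVal K L),
    Mov S σ s x u v → Good s x v w →
    rk K (Set.range (w.redv x) ∪ Set.range (w.redv v)) ≤ m + 1 →
    ∀ e ∈ cl K (Set.range x ∪ Set.range v), e ∈ w.V → ∀ d ∈ cl K s, w.red e = w.red d →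
      d ∈ cl K (Set.range x)

/-- Case B: `v̄` generic over `x` -/
def ST_CASEB : Prop :=
  ∀ (K : Type u) [Field K] [IsAlgClosed K] (n m : ℕ) (S : SysT K n m) (D : RData S)
    (O : Ords S D) (L : Type u) [Field L] [Algebra K L] [IsAlgClosed L] (ρ : Bool)
    (s : Set L) (x u v : Fin n → L) (c a : ℕ → Fin n → L) (w : KVal K L),
    Mov S (ty ρ (m - 1)) s x u v → Tail S ρ s x v c a → Good s x v w →
    m + 2 ≤ rk K (Set.range (w.redv x) ∪ Set.range (w.redv v)) →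
    (∀ d, u d ∈ w.V) ∧ Edge S.P (ty ρ (m - 1)) (w.redv x) (w.redv u) ∧
    ∀ j, 1 ≤ j → j ≤ m →
      (w.redv u = w.redv (c (m - 2)) → w.V.valuation (gfun D ρ c a j) ^ O.A =
        w.V.valuation (u (S.t (ty ρ m)) - c (m - 2) (S.t (ty ρ m))) ^
          O.B (ty ρ (m - j)) (j - 1)) ∧
      (w.redv u = w.redv (c m) → w.V.valuation (gfun D ρ c a j) ^ O.A =
        w.V.valuation (u (S.t (ty ρ m)) - c m (S.t (ty ρ m))) ^
          O.B (ty ρ (m - j)) (j + 1)) ∧
      (w.redv u ≠ w.redv (c (m - 2)) → w.redv u ≠ w.redv (c m) →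
        w.V.valuation (gfun D ρ c a j) = 1)

/-- the place `v → x` with `u` generic -/
def ST_CASEU : Prop :=
  ∀ (K : Type u) [Field K] [IsAlgClosed K] (n m : ℕ) (S : SysT K n m) (D : RData S)
    (O : Ords S D) (L : Type u) [Field L] [Algebra K L] [IsAlgClosed L] (ρ : Bool)
    (s : Set L) (x u v : Fin n → L) (c a : ℕ → Fin n → L) (w : KVal K L),
    Mov S (ty ρ (m - 1)) s x u v → Tail S ρ s x v c a → w.Triv (cl K (s ∪ Set.range u)) →
    (∀ d, v d ∈ w.V) → w.redv v = w.redv x →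
    ∀ j, 1 ≤ j → j ≤ m → w.V.valuation (gfun D ρ c a j) ^ O.A =
      w.V.valuation (v (S.t (ty ρ (m - 1))) - x (S.t (ty ρ (m - 1)))) ^ O.B (ty ρ (m - j)) j

/-! ## F. Fibres, the global set-up, and the relation -/

/-- the neighbours `z` of `x` with `z_t = c` -/
def Fib {K : Type u} [Field K] [IsAlgClosed K] {n m : ℕ} (S : SysT K n m)
    {L : Type u} [Field L] [Algebra K L] (σ : Bool) (x : Fin n → L) (c : L) :
    Set (Fin n → L) :=
  {z | Edge S.P σ x z ∧ z (S.t (!σ)) = c}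

def ST_FIB : Prop :=
  ∀ (K : Type u) [Field K] [IsAlgClosed K] (n m : ℕ) (S : SysT K n m)
    (L : Type u) [Field L] [Algebra K L] [IsAlgClosed L] (σ : Bool) (x : Fin n → L),
    Vtx S.P σ x →
    (∀ c, (Fib S σ x c).Finite) ∧
    (∀ c, c ∉ cl K (Set.range x) → (Fib S σ x c).Nonempty) ∧
    (∀ c c', c ∉ cl K (Set.range x) → c' ∉ cl K (Set.range x) →
      (Fib S σ x c).ncard = (Fib S σ x c').ncard) ∧
    ∀ (w : KVal K L) (s : Set L), w.Triv (cl K s) → (∀ d, x d ∈ cl K s) →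
      ∀ c ∈ cl K s, c ∉ cl K (Set.range x) → ∀ z : Fin n → w.κ,
      z ∈ Fib S σ (w.redv x) (w.red c) → ∃ z₁ ∈ Fib S σ x c, w.redv z₁ = z

/-- the global set-up -/
structure Setup {K : Type u} [Field K] [IsAlgClosed K] {n m : ℕ} (S : SysT K n m) (ρ : Bool)
    (L : Type u) [Field L] [Algebra K L] where
  s : Set L
  x : Fin n → L
  u : Fin n → L
  v : Fin n → L
  c₁ : L
  c₂ : L
  c₄ : L
  vx : Vtx S.P (ty ρ (m - 1)) x
  mov : Mov S (ty ρ (m - 1)) s x u v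
  mem₁ : c₁ ∈ cl K s
  mem₂ : c₂ ∈ cl K s
  mem₄ : c₄ ∈ cl K s
  not₁ : c₁ ∉ cl K (Set.range x)
  not₂ : c₂ ∉ cl K (Set.range x)
  not₄ : c₄ ∉ cl K (Set.range x)
  ne₁₂ : c₁ ≠ c₂
  ne₁₄ : c₁ ≠ c₄
  ne₂₄ : c₂ ≠ c₄
  c : (Fin n → L) → (Fin n → L) → ℕ → Fin n → L
  a : (Fin n → L) → (Fin n → L) → ℕ → Fin n → L
  tail : ∀ z ∈ Fib S (ty ρ (m - 1)) x c₁, ∀ z' ∈ Fib S (ty ρ (m - 1)) x c₂,
    Tail S ρ s x v (c z z') (a z z') ∧ c z z' (m - 2) = z ∧ c z z' m = z'
  w : KVal K L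
  wtriv : w.Triv (cl K (s ∪ Set.range u))
  wmem : ∀ d, v d ∈ w.V
  wred : w.redv v = w.redv x

def ST_SETUP : Prop :=
  ∀ (K : Type u) [Field K] [IsAlgClosed K] (n m : ℕ) (S : SysT K n m) (ρ : Bool),
    ∃ (L : Type u) (_ : Field L) (_ : Algebra K L), IsAlgClosed L ∧ Nonempty (Setup S ρ L)

/-- from Hartogs valuation rings to `Good` places -/
def ST_GOOD : Prop :=
  ∀ (K : Type u) [Field K] [IsAlgClosed K] (L : Type u) [Field L] [Algebra K L]
    [IsAlgClosed L] (n : ℕ) (s : Set L), s.Finite → ∀ (x : Fin n → cl K s) (v : Fin n → L)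
    (V : ValuationSubring L), (∀ c : cl K s, (c : L) ∈ V) → (∀ i, v i ∈ V) →
    (∀ f : MvPolynomial (Fin n) (cl K s), V.valuation (aeval v f) < 1 → aeval x f = 0) →
    (∃ i, ¬ V.valuation (v i - (x i : L)) < 1) →
    (∀ a ∈ Algebra.adjoin (cl K s) (Set.range v), ∀ b ∈ Algebra.adjoin (cl K s) (Set.range v),
      ∃ f : MvPolynomial (Fin 2) (cl K s), f ≠ 0 ∧ V.valuation (aeval ![a, b] f) < 1) →
    ∃ w : KVal K L, w.V = V ∧ Good s (fun i => (x i : L)) v w

/-- the relation between the orders -/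
def ST_REL : Prop :=
  ∀ (K : Type u) [Field K] [IsAlgClosed K] (n m : ℕ) (S : SysT K n m) (D : RData S)
    (O : Ords S D) (τ : Bool) (j j' : ℕ), 1 ≤ j → j ≤ m → 1 ≤ j' → j' ≤ m →
    ty τ j = ty τ j' →
    O.B τ j' * (O.B τ (j - 1) + O.B τ (j + 1)) = O.B τ j * (O.B τ (j' - 1) + O.B τ (j' + 1))

/-- the one-dimensional theorem -/
def ST_FIN1 : Prop :=
  ∀ (K : Type u) [Field K] [IsAlgClosed K] (n m : ℕ) (_ : Sys K n m 1),
    m = 2 ∨ m = 3 ∨ m = 5

end sys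

/-! ## G. Constructible relations and finite fields -/

section prel

variable {F : Type u} [Field F] {N D : ℕ} (S : Fin D → Set (MvPolynomial (Fin N ⊕ Fin N) F))
  (g : Fin D → MvPolynomial (Fin N ⊕ Fin N) F) (E : Type u) [Field E] [Algebra F E]

/-- a boolean combination of polynomial equations: `(p, l)` lies in the union of the `D` sets
given by `f = 0` for all `f ∈ S i`, and `g i ≠ 0` -/
def PRel (p l : Fin N → E) : Prop :=
  ∃ i : Fin D, (∀ f ∈ S i, aeval (Sum.elim p l) f = 0) ∧ aeval (Sum.elim p l) (g i) ≠ 0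

/-- the bipartite graph on `E^N + E^N` of the relation `PRel` -/
def polyGraph : SimpleGraph ((Fin N → E) ⊕ (Fin N → E)) where
  Adj x y :=
    (∃ p l, x = Sum.inl p ∧ y = Sum.inr l ∧ PRel S g E p l) ∨
    (∃ p l, x = Sum.inr l ∧ y = Sum.inl p ∧ PRel S g E p l)
  symm := ⟨by
    rintro x y (⟨p, l, rfl, rfl, h⟩ | ⟨p, l, rfl, rfl, h⟩)
    · exact Or.inr ⟨p, l, rfl, rfl, h⟩
    · exact Or.inl ⟨p, l, rfl, rfl, h⟩⟩
  loopless := ⟨by
    rintro x (⟨p, l, h1, h2, -⟩ | ⟨p, l, h1, h2, -⟩)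
    · rw [h1] at h2; cases h2
    · rw [h1] at h2; cases h2⟩

end prel

/-- the theorem over algebraically closed fields -/
def ST_TALG : Prop :=
  ∀ (K : Type u) [Field K] [IsAlgClosed K] (m : ℕ), (m = 4 ∨ 6 ≤ m) → ∀ (N D : ℕ)
    (S : Fin D → Set (MvPolynomial (Fin N ⊕ Fin N) K))
    (g : Fin D → MvPolynomial (Fin N ⊕ Fin N) K), 1 ≤ N →
    ((2 * m : ℕ) : ℕ∞) < (polyGraph S g K).egirth →
    ∀ (L : Type u) [Field L] [Algebra K L] (p l : Fin N → L), PRel S g L p l →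
      m * rk K (Set.range p ∪ Set.range l) + 1 ≤ (m + 1) * N

/-- points of small rank over finite fields -/
def ST_COUNT : Prop :=
  ∀ (ι : Type) [Fintype ι] (d D : ℕ), ∃ C : ℕ, ∀ (E : Type u) [Field E] [Finite E]
    (W : Set (ι → E)),
    (∀ T : Finset ι, T.card = d + 1 → ∃ f : MvPolynomial ι E, f ≠ 0 ∧ f.totalDegree ≤ D ∧
      (f.vars : Set ι) ⊆ T ∧ ∀ p ∈ W, eval p f = 0) →
    W.ncard ≤ C * Nat.card E ^ d

/-- the final theorem -/
def ST_FINITE : Prop :=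
  ∀ (m : ℕ), (m = 4 ∨ 6 ≤ m) → ∀ N D : ℕ, ∃ n₀ C : ℕ, 0 < n₀ ∧
    ∀ (F : Type u) [Field F] [Finite F] (S : Fin D → Set (MvPolynomial (Fin N ⊕ Fin N) F))
      (g : Fin D → MvPolynomial (Fin N ⊕ Fin N) F),
      (∀ i, ∀ f ∈ S i, f.totalDegree ≤ D) → (∀ i, (g i).totalDegree ≤ D) →
      ∀ (E : Type u) [Field E] [Algebra F E] [Finite E], n₀ ∣ Module.finrank F E →
        ((2 * m : ℕ) : ℕ∞) < (polyGraph S g E).egirth →
        (polyGraph S g E).edgeSet.ncard ^ m ≤ C * Nat.card E ^ ((m + 1) * N - 1)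

end Pool.Agent.Helper92.GG
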