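import Pool.Agent.Helper92.GG.Defs

/-! # Rank and closure calculus -/

set_option autoImplicit false

namespace Pool.Agent.Helper92.GG

open MvPolynomial
open Pool.Agent.Helper49.Girth (cl mem_cl mem_cl' coe_cl subset_cl mem_cl_of_mem cl_le_cl cl_mono
  root_mem_cl aeval_mem)

universe u

section rank

variable {K : Type u} {L : Type u} [Field K] [Field L] [Algebra K L]

theorem eRk_ne_top {s : Set L} (hs : s.Finite) :
    (AlgebraicIndependent.matroid K L).eRk s ≠ ⊤ := by
  have h1 : (AlgebraicIndependent.matroid K L).eRk s ≤ s.encard := Matroid.eRk_le_encard _ _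
  intro h
  rw [h] at h1
  exact absurd (top_le_iff.mp h1) (Set.encard_ne_top_iff.mpr hs)

theorem coe_rk {s : Set L} (hs : s.Finite) :
    ((rk K s : ℕ) : ℕ∞) = (AlgebraicIndependent.matroid K L).eRk s :=
  ENat.natCast_toNat (eRk_ne_top hs)

/-- membership in `cl` in terms of the matroid closure -/
theorem mem_cl_iff_mem_closure {s : Set L} {a : L} :
    a ∈ cl K s ↔ a ∈ (AlgebraicIndependent.matroid K L).closure s := by
  rw [← coe_cl]; rfl

theorem subset_cl_iff {s t : Set L} :
    t ⊆ cl K s ↔ t ⊆ (AlgebraicIndependent.matroid K L).closure s := by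
  rw [← coe_cl]

/-- two sets with the same closure have the same rank -/
theorem rk_congr {s t : Set L} (h : cl K s = cl K t) : rk K s = rk K t := by
  have h1 : (AlgebraicIndependent.matroid K L).closure s =
      (AlgebraicIndependent.matroid K L).closure t := by
    rw [← coe_cl, ← coe_cl, h]
  unfold rk
  rw [← Matroid.eRk_closure_eq, h1, Matroid.eRk_closure_eq]

theorem cl_cl (s : Set L) : cl K (cl K s : Set L) = cl K s :=
  le_antisymm (cl_le_cl fun _ h => h) (cl_mono (subset_cl s))

theorem cl_union_cl (s t : Set L) : cl K ((cl K s : Set L) ∪ t) = cl K (s ∪ t) := by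
  apply le_antisymm
  · apply cl_le_cl
    rintro a (ha | ha)
    · exact cl_mono Set.subset_union_left ha
    · exact mem_cl_of_mem (Or.inr ha)
  · exact cl_mono (Set.union_subset_union_left _ (subset_cl s))

theorem cl_eq_of_subset {s t : Set L} (h1 : s ⊆ t) (h2 : t ⊆ cl K s) : cl K s = cl K t :=
  le_antisymm (cl_mono h1) (cl_le_cl fun _ h => h2 h)

theorem rk_mono {s t : Set L} (ht : t.Finite) (h : s ⊆ t) : rk K s ≤ rk K t := by
  have h1 := (AlgebraicIndependent.matroid K L).eRk_mono h
  rw [← coe_rk ht, ← coe_rk (ht.subset h)] at h1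
  exact_mod_cast h1

theorem rk_le_of_subset_cl {s t : Set L} (hs : s.Finite) (h : t ⊆ cl K s) : rk K t ≤ rk K s := by
  have h1 : (AlgebraicIndependent.matroid K L).eRk t ≤
      (AlgebraicIndependent.matroid K L).eRk s := by
    rw [← Matroid.eRk_closure_eq _ s]
    exact Matroid.eRk_mono _ (subset_cl_iff.mp h)
  have h2 : (AlgebraicIndependent.matroid K L).eRk t ≠ ⊤ :=
    ne_top_of_le_ne_top (eRk_ne_top hs) h1
  unfold rk
  exact ENat.toNat_le_toNat h1 (eRk_ne_top hs)

theorem rk_union_le {s t : Set L} (hs : s.Finite) (ht : t.Finite) :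
    rk K (s ∪ t) ≤ rk K s + rk K t := by
  have h1 := (AlgebraicIndependent.matroid K L).eRk_union_le_eRk_add_eRk s t
  rw [← coe_rk hs, ← coe_rk ht, ← coe_rk (hs.union ht)] at h1
  exact_mod_cast h1

/-- submodularity: `rk (A ∪ B ∪ C) + rk A ≤ rk (A ∪ B) + rk (A ∪ C)` -/
theorem rk_submod {A B C : Set L} (hA : A.Finite) (hB : B.Finite) (hC : C.Finite) :
    rk K (A ∪ B ∪ C) + rk K A ≤ rk K (A ∪ B) + rk K (A ∪ C) := by
  have h1 := (AlgebraicIndependent.matroid K L).eRk_inter_add_eRk_union_le (A ∪ B) (A ∪ C)
  have h2 : (A ∪ B) ∪ (A ∪ C) = A ∪ B ∪ C := by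
    ext a; simp only [Set.mem_union]; tauto
  have h3 : A ⊆ (A ∪ B) ∩ (A ∪ C) := fun a ha => ⟨Or.inl ha, Or.inl ha⟩
  rw [h2] at h1
  have hf1 := hA.union hB
  have hf2 := hA.union hC
  have hf3 := hf1.union hC
  have hf4 := hf1.inter_of_left (A ∪ C)
  rw [← coe_rk hf1, ← coe_rk hf2, ← coe_rk hf3, ← coe_rk hf4] at h1
  have h4 : rk K ((A ∪ B) ∩ (A ∪ C)) + rk K (A ∪ B ∪ C) ≤ rk K (A ∪ B) + rk K (A ∪ C) := by
    exact_mod_cast h1
  have h5 := rk_mono (K := K) hf4 h3
  omega

theorem rk_empty : rk K (∅ : Set L) = 0 := by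
  unfold rk; simp

theorem rk_le_ncard {s : Set L} (hs : s.Finite) : rk K s ≤ s.ncard := by
  have h1 : (AlgebraicIndependent.matroid K L).eRk s ≤ s.encard := Matroid.eRk_le_encard _ _
  rw [← coe_rk hs, ← hs.cast_ncard_eq] at h1
  exact_mod_cast h1

theorem rk_range_le {ι : Type} [Finite ι] (x : ι → L) : rk K (Set.range x) ≤ Nat.card ι := by
  refine (rk_le_ncard (Set.finite_range x)).trans ?_
  have := Set.ncard_image_le (f := x) (s := Set.univ) Set.finite_univ
  rw [Set.image_univ, Set.ncard_univ] at this
  exact this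

theorem rk_insert_of_notMem {s : Set L} (hs : s.Finite) {a : L} (ha : a ∉ cl K s) :
    rk K (insert a s) = rk K s + 1 := by
  have h1 := (AlgebraicIndependent.matroid K L).eRk_insert_eq_add_one (e := a) (X := s)
    ⟨by simp, fun h => ha (mem_cl_iff_mem_closure.mpr h)⟩
  rw [← coe_rk hs, ← coe_rk (hs.insert a)] at h1
  exact_mod_cast h1

theorem rk_insert_le {s : Set L} (hs : s.Finite) (a : L) : rk K (insert a s) ≤ rk K s + 1 := by
  have h1 := (AlgebraicIndependent.matroid K L).eRk_insert_le_add_one a s
  rw [← coe_rk hs, ← coe_rk (hs.insert a)] at h1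
  exact_mod_cast h1

theorem rk_union_of_subset_cl {s t : Set L} (h : t ⊆ cl K s) : rk K (s ∪ t) = rk K s := by
  refine (rk_congr (cl_eq_of_subset Set.subset_union_left ?_)).symm
  rintro a (ha | ha)
  · exact subset_cl s ha
  · exact h ha

/-- equality of ranks forces equality of closures -/
theorem subset_cl_of_rk_le {s t : Set L} (ht : t.Finite) (h : s ⊆ t) (hr : rk K t ≤ rk K s) :
    t ⊆ cl K s := by
  intro a ha
  by_contra hn
  have h1 := rk_insert_of_notMem (ht.subset h) hn
  have h2 : rk K (insert a s) ≤ rk K t := rk_mono ht (Set.insert_subset ha h)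
  omega

theorem mem_cl_of_rk_insert_le {s : Set L} (hs : s.Finite) {a : L}
    (h : rk K (insert a s) ≤ rk K s) : a ∈ cl K s := by
  by_contra hn
  have := rk_insert_of_notMem hs hn
  omega

/-- `t ⊆ cl s` from `rk (s ∪ t) ≤ rk s` -/
theorem subset_cl_of_rk_union_le {s t : Set L} (hs : s.Finite) (ht : t.Finite)
    (h : rk K (s ∪ t) ≤ rk K s) : t ⊆ cl K s :=
  fun _ ha => subset_cl_of_rk_le (hs.union ht) Set.subset_union_left h (Or.inr ha)

/-- exchange -/
theorem cl_exchange {s : Set L} {a b : L} (h : a ∈ cl K (insert b s)) (hn : a ∉ cl K s) :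
    b ∈ cl K (insert a s) := by
  rw [mem_cl_iff_mem_closure] at h hn ⊢
  exact (Matroid.closure_exchange ⟨h, hn⟩).1

/-- ranks in a bigger field: embeddings preserve ranks -/
theorem rk_image_of_injective {L' : Type u} [Field L'] [Algebra K L'] (θ : L →ₐ[K] L')
    (s : Set L) : rk K (θ '' s) = rk K s := by
  unfold rk
  have key : ∀ I : Set L, (AlgebraicIndependent.matroid K L').Indep (θ '' I) ↔
      (AlgebraicIndependent.matroid K L).Indep I := by
    intro I
    rw [AlgebraicIndependent.matroid_indep_iff, AlgebraicIndependent.matroid_indep_iff]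
    have hinj : Function.Injective θ := θ.injective
    have h1 : AlgebraicIndepOn K id I ↔ AlgebraicIndepOn K (θ ∘ id) I :=
      ⟨fun h => AlgebraicIndependent.map' h hinj, fun h => AlgebraicIndependent.of_comp θ h⟩
    rw [h1]
    constructor
    · intro h
      have := h.comp (fun a : I => (⟨θ a, Set.mem_image_of_mem θ a.2⟩ : θ '' I)) (by
        intro a b hab
        apply Subtype.ext
        exact hinj (congrArg Subtype.val hab))
      exact this
    · intro h
      have hb : ∀ b : θ '' I, ∃ a : I, θ a = b := by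
        rintro ⟨b, a, ha, rfl⟩
        exact ⟨⟨a, ha⟩, rfl⟩
      choose g hg using hb
      have := h.comp g (by
        intro b c hbc
        apply Subtype.ext
        rw [← hg b, ← hg c, hbc])
      convert this using 1
      funext b
      exact (hg b).symm
  obtain ⟨I, hI⟩ := (AlgebraicIndependent.matroid K L).exists_isBasis s
  have h2 : (AlgebraicIndependent.matroid K L').IsBasis (θ '' I) (θ '' s) := by
    rw [Matroid.isBasis_iff]
    refine ⟨(key I).mpr hI.indep, Set.image_mono hI.subset, ?_⟩
    intro J hJ hIJ hJs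
    obtain ⟨J', hJ's, rfl⟩ := Set.subset_image_iff.mp hJs
    have h3 : I ⊆ J' := (Set.image_subset_image_iff θ.injective).mp hIJ
    rw [hI.eq_of_subset_indep ((key J').mp hJ) h3 hJ's]
  have h4 : Function.Injective (⇑θ) := θ.injective
  rw [← hI.encard_eq_eRk, ← h2.encard_eq_eRk, h4.encard_image]

/-- Images of closures under `K`-embeddings. -/
theorem map_mem_cl {L' : Type u} [Field L'] [Algebra K L'] (θ : L →ₐ[K] L') {s : Set L} {a : L}
    (ha : a ∈ cl K s) : θ a ∈ cl K (θ '' s) := by
  obtain ⟨p, hp0, hp⟩ := mem_cl'.mp ha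
  have hinj : Function.Injective ((θ : L →+* L').comp (algebraMap (Algebra.adjoin K s) L)) :=
    θ.injective.comp Subtype.val_injective
  apply root_mem_cl (p.map ((θ : L →+* L').comp (algebraMap (Algebra.adjoin K s) L)))
  · exact (Polynomial.map_ne_zero_iff hinj).mpr hp0
  · intro n
    rw [Polynomial.coeff_map]
    have key : ∀ c ∈ Algebra.adjoin K s, θ c ∈ cl K (θ '' s) := by
      intro c hc
      induction hc using Algebra.adjoin_induction with
      | mem x hx => exact mem_cl_of_mem (Set.mem_image_of_mem θ hx)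
      | algebraMap r => rw [AlgHom.commutes]; exact IntermediateField.algebraMap_mem _ _
      | add x y _ _ hx hy => rw [map_add]; exact add_mem hx hy
      | mul x y _ _ hx hy => rw [map_mul]; exact mul_mem hx hy
    exact key _ (p.coeff n).2
  · rw [Polynomial.eval_map]
    have h2 := Polynomial.hom_eval₂ p (algebraMap (Algebra.adjoin K s) L) (θ : L →+* L') a
    have : Polynomial.eval₂ (algebraMap (Algebra.adjoin K s) L) a p = 0 := hp
    rw [this, map_zero] at h2
    exact h2.symm

theorem map_mem_cl_iff {L' : Type u} [Field L'] [Algebra K L'] (θ : L →ₐ[K] L') {s : Set L}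
    (hs : s.Finite) {a : L} : θ a ∈ cl K (θ '' s) ↔ a ∈ cl K s := by
  constructor
  · intro h
    apply mem_cl_of_rk_insert_le hs
    rw [← rk_image_of_injective θ, ← rk_image_of_injective θ s, Set.image_insert_eq]
    have : θ '' s ∪ {θ a} = insert (θ a) (θ '' s) := by rw [Set.union_singleton]
    rw [← this, rk_union_of_subset_cl]
    rintro _ rfl
    exact h
  · exact map_mem_cl θ

/-- a version for embeddings of intermediate fields -/
theorem rk_image_val {L' : Type u} [Field L'] [Algebra K L'] (M : IntermediateField K L)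
    (θ : M →ₐ[K] L') (s : Set M) : rk K (θ '' s) = rk K (Subtype.val '' s : Set L) := by
  rw [rk_image_of_injective θ s, ← rk_image_of_injective M.val s]
  rfl

theorem map_mem_cl_val {L' : Type u} [Field L'] [Algebra K L'] (M : IntermediateField K L)
    (θ : M →ₐ[K] L') {s : Set M} (hs : s.Finite) {a : M}
    (ha : (a : L) ∈ cl K (Subtype.val '' s : Set L)) : θ a ∈ cl K (θ '' s) := by
  apply map_mem_cl
  exact (map_mem_cl_iff M.val hs).mp ha

/-- finiteness of closures: ranks over an intermediate closure -/
theorem cl_cl_mem {s t : Set L} {a : L} : a ∈ cl (cl K s) t ↔ a ∈ cl K (s ∪ t) := by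
  constructor
  · intro h
    obtain ⟨p, hp0, hp⟩ := mem_cl'.mp h
    apply root_mem_cl (p.map (algebraMap (Algebra.adjoin (cl K s) t) L))
    · exact (Polynomial.map_ne_zero_iff Subtype.val_injective).mpr hp0
    · intro n
      rw [Polynomial.coeff_map]
      have key : ∀ c ∈ Algebra.adjoin (cl K s) t, c ∈ cl K (s ∪ t) := by
        intro c hc
        induction hc using Algebra.adjoin_induction with
        | mem x hx => exact mem_cl_of_mem (Or.inr hx)
        | algebraMap r => exact cl_mono Set.subset_union_left r.2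
        | add x y _ _ hx hy => exact add_mem hx hy
        | mul x y _ _ hx hy => exact mul_mem hx hy
      exact key _ (p.coeff n).2
    · rw [Polynomial.eval_map]
      exact hp
  · intro h
    obtain ⟨p, hp0, hp⟩ := mem_cl'.mp h
    apply root_mem_cl (p.map (algebraMap (Algebra.adjoin K (s ∪ t)) L))
    · exact (Polynomial.map_ne_zero_iff Subtype.val_injective).mpr hp0
    · intro n
      rw [Polynomial.coeff_map]
      have key : ∀ c ∈ Algebra.adjoin K (s ∪ t), c ∈ cl (cl K s) t := by
        intro c hc
        induction hc using Algebra.adjoin_induction with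
        | mem x hx =>
          rcases hx with hx | hx
          · exact IntermediateField.algebraMap_mem (cl (cl K s) t) (⟨x, subset_cl s hx⟩ : cl K s)
          · exact mem_cl_of_mem hx
        | algebraMap r =>
          exact IntermediateField.algebraMap_mem (cl (cl K s) t) (algebraMap K (cl K s) r)
        | add x y _ _ hx hy => exact add_mem hx hy
        | mul x y _ _ hx hy => exact mul_mem hx hy
      exact key _ (p.coeff n).2
    · rw [Polynomial.eval_map]
      exact hp

/-- base change of ranks -/
theorem rk_union_eq {s t : Set L} (hs : s.Finite) (ht : t.Finite) :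
    rk K (s ∪ t) = rk K s + rk (cl K s) t := by
  induction t, ht using Set.Finite.induction_on with
  | empty => rw [Set.union_empty, rk_empty, add_zero]
  | @insert a t hat ht ih =>
    have e : s ∪ insert a t = insert a (s ∪ t) := by
      ext b; simp only [Set.mem_union, Set.mem_insert_iff]; tauto
    rw [e]
    by_cases h : a ∈ cl K (s ∪ t)
    · have h1 : rk K (insert a (s ∪ t)) = rk K (s ∪ t) := by
        rw [← Set.union_singleton, rk_union_of_subset_cl]
        rintro _ rfl
        exact h
      have h2 : rk (cl K s) (insert a t) = rk (cl K s) t := by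
        rw [← Set.union_singleton, rk_union_of_subset_cl]
        rintro _ rfl
        exact cl_cl_mem.mpr h
      rw [h1, h2, ih]
    · rw [rk_insert_of_notMem (hs.union ht) h,
        rk_insert_of_notMem ht (fun h' => h (cl_cl_mem.mp h')), ih]
      omega

end rank

section tower

variable {K : Type u} {L L' : Type u} [Field K] [Field L] [Field L'] [Algebra K L] [Algebra K L']
  [Algebra L L'] [IsScalarTower K L L']

theorem rk_image_algebraMap (s : Set L) : rk K (algebraMap L L' '' s) = rk K s :=
  rk_image_of_injective (IsScalarTower.toAlgHom K L L') s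

theorem algebraMap_mem_cl_iff {s : Set L} (hs : s.Finite) {a : L} :
    algebraMap L L' a ∈ cl K (algebraMap L L' '' s) ↔ a ∈ cl K s :=
  map_mem_cl_iff (IsScalarTower.toAlgHom K L L') hs

end tower

section spec

variable {k : Type u} [Field k] {ι : Type} {L L' : Type u} [Field L] [Field L'] [Algebra k L]
  [Algebra k L']

theorem Conj.symm {y : ι → L} {y' : ι → L'} (h : Conj k y y') : Conj k y' y :=
  fun f => (h f).symm

theorem Conj.spec {y : ι → L} {y' : ι → L'} (h : Conj k y y') : Spec k y y' :=
  fun f hf => (h f).mp hf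

theorem Spec.trans {L'' : Type u} [Field L''] [Algebra k L''] {y : ι → L} {y' : ι → L'}
    {y'' : ι → L''} (h : Spec k y y') (h' : Spec k y' y'') : Spec k y y'' :=
  fun f hf => h' f (h f hf)

theorem Conj.trans {L'' : Type u} [Field L''] [Algebra k L''] {y : ι → L} {y' : ι → L'}
    {y'' : ι → L''} (h : Conj k y y') (h' : Conj k y' y'') : Conj k y y'' :=
  fun f => (h f).trans (h' f)

theorem Conj.of_spec {y : ι → L} {y' : ι → L'} (h : Spec k y y') (h' : Spec k y' y) :
    Conj k y y' := fun f => ⟨h f, h' f⟩

theorem conj_iff_ker {y : ι → L} {y' : ι → L'} :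
    Conj k y y' ↔ RingHom.ker (aeval (R := k) y) = RingHom.ker (aeval (R := k) y') := by
  constructor
  · intro h
    ext f
    exact h f
  · intro h f
    have := congrArg (f ∈ ·) h
    simpa using this

/-- reindexing a specialization -/
theorem Spec.comp {κ : Type} {y : ι → L} {y' : ι → L'} (h : Spec k y y') (g : κ → ι) :
    Spec k (y ∘ g) (y' ∘ g) := by
  intro f hf
  have := h (rename g f) (by rw [aeval_rename]; exact hf)
  rw [aeval_rename] at this
  exact this

theorem Conj.comp {κ : Type} {y : ι → L} {y' : ι → L'} (h : Conj k y y') (g : κ → ι) :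
    Conj k (y ∘ g) (y' ∘ g) :=
  Conj.of_spec (h.spec.comp g) (h.symm.spec.comp g)

/-- `K`-embeddings give conjugates -/
theorem conj_of_algHom (θ : L →ₐ[k] L') (y : ι → L) : Conj k y (fun i => θ (y i)) := by
  intro f
  have : aeval (fun i => θ (y i)) f = θ (aeval y f) := by
    rw [comp_aeval_apply]
  rw [this]
  exact (map_eq_zero_iff θ θ.injective).symm

theorem algebraicIndependent_of_spec {y : ι → L} {y' : ι → L'} (h : Spec k y y')
    (hy : AlgebraicIndependent k y') : AlgebraicIndependent k y := by
  rw [algebraicIndependent_iff] at hy ⊢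
  intro f hf
  exact hy f (h f hf)

end spec

section spec2

variable {K : Type u} [Field K] {ι : Type} [Finite ι] {L L' : Type u} [Field L] [Field L']
  [Algebra K L] [Algebra K L']

/-- a basis of the range of a tuple, as a subfamily -/
theorem exists_basis_family (y : ι → L) : ∃ J : Set ι, AlgebraicIndependent K (fun j : J => y j) ∧
    (∀ i, y i ∈ cl K (Set.range fun j : J => y j)) ∧ J.ncard = rk K (Set.range y) := by
  classical
  obtain ⟨I, hI⟩ := (AlgebraicIndependent.matroid K L).exists_isBasis (Set.range y)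
  have hI' : ∀ a : I, ∃ i, y i = a := fun a => hI.subset a.2
  choose g hg using hI'
  have hginj : Function.Injective g := by
    intro a b hab
    apply Subtype.ext
    rw [← hg a, ← hg b, hab]
  have hrange : (Set.range fun j : Set.range g => y j) = I := by
    ext a
    constructor
    · rintro ⟨⟨_, b, rfl⟩, rfl⟩
      change y (g b) ∈ I
      rw [hg b]; exact b.2
    · intro ha
      exact ⟨⟨g ⟨a, ha⟩, ⟨a, ha⟩, rfl⟩, hg ⟨a, ha⟩⟩
  refine ⟨Set.range g, ?_, ?_, ?_⟩
  · have h1 : AlgebraicIndependent K (fun a : I => (a : L)) := hI.indep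
    have hmem : ∀ j : Set.range g, y j ∈ I := by
      rintro ⟨_, b, rfl⟩
      change y (g b) ∈ I
      rw [hg b]; exact b.2
    have h2 := h1.comp (fun j : Set.range g => (⟨y j, hmem j⟩ : I)) (by
      rintro ⟨_, a, rfl⟩ ⟨_, b, rfl⟩ hab
      have h3 : y (g a) = y (g b) := congrArg Subtype.val hab
      rw [hg a, hg b] at h3
      have : a = b := Subtype.ext h3
      subst this
      rfl)
    exact h2
  · intro i
    rw [hrange, mem_cl_iff_mem_closure]
    exact hI.subset_closure ⟨i, rfl⟩
  · unfold rk
    rw [← hI.encard_eq_eRk]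
    rw [Set.ncard_def, ← Set.image_univ, hginj.encard_image, Set.encard_univ]
    rfl

theorem rk_range_of_algebraicIndependent {κ : Type} [Finite κ] {x : κ → L}
    (hx : AlgebraicIndependent K x) : rk K (Set.range x) = Nat.card κ := by
  have h1 : (AlgebraicIndependent.matroid K L).Indep (Set.range x) := by
    rw [AlgebraicIndependent.matroid_indep_iff]
    exact hx.coe_range
  unfold rk
  rw [h1.eRk_eq_encard, ← Set.image_univ, hx.injective.encard_image, Set.encard_univ,
    ENat.card, Nat.card]
  simp

/-- ranks drop under specialization -/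
theorem Spec.rk_le {y : ι → L} {y' : ι → L'} (h : Spec K y y') :
    rk K (Set.range y') ≤ rk K (Set.range y) := by
  obtain ⟨J, h1, -, h3⟩ := exists_basis_family (K := K) y'
  have h4 : AlgebraicIndependent K (fun j : J => y j) :=
    algebraicIndependent_of_spec (h.comp (fun j : J => (j : ι))) h1
  rw [← h3]
  have h5 := rk_range_of_algebraicIndependent h4
  rw [Nat.card_coe_set_eq] at h5
  rw [← h5]
  exact rk_mono (Set.finite_range y) (by rintro _ ⟨j, rfl⟩; exact ⟨j, rfl⟩)

/-- an element of the image of `aeval`, from membership in `adjoin` -/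
theorem exists_aeval_of_mem_adjoin {κ : Type} (x : κ → L) {a : L}
    (ha : a ∈ Algebra.adjoin K (Set.range x)) : ∃ f : MvPolynomial κ K, aeval x f = a := by
  rw [Algebra.adjoin_range_eq_range_aeval] at ha
  exact ha

/-- A specialization which does not lower the rank is generic. -/
theorem Spec.conj_of_rk_le {y : ι → L} {y' : ι → L'} (h : Spec K y y')
    (hr : rk K (Set.range y) ≤ rk K (Set.range y')) : Conj K y y' := by
  classical
  apply Conj.of_spec h
  intro f hf
  by_contra hne
  obtain ⟨J, h1, -, h3⟩ := exists_basis_family (K := K) y'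
  have h4 : AlgebraicIndependent K (fun j : J => y j) :=
    algebraicIndependent_of_spec (h.comp (fun j : J => (j : ι))) h1
  have h5 := rk_range_of_algebraicIndependent h4
  rw [Nat.card_coe_set_eq] at h5
  have hsub : (Set.range fun j : J => y j) ⊆ Set.range y := by
    rintro _ ⟨j, rfl⟩
    exact ⟨j, rfl⟩
  have h6 : Set.range y ⊆ cl K (Set.range fun j : J => y j) :=
    subset_cl_of_rk_le (Set.finite_range y) hsub (by rw [h5, h3]; exact hr)
  set z : L := aeval y f with hz
  have hzcl : z ∈ cl K (Set.range fun j : J => y j) :=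
    aeval_mem _ y (fun i => h6 ⟨i, rfl⟩) f
  obtain ⟨p, hp0, hp⟩ := (mem_cl'.mp hzcl).exists_nonzero_coeff_and_aeval_eq_zero
    (mem_nonZeroDivisors_of_ne_zero hne)
  -- the constant coefficient
  obtain ⟨g, hg⟩ := exists_aeval_of_mem_adjoin (fun j : J => y j) (p.coeff 0).2
  have hg0 : g ≠ 0 := by
    rintro rfl
    apply hp0
    apply Subtype.ext
    rw [← hg, map_zero]
    rfl
  -- the rest
  have hq : ∀ q : Polynomial (Algebra.adjoin K (Set.range fun j : J => y j)),
      ∃ h : MvPolynomial ι K, aeval y h = Polynomial.aeval z q := by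
    intro q
    have h7 : Polynomial.aeval z q ∈ (aeval y : MvPolynomial ι K →ₐ[K] L).range := by
      rw [Polynomial.aeval_eq_sum_range]
      refine Subalgebra.sum_mem _ fun i _ => ?_
      rw [Algebra.smul_def]
      have hzr : z ∈ (aeval y : MvPolynomial ι K →ₐ[K] L).range := ⟨f, rfl⟩
      refine Subalgebra.mul_mem _ ?_ (Subalgebra.pow_mem _ hzr i)
      obtain ⟨g', hg'⟩ := exists_aeval_of_mem_adjoin (fun j : J => y j) (q.coeff i).2
      refine ⟨rename (fun j : J => (j : ι)) g', ?_⟩
      change aeval y (rename (fun j : J => (j : ι)) g') = _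
      rw [aeval_rename]
      exact hg'
    exact h7
  obtain ⟨r, hr'⟩ := hq p.divX
  have key : aeval y (rename (fun j : J => (j : ι)) g + f * r) = 0 := by
    rw [map_add, map_mul, aeval_rename, hr', ← hz]
    have h8 : Polynomial.aeval z p = Polynomial.aeval z (p.divX * Polynomial.X +
        Polynomial.C (p.coeff 0)) := by
      rw [Polynomial.divX_mul_X_add]
    rw [hp, map_add, map_mul, Polynomial.aeval_X, Polynomial.aeval_C] at h8
    have h9 : (aeval (y ∘ fun j : J => (j : ι))) g =
        algebraMap (Algebra.adjoin K (Set.range fun j : J => y j)) L (p.coeff 0) := hg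
    rw [h9, h8]
    ring
  have key' := h _ key
  rw [map_add, map_mul, hf, zero_mul, add_zero, aeval_rename] at key'
  exact hg0 ((algebraicIndependent_iff.mp h1) g key')

end spec2

end Pool.Agent.Helper92.GG
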