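import Pool.Agent.Helper92.GG.RK

/-! # Edges, vertices, walks: basic API -/

set_option autoImplicit false
set_option linter.unusedSectionVars false

namespace Pool.Agent.Helper92.GG

open MvPolynomial
open Pool.Agent.Helper49.Girth (cl mem_cl mem_cl' coe_cl subset_cl mem_cl_of_mem cl_le_cl cl_mono
  root_mem_cl aeval_mem ty ty_zero ty_succ ty_add ty_two ty_add_two ty_not)

universe u

section edge

variable {K : Type u} [Field K] {n : ℕ} {P : Ideal (MvPolynomial (Fin n ⊕ Fin n) K)}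
  {L L' : Type u} [Field L] [Algebra K L] [Field L'] [Algebra K L']

theorem Edge.symm {σ : Bool} {x y : Fin n → L} (h : Edge P σ x y) : Edge P (!σ) y x := by
  cases σ <;> exact h

theorem edge_symm_iff {σ : Bool} {x y : Fin n → L} : Edge P σ x y ↔ Edge P (!σ) y x := by
  cases σ <;> exact Iff.rfl

theorem Edge.symm' {σ : Bool} {x y : Fin n → L} (h : Edge P (!σ) x y) : Edge P σ y x := by
  cases σ <;> exact h

theorem Edge.vtx {σ : Bool} {x y : Fin n → L} (h : Edge P σ x y) : Vtx P σ x := by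
  have key : ∀ g : Fin n → Fin n ⊕ Fin n, ∀ a b : Fin n → L,
      RingHom.ker (aeval (R := K) (Sum.elim a b)) = P →
      RingHom.ker (aeval (R := K) ((Sum.elim a b) ∘ g)) =
        P.comap (rename (R := K) g).toRingHom := by
    intro g a b hab
    ext f
    rw [RingHom.mem_ker, Ideal.mem_comap, ← hab, RingHom.mem_ker]
    change _ ↔ aeval (Sum.elim a b) (rename g f) = 0
    rw [aeval_rename]
  unfold Vtx
  cases σ
  · have := key Sum.inr y x h
    exact this
  · have := key Sum.inl x y h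
    exact this

theorem Edge.vtx_right {σ : Bool} {x y : Fin n → L} (h : Edge P σ x y) : Vtx P (!σ) y :=
  h.symm.vtx

/-- edges are preserved by conjugation -/
theorem Edge.of_conj {σ : Bool} {x y : Fin n → L} {x' y' : Fin n → L'} (h : Edge P σ x y)
    (hc : Conj K (Sum.elim x y) (Sum.elim x' y')) : Edge P σ x' y' := by
  cases σ
  · have h1 : Conj K (Sum.elim y x) (Sum.elim y' x') := by
      have := hc.comp Sum.swap
      intro f
      have := this f
      rw [show (Sum.elim x y ∘ Sum.swap) = Sum.elim y x by funext i; cases i <;> rfl,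
        show (Sum.elim x' y' ∘ Sum.swap) = Sum.elim y' x' by funext i; cases i <;> rfl] at this
      exact this
    exact (conj_iff_ker.mp h1).symm.trans h
  · exact (conj_iff_ker.mp hc).symm.trans h

/-- any two edges are conjugate -/
theorem Edge.conj {σ : Bool} {x y : Fin n → L} {x' y' : Fin n → L'} (h : Edge P σ x y)
    (h' : Edge P σ x' y') : Conj K (Sum.elim x y) (Sum.elim x' y') := by
  cases σ
  · have h1 : Conj K (Sum.elim y x) (Sum.elim y' x') :=
      conj_iff_ker.mpr (Eq.trans h (Eq.symm h'))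
    have := h1.comp Sum.swap
    intro f
    have := this f
    rw [show (Sum.elim y x ∘ Sum.swap) = Sum.elim x y by funext i; cases i <;> rfl,
      show (Sum.elim y' x' ∘ Sum.swap) = Sum.elim x' y' by funext i; cases i <;> rfl] at this
    exact this
  · exact conj_iff_ker.mpr (Eq.trans h (Eq.symm h'))

theorem edge_iff_of_conj {σ : Bool} {x y : Fin n → L} {x' y' : Fin n → L'}
    (hc : Conj K (Sum.elim x y) (Sum.elim x' y')) : Edge P σ x y ↔ Edge P σ x' y' :=
  ⟨fun h => h.of_conj hc, fun h => h.of_conj hc.symm⟩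

theorem Vtx.of_conj {σ : Bool} {x : Fin n → L} {x' : Fin n → L'} (h : Vtx P σ x)
    (hc : Conj K x x') : Vtx P σ x' :=
  (conj_iff_ker.mp hc).symm.trans h

theorem Vtx.conj {σ : Bool} {x : Fin n → L} {x' : Fin n → L'} (h : Vtx P σ x)
    (h' : Vtx P σ x') : Conj K x x' :=
  conj_iff_ker.mpr (h.trans h'.symm)

theorem vtx_iff_of_conj {σ : Bool} {x : Fin n → L} {x' : Fin n → L'}
    (hc : Conj K x x') : Vtx P σ x ↔ Vtx P σ x' :=
  ⟨fun h => h.of_conj hc, fun h => h.of_conj hc.symm⟩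

theorem range_sum_elim (x y : Fin n → L) :
    Set.range (Sum.elim x y) = Set.range x ∪ Set.range y := Set.Sum.elim_range x y

/-- a specialization of an edge of full rank is an edge -/
theorem Edge.of_spec {σ : Bool} {x y : Fin n → L} {x' y' : Fin n → L'} (h : Edge P σ x y)
    (hc : Spec K (Sum.elim x y) (Sum.elim x' y'))
    (hr : rk K (Set.range x ∪ Set.range y) ≤ rk K (Set.range x' ∪ Set.range y')) :
    Edge P σ x' y' :=
  h.of_conj (hc.conj_of_rk_le (by rw [range_sum_elim, range_sum_elim]; exact hr))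

theorem Vtx.of_spec {σ : Bool} {x : Fin n → L} {x' : Fin n → L'} (h : Vtx P σ x)
    (hc : Spec K x x') (hr : rk K (Set.range x) ≤ rk K (Set.range x')) : Vtx P σ x' :=
  h.of_conj (hc.conj_of_rk_le hr)

theorem conj_elim_map (θ : L →ₐ[K] L') (x y : Fin n → L) :
    Conj K (Sum.elim x y) (Sum.elim (fun c => θ (x c)) (fun c => θ (y c))) := by
  have := conj_of_algHom θ (Sum.elim x y)
  rw [show (fun i => θ (Sum.elim x y i)) =
    Sum.elim (fun c => θ (x c)) (fun c => θ (y c)) by funext i; cases i <;> rfl] at this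
  exact this

theorem edge_map_iff (θ : L →ₐ[K] L') {σ : Bool} {x y : Fin n → L} :
    Edge P σ (fun c => θ (x c)) (fun c => θ (y c)) ↔ Edge P σ x y :=
  (edge_iff_of_conj (conj_elim_map θ x y)).symm

theorem Edge.map (θ : L →ₐ[K] L') {σ : Bool} {x y : Fin n → L} (h : Edge P σ x y) :
    Edge P σ (fun c => θ (x c)) (fun c => θ (y c)) := (edge_map_iff θ).mpr h

theorem vtx_map_iff (θ : L →ₐ[K] L') {σ : Bool} {x : Fin n → L} :
    Vtx P σ (fun c => θ (x c)) ↔ Vtx P σ x :=
  (vtx_iff_of_conj (conj_of_algHom θ x)).symm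

theorem Vtx.map (θ : L →ₐ[K] L') {σ : Bool} {x : Fin n → L} (h : Vtx P σ x) :
    Vtx P σ (fun c => θ (x c)) := (vtx_map_iff θ).mpr h

/-- a `K`-embedding `cl s → L'` maps edges with coordinates in `cl s` to edges -/
theorem edge_map_cl {s : Set L} (θ : cl K s →ₐ[K] L') {σ : Bool} {x y : Fin n → L}
    {x' y' : Fin n → L'} (hx : ∀ c, x c ∈ cl K s) (hy : ∀ c, y c ∈ cl K s)
    (hx' : ∀ c (b : cl K s), (b : L) = x c → θ b = x' c)
    (hy' : ∀ c (b : cl K s), (b : L) = y c → θ b = y' c) :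
    Edge P σ x y ↔ Edge P σ x' y' := by
  have h1 : Edge P σ (fun c => (⟨x c, hx c⟩ : cl K s)) (fun c => (⟨y c, hy c⟩ : cl K s)) ↔
      Edge P σ x y := (edge_map_iff (P := P) (cl K s).val).symm
  have h2 := edge_map_iff (P := P) θ (σ := σ) (x := fun c => (⟨x c, hx c⟩ : cl K s))
    (y := fun c => (⟨y c, hy c⟩ : cl K s))
  rw [← h1, ← h2]
  have e1 : (fun c => θ (⟨x c, hx c⟩ : cl K s)) = x' := by
    funext c; exact hx' c _ rfl
  have e2 : (fun c => θ (⟨y c, hy c⟩ : cl K s)) = y' := by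
    funext c; exact hy' c _ rfl
  rw [e1, e2]

theorem vtx_map_cl {s : Set L} (θ : cl K s →ₐ[K] L') {σ : Bool} {x : Fin n → L}
    {x' : Fin n → L'} (hx : ∀ c, x c ∈ cl K s)
    (hx' : ∀ c (b : cl K s), (b : L) = x c → θ b = x' c) :
    Vtx P σ x ↔ Vtx P σ x' := by
  have h1 : Vtx P σ (fun c => (⟨x c, hx c⟩ : cl K s)) ↔ Vtx P σ x :=
    (vtx_map_iff (P := P) (cl K s).val).symm
  have h2 := vtx_map_iff (P := P) θ (σ := σ) (x := fun c => (⟨x c, hx c⟩ : cl K s))
  rw [← h1, ← h2]
  have e1 : (fun c => θ (⟨x c, hx c⟩ : cl K s)) = x' := by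
    funext c; exact hx' c _ rfl
  rw [e1]

end edge

section walk

variable {K : Type u} [Field K] {n : ℕ} {P : Ideal (MvPolynomial (Fin n ⊕ Fin n) K)}
  {L L' : Type u} [Field L] [Algebra K L] [Field L'] [Algebra K L']

theorem IsWalk.mono {σ : Bool} {r r' : ℕ} {v : ℕ → Fin n → L} (h : IsWalk P σ r v)
    (hr : r' ≤ r) : IsWalk P σ r' v := fun i hi => h i (hi.trans_le hr)

theorem IsWalk.congr {σ : Bool} {r : ℕ} {v v' : ℕ → Fin n → L} (h : IsWalk P σ r v)
    (hv : ∀ i ≤ r, v i = v' i) : IsWalk P σ r v' := by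
  intro i hi
  rw [← hv i hi.le, ← hv (i + 1) hi]
  exact h i hi

theorem IsWalk.shift {σ : Bool} {r : ℕ} {v : ℕ → Fin n → L} (h : IsWalk P σ r v) (j : ℕ)
    {r' : ℕ} (hr : j + r' ≤ r) : IsWalk P (ty σ j) r' (fun i => v (j + i)) := by
  intro i hi
  have := h (j + i) (by omega)
  rw [ty_add] at this
  exact this

/-- the walk backwards -/
theorem IsWalk.reverse {σ : Bool} {r : ℕ} {v : ℕ → Fin n → L} (h : IsWalk P σ r v) :
    IsWalk P (ty σ r) r (fun i => v (r - i)) := by
  intro i hi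
  have h1 := h (r - i - 1) (by omega)
  have h2 : r - i - 1 + 1 = r - i := by omega
  rw [h2] at h1
  have h3 : ty (ty σ r) i = !(ty σ (r - i - 1)) := by
    rw [← ty_succ, h2]
    have h4 : ty σ (r - i + (i + i)) = ty σ (r - i) := by
      have : ∀ k l, ty σ (k + (l + l)) = ty σ k := by
        intro k l
        induction l with
        | zero => rfl
        | succ l ih => rw [show k + (l + 1 + (l + 1)) = k + (l + l) + 2 by ring, ty_add_two, ih]
      exact this _ _
    rw [← ty_add, show r + i = r - i + (i + i) by omega, h4]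
  rw [h3]
  exact h1.symm

theorem ty_add_self_add (σ : Bool) (k l : ℕ) : ty σ (k + (l + l)) = ty σ k := by
  induction l with
  | zero => rfl
  | succ l ih => rw [show k + (l + 1 + (l + 1)) = k + (l + l) + 2 by ring, ty_add_two, ih]

/-- `ty` only depends on the parity -/
theorem ty_congr {σ : Bool} {i j : ℕ} (h : i % 2 = j % 2) : ty σ i = ty σ j := by
  rcases le_total i j with hij | hij
  · obtain ⟨l, hl⟩ : ∃ l, j = i + (l + l) := ⟨(j - i) / 2, by omega⟩
    rw [hl, ty_add_self_add]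
  · obtain ⟨l, hl⟩ : ∃ l, i = j + (l + l) := ⟨(i - j) / 2, by omega⟩
    rw [hl, ty_add_self_add]

theorem ty_ne {σ : Bool} {i j : ℕ} (h : i % 2 ≠ j % 2) : ty σ i = !(ty σ j) := by
  rw [← ty_succ]
  exact ty_congr (by omega)

theorem ty_inj {σ : Bool} {i j : ℕ} (h : ty σ i = ty σ j) : i % 2 = j % 2 := by
  by_contra hne
  rw [ty_ne hne] at h
  cases h' : ty σ j <;> rw [h'] at h <;> cases h

theorem ty_ty (σ : Bool) (i j : ℕ) : ty (ty σ i) j = ty σ (i + j) := (ty_add σ i j).symm

/-- concatenation of two walks -/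
theorem IsWalk.append {σ : Bool} {r r' : ℕ} {v v' : ℕ → Fin n → L} (h : IsWalk P σ r v)
    (h' : IsWalk P (ty σ r) r' v') (e : v r = v' 0) :
    IsWalk P σ (r + r') (fun i => if i ≤ r then v i else v' (i - r)) := by
  intro i hi
  rcases lt_trichotomy i r with hlt | heq | hgt
  · simp only [if_pos hlt.le, if_pos (show i + 1 ≤ r by omega)]
    exact h i hlt
  · subst heq
    simp only [le_refl, if_true, if_neg (show ¬ (i + 1 ≤ i) by omega)]
    have := h' 0 (by omega)
    rw [show i + 1 - i = 0 + 1 by omega, e]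
    exact this
  · simp only [if_neg (show ¬ (i ≤ r) by omega), if_neg (show ¬ (i + 1 ≤ r) by omega)]
    have := h' (i - r) (by omega)
    rw [ty_ty, show r + (i - r) = i by omega, show i - r + 1 = i + 1 - r by omega] at this
    exact this

/-- adding a vertex in front -/
def wcons (x : Fin n → L) (v : ℕ → Fin n → L) : ℕ → Fin n → L
  | 0 => x
  | i + 1 => v i

@[simp] theorem wcons_zero (x : Fin n → L) (v : ℕ → Fin n → L) : wcons x v 0 = x := rfl
@[simp] theorem wcons_succ (x : Fin n → L) (v : ℕ → Fin n → L) (i : ℕ) :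
    wcons x v (i + 1) = v i := rfl

theorem IsWalk.cons {σ : Bool} {r : ℕ} {x : Fin n → L} {v : ℕ → Fin n → L}
    (h : IsWalk P (!σ) r v) (hx : Edge P σ x (v 0)) : IsWalk P σ (r + 1) (wcons x v) := by
  intro i hi
  cases i with
  | zero => exact hx
  | succ i =>
    have := h i (by omega)
    rw [ty_not] at this
    exact this

theorem NB.cons {r : ℕ} {x : Fin n → L} {v : ℕ → Fin n → L}
    (h : NB r v) (hx : 1 ≤ r → x ≠ v 1) : NB (r + 1) (wcons x v) := by
  intro i hi
  cases i with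
  | zero => exact hx (by omega)
  | succ i => exact h i (by omega)

/-- adding a vertex at the end -/
def wsnoc (r : ℕ) (v : ℕ → Fin n → L) (y : Fin n → L) : ℕ → Fin n → L :=
  fun i => if i ≤ r then v i else y

theorem wsnoc_of_le {r i : ℕ} (v : ℕ → Fin n → L) (y : Fin n → L) (h : i ≤ r) :
    wsnoc r v y i = v i := if_pos h

theorem wsnoc_of_lt {r i : ℕ} (v : ℕ → Fin n → L) (y : Fin n → L) (h : r < i) :
    wsnoc r v y i = y := if_neg (by omega)

@[simp] theorem wsnoc_last (r : ℕ) (v : ℕ → Fin n → L) (y : Fin n → L) :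
    wsnoc r v y (r + 1) = y := wsnoc_of_lt v y (by omega)

theorem IsWalk.snoc {σ : Bool} {r : ℕ} {y : Fin n → L} {v : ℕ → Fin n → L}
    (h : IsWalk P σ r v) (hy : Edge P (ty σ r) (v r) y) : IsWalk P σ (r + 1) (wsnoc r v y) := by
  intro i hi
  rcases Nat.lt_or_ge i r with h1 | h1
  · rw [wsnoc_of_le _ _ h1.le, wsnoc_of_le _ _ (show i + 1 ≤ r by omega)]
    exact h i h1
  · obtain rfl : i = r := by omega
    rw [wsnoc_of_le _ _ le_rfl, wsnoc_last]
    exact hy

theorem NB.snoc {r : ℕ} {y : Fin n → L} {v : ℕ → Fin n → L}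
    (h : NB r v) (hy : 1 ≤ r → v (r - 1) ≠ y) : NB (r + 1) (wsnoc r v y) := by
  intro i hi
  rcases Nat.lt_or_ge (i + 1) r with h1 | h1
  · rw [wsnoc_of_le _ _ (show i ≤ r by omega), wsnoc_of_le _ _ (show i + 2 ≤ r by omega)]
    exact h i h1
  · obtain rfl : r = i + 1 := by omega
    rw [wsnoc_of_le _ _ (show i ≤ i + 1 by omega), wsnoc_of_lt _ _ (show i + 1 < i + 2 by omega)]
    exact hy (by omega)

theorem NB.mono {r r' : ℕ} {v : ℕ → Fin n → L} (h : NB r v) (hr : r' ≤ r) : NB r' v :=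
  fun i hi => h i (by omega)

theorem NB.congr {r : ℕ} {v v' : ℕ → Fin n → L} (h : NB r v)
    (hv : ∀ i ≤ r, v i = v' i) : NB r v' := by
  intro i hi
  rw [← hv i (by omega), ← hv (i + 2) hi]
  exact h i hi

theorem NB.shift {r : ℕ} {v : ℕ → Fin n → L} (h : NB r v) (j : ℕ)
    {r' : ℕ} (hr : j + r' ≤ r) : NB r' (fun i => v (j + i)) := by
  intro i hi
  exact h (j + i) (by omega)

theorem NB.reverse {r : ℕ} {v : ℕ → Fin n → L} (h : NB r v) :
    NB r (fun i => v (r - i)) := by
  intro i hi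
  have := h (r - (i + 2)) (by omega)
  rw [show r - (i + 2) + 2 = r - i by omega] at this
  exact this.symm

theorem NB.append {r r' : ℕ} {v v' : ℕ → Fin n → L} (h : NB r v)
    (h' : NB r' v') (e : v r = v' 0) (hne : 1 ≤ r → 1 ≤ r' → v (r - 1) ≠ v' 1) :
    NB (r + r') (fun i => if i ≤ r then v i else v' (i - r)) := by
  intro i hi
  rcases Nat.lt_or_ge r (i + 1) with h1 | h1
  · -- i ≥ r
    by_cases h2 : i = r
    · subst h2
      simp only [le_refl, if_true, if_neg (show ¬ (i + 2 ≤ i) by omega)]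
      rw [show i + 2 - i = 2 by omega, e]
      exact h' 0 (by omega)
    · simp only [if_neg (show ¬ (i ≤ r) by omega), if_neg (show ¬ (i + 2 ≤ r) by omega)]
      have := h' (i - r) (by omega)
      rw [show i - r + 2 = i + 2 - r by omega] at this
      exact this
  · rcases Nat.lt_or_ge (i + 1) r with h2 | h2
    · simp only [if_pos (show i ≤ r by omega), if_pos (show i + 2 ≤ r by omega)]
      exact h i h2
    · obtain rfl : r = i + 1 := by omega
      simp only [if_pos (show i ≤ i + 1 by omega), if_neg (show ¬ (i + 2 ≤ i + 1) by omega)]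
      have := hne (by omega) (by omega)
      rw [show i + 2 - (i + 1) = 1 by omega]
      exact this

theorem IsWalk.vtx {σ : Bool} {r : ℕ} {v : ℕ → Fin n → L} (h : IsWalk P σ r v) (hr : 1 ≤ r)
    {i : ℕ} (hi : i ≤ r) : Vtx P (ty σ i) (v i) := by
  rcases Nat.lt_or_ge i r with h1 | h1
  · exact (h i h1).vtx
  · obtain rfl : i = r := by omega
    have h2 := (h (i - 1) (by omega)).vtx_right
    rw [show i - 1 + 1 = i by omega] at h2
    have : (!(ty σ (i - 1))) = ty σ i := by
      rw [← ty_succ, show i - 1 + 1 = i by omega]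
    rw [this] at h2
    exact h2

theorem IsWalk.vtx' {σ : Bool} {r : ℕ} {v : ℕ → Fin n → L} (h : IsWalk P σ r v)
    (h0 : Vtx P σ (v 0)) {i : ℕ} (hi : i ≤ r) : Vtx P (ty σ i) (v i) := by
  cases i with
  | zero => exact h0
  | succ i => exact h.vtx (by omega) hi

theorem isWalk_zero (σ : Bool) (v : ℕ → Fin n → L) : IsWalk P σ 0 v :=
  fun i hi => absurd hi (Nat.not_lt_zero i)

theorem nb_one (v : ℕ → Fin n → L) : NB 1 v := fun i hi => by omega
theorem nb_zero (v : ℕ → Fin n → L) : NB 0 v := fun i hi => by omega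

theorem isWalk_map_iff (θ : L →ₐ[K] L') {σ : Bool} {r : ℕ} {v : ℕ → Fin n → L} :
    IsWalk P σ r (fun i c => θ (v i c)) ↔ IsWalk P σ r v :=
  forall₂_congr fun _ _ => edge_map_iff θ

theorem IsWalk.map (θ : L →ₐ[K] L') {σ : Bool} {r : ℕ} {v : ℕ → Fin n → L}
    (h : IsWalk P σ r v) : IsWalk P σ r (fun i c => θ (v i c)) := (isWalk_map_iff θ).mpr h

theorem nb_map_iff (θ : L →ₐ[K] L') {r : ℕ} {v : ℕ → Fin n → L} :
    NB r (fun i c => θ (v i c)) ↔ NB r v := by
  refine forall₂_congr fun i _ => not_congr ?_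
  constructor
  · intro h
    funext c
    exact θ.injective (congrFun h c)
  · intro h
    change (fun c => θ (v i c)) = fun c => θ (v (i + 2) c)
    rw [h]

theorem NB.map (θ : L →ₐ[K] L') {r : ℕ} {v : ℕ → Fin n → L}
    (h : NB r v) : NB r (fun i c => θ (v i c)) := (nb_map_iff θ).mpr h

/-! ### coordinates -/

theorem range_finite (x : Fin n → L) : (Set.range x).Finite := Set.finite_range x

theorem pts_finite (v : ℕ → Fin n → L) {I : Set ℕ} (hI : I.Finite) : (pts v I).Finite :=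
  hI.biUnion fun _ _ => Set.finite_range _

theorem pts_Iic_finite (v : ℕ → Fin n → L) (r : ℕ) : (pts v (Set.Iic r)).Finite :=
  pts_finite v (Set.finite_Iic r)

theorem pts_Icc_finite (v : ℕ → Fin n → L) (a b : ℕ) : (pts v (Set.Icc a b)).Finite :=
  pts_finite v (Set.finite_Icc a b)

theorem range_subset_pts (v : ℕ → Fin n → L) {I : Set ℕ} {i : ℕ} (hi : i ∈ I) :
    Set.range (v i) ⊆ pts v I := Set.subset_biUnion_of_mem (u := fun i => Set.range (v i)) hi

theorem mem_pts {v : ℕ → Fin n → L} {I : Set ℕ} {a : L} :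
    a ∈ pts v I ↔ ∃ i ∈ I, ∃ c, v i c = a := by
  simp [pts]

theorem coord_mem_pts (v : ℕ → Fin n → L) {I : Set ℕ} {i : ℕ} (hi : i ∈ I) (c : Fin n) :
    v i c ∈ pts v I := mem_pts.mpr ⟨i, hi, c, rfl⟩

theorem pts_mono (v : ℕ → Fin n → L) {I J : Set ℕ} (h : I ⊆ J) : pts v I ⊆ pts v J :=
  Set.biUnion_subset_biUnion_left h

theorem pts_union (v : ℕ → Fin n → L) (I J : Set ℕ) : pts v (I ∪ J) = pts v I ∪ pts v J :=
  Set.biUnion_union _ _ _

theorem pts_insert (v : ℕ → Fin n → L) (i : ℕ) (I : Set ℕ) :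
    pts v (insert i I) = Set.range (v i) ∪ pts v I := Set.biUnion_insert _ _ _

theorem pts_empty (v : ℕ → Fin n → L) : pts v (∅ : Set ℕ) = ∅ := Set.biUnion_empty _

theorem pts_singleton (v : ℕ → Fin n → L) (i : ℕ) : pts v {i} = Set.range (v i) :=
  Set.biUnion_singleton _ _

theorem pts_Iic_zero (v : ℕ → Fin n → L) : pts v (Set.Iic 0) = Set.range (v 0) := by
  rw [show (Set.Iic 0 : Set ℕ) = {0} by ext i; simp, pts_singleton]

theorem pts_Iic_succ (v : ℕ → Fin n → L) (r : ℕ) :
    pts v (Set.Iic (r + 1)) = pts v (Set.Iic r) ∪ Set.range (v (r + 1)) := by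
  rw [show (Set.Iic (r + 1) : Set ℕ) = insert (r + 1) (Set.Iic r) by
    ext i; simp only [Set.mem_Iic, Set.mem_insert_iff]; omega, pts_insert, Set.union_comm]

theorem pts_congr {v v' : ℕ → Fin n → L} {I : Set ℕ} (h : ∀ i ∈ I, v i = v' i) :
    pts v I = pts v' I := by
  ext a
  rw [mem_pts, mem_pts]
  constructor
  · rintro ⟨i, hi, c, rfl⟩
    exact ⟨i, hi, c, by rw [h i hi]⟩
  · rintro ⟨i, hi, c, rfl⟩
    exact ⟨i, hi, c, by rw [h i hi]⟩

theorem pts_wsnoc (r : ℕ) (v : ℕ → Fin n → L) (y : Fin n → L) :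
    pts (wsnoc r v y) (Set.Iic (r + 1)) = pts v (Set.Iic r) ∪ Set.range y := by
  rw [pts_Iic_succ, wsnoc_last, pts_congr (v' := v)]
  intro i hi
  exact wsnoc_of_le _ _ hi

theorem pts_wcons (r : ℕ) (v : ℕ → Fin n → L) (x : Fin n → L) :
    pts (wcons x v) (Set.Iic (r + 1)) = Set.range x ∪ pts v (Set.Iic r) := by
  ext a
  rw [Set.mem_union, mem_pts, mem_pts]
  constructor
  · rintro ⟨i, hi, c, rfl⟩
    cases i with
    | zero => exact Or.inl ⟨c, rfl⟩
    | succ i => exact Or.inr ⟨i, by simpa using hi, c, rfl⟩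
  · rintro (⟨c, rfl⟩ | ⟨i, hi, c, rfl⟩)
    · exact ⟨0, by simp, c, rfl⟩
    · exact ⟨i + 1, by simpa using hi, c, rfl⟩

/-- images of coordinates -/
theorem image_pts (f : L → L') (v : ℕ → Fin n → L) (I : Set ℕ) :
    f '' pts v I = pts (fun i c => f (v i c)) I := by
  ext a
  rw [Set.mem_image, mem_pts]
  constructor
  · rintro ⟨b, hb, rfl⟩
    obtain ⟨i, hi, c, rfl⟩ := mem_pts.mp hb
    exact ⟨i, hi, c, rfl⟩
  · rintro ⟨i, hi, c, rfl⟩
    exact ⟨v i c, coord_mem_pts v hi c, rfl⟩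

theorem image_range (f : L → L') (x : Fin n → L) :
    f '' Set.range x = Set.range (fun c => f (x c)) := by
  rw [← Set.range_comp]; rfl

theorem pts_shift (v : ℕ → Fin n → L) (j r : ℕ) :
    pts (fun i => v (j + i)) (Set.Iic r) = pts v (Set.Icc j (j + r)) := by
  ext a
  rw [mem_pts, mem_pts]
  constructor
  · rintro ⟨i, hi, c, rfl⟩
    have : i ≤ r := hi
    exact ⟨j + i, ⟨by omega, by omega⟩, c, rfl⟩
  · rintro ⟨i, ⟨h1, h2⟩, c, rfl⟩
    exact ⟨i - j, show i - j ≤ r by omega, c, by rw [show j + (i - j) = i by omega]⟩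

theorem pts_reverse (v : ℕ → Fin n → L) (r : ℕ) :
    pts (fun i => v (r - i)) (Set.Iic r) = pts v (Set.Iic r) := by
  ext a
  rw [mem_pts, mem_pts]
  constructor
  · rintro ⟨i, hi, c, rfl⟩
    exact ⟨r - i, Nat.sub_le _ _, c, rfl⟩
  · rintro ⟨i, hi, c, rfl⟩
    have : i ≤ r := hi
    exact ⟨r - i, Nat.sub_le _ _, c, by rw [show r - (r - i) = i by omega]⟩

/-- rank and conjugation -/
theorem Conj.rk_eq {ι : Type} [Finite ι] {y : ι → L} {y' : ι → L'} (h : Conj K y y') :
    rk K (Set.range y) = rk K (Set.range y') :=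
  le_antisymm h.symm.spec.rk_le h.spec.rk_le

end walk

section sys

variable {K : Type u} [Field K] [IsAlgClosed K] {n m k : ℕ} (S : Sys K n m k)
  {L L' : Type u} [Field L] [Algebra K L] [Field L'] [Algebra K L']

namespace Sys

theorem exists_edge (σ : Bool) : ∃ (L : Type u) (_ : Field L) (_ : Algebra K L)
    (x y : Fin n → L), Edge S.P σ x y := by
  obtain ⟨L, i1, i2, x, y, h⟩ := S.ne
  cases σ
  · exact ⟨L, i1, i2, y, x, h.symm⟩
  · exact ⟨L, i1, i2, x, y, h⟩

/-- the rank of vertices -/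
theorem rk_vtx {σ : Bool} {x : Fin n → L} (h : Vtx S.P σ x) : rk K (Set.range x) = m * k := by
  obtain ⟨L₀, i1, i2, x₀, y₀, h₀⟩ := S.exists_edge σ
  rw [(h.conj h₀.vtx).rk_eq]
  exact S.rkV L₀ σ x₀ y₀ h₀

theorem rk_edge {σ : Bool} {x y : Fin n → L} (h : Edge S.P σ x y) :
    rk K (Set.range x ∪ Set.range y) = (m + 1) * k := S.rkE L σ x y h

/-- a neighbour adds at most `k` to the rank -/
theorem rk_step_le {σ : Bool} {x y : Fin n → L} (h : Edge S.P σ x y) {A : Set L}
    (hA : A.Finite) (hx : Set.range x ⊆ cl K A) :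
    rk K (A ∪ Set.range y) ≤ rk K A + k := by
  have hfx := Set.finite_range x
  have hfy := Set.finite_range y
  have h1 := rk_submod (K := K) hfx hfy hA
  have h2 := S.rk_edge h
  have h3 := S.rk_vtx h.vtx
  have h4 : rk K (A ∪ Set.range x) = rk K A := rk_union_of_subset_cl hx
  have h5 : (m + 1) * k = m * k + k := by ring
  have h6 : rk K (A ∪ Set.range y) ≤ rk K (Set.range x ∪ Set.range y ∪ A) :=
    rk_mono ((hfx.union hfy).union hA) (by
      rintro a (ha | ha)
      · exact Or.inr ha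
      · exact Or.inl (Or.inr ha))
  have h7 : rk K (Set.range x ∪ A) = rk K (A ∪ Set.range x) := by rw [Set.union_comm]
  omega

theorem rk_step_le' {σ : Bool} {x y : Fin n → L} (h : Edge S.P σ x y) {A : Set L}
    (hA : A.Finite) (hy : Set.range y ⊆ cl K A) :
    rk K (A ∪ Set.range x) ≤ rk K A + k := S.rk_step_le h.symm hA hy

/-- a walk adds at most `k` per step -/
theorem rk_walk_le {σ : Bool} {r : ℕ} {v : ℕ → Fin n → L} (h : IsWalk S.P σ r v) {A : Set L}
    (hA : A.Finite) (h0 : Set.range (v 0) ⊆ cl K A) :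
    rk K (A ∪ pts v (Set.Iic r)) ≤ rk K A + r * k := by
  induction r with
  | zero =>
    rw [pts_Iic_zero, rk_union_of_subset_cl h0]
    omega
  | succ r ih =>
    have h1 := ih (h.mono (Nat.le_succ r))
    rw [pts_Iic_succ, ← Set.union_assoc]
    have h2 := S.rk_step_le (h r (Nat.lt_succ_self r)) (A := A ∪ pts v (Set.Iic r))
      (hA.union (pts_Iic_finite v r)) (fun a ha => mem_cl_of_mem
        (Or.inr (range_subset_pts v (Set.mem_Iic.mpr le_rfl) ha)))
    have h3 : (r + 1) * k = r * k + k := by ring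
    omega

theorem rk_pts_le {σ : Bool} {r : ℕ} {v : ℕ → Fin n → L} (h : IsWalk S.P σ r v)
    (h0 : Vtx S.P σ (v 0)) : rk K (pts v (Set.Iic r)) ≤ m * k + r * k := by
  have h1 := S.rk_walk_le h (A := Set.range (v 0)) (Set.finite_range _) (subset_cl _)
  rw [S.rk_vtx h0] at h1
  refine le_trans (rk_mono ((Set.finite_range _).union (pts_Iic_finite v r))
    Set.subset_union_right) h1

/-- a walk backwards from its end adds at most `k` per step -/
theorem rk_walk_le' {σ : Bool} {r : ℕ} {v : ℕ → Fin n → L} (h : IsWalk S.P σ r v) {A : Set L}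
    (hA : A.Finite) (h0 : Set.range (v r) ⊆ cl K A) :
    rk K (A ∪ pts v (Set.Iic r)) ≤ rk K A + r * k := by
  have := S.rk_walk_le h.reverse hA (by simpa using h0)
  rw [pts_reverse] at this
  exact this

/-- uniqueness of non-backtracking walks -/
theorem unique {σ : Bool} {r r' : ℕ} {v v' : ℕ → Fin n → L} (hr : r + r' ≤ 2 * m)
    (h : IsWalk S.P σ r v) (h' : IsWalk S.P σ r' v') (hn : NB r v) (hn' : NB r' v')
    (h0 : v 0 = v' 0) (ht : ty σ r = ty σ r') (he : v r = v' r') :
    r = r' ∧ ∀ i ≤ r, v i = v' i :=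
  S.uniq L σ r r' v v' hr h h' hn hn' h0 ht he

end Sys

end sys

end Pool.Agent.Helper92.GG
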