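import Pool.Agent.Helper92.GG.Walk

/-! # Residues at a place: basic API -/

set_option autoImplicit false
set_option linter.unusedSectionVars false

namespace Pool.Agent.Helper92.GG

open MvPolynomial
open Pool.Agent.Helper49.Girth (cl mem_cl mem_cl' coe_cl subset_cl mem_cl_of_mem cl_le_cl cl_mono
  root_mem_cl aeval_mem ty ty_zero ty_succ ty_add ty_two ty_add_two ty_not)

universe u

/-- closures are finitary -/
theorem exists_finite_of_mem_cl {K L : Type u} [Field K] [Field L] [Algebra K L] {s : Set L}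
    {a : L} (h : a ∈ cl K s) : ∃ t ⊆ s, t.Finite ∧ a ∈ cl K t := by
  rw [mem_cl_iff_mem_closure] at h
  obtain ⟨t, ht, htf, -, ha⟩ := Matroid.exists_mem_finite_closure_of_mem_closure h
  exact ⟨t, ht, htf, mem_cl_iff_mem_closure.mpr ha⟩

namespace KVal

variable {K L : Type u} [Field K] [Field L] [Algebra K L] (w : KVal K L)

/-- the residue map on the valuation ring -/
noncomputable def res : w.V →+* w.κ := IsLocalRing.residue w.V

theorem red_of_mem {a : L} (h : a ∈ w.V) : w.red a = w.res ⟨a, h⟩ := by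
  exact dif_pos h

theorem red_of_notMem {a : L} (h : a ∉ w.V) : w.red a = 0 := by
  exact dif_neg h

theorem algebraMap_κ (c : K) : algebraMap K w.κ c = w.res (w.incl c) := rfl

theorem red_algebraMap (c : K) : w.red (algebraMap K L c) = algebraMap K w.κ c := by
  rw [w.red_of_mem (w.hK c)]
  rfl

theorem red_add {a b : L} (ha : a ∈ w.V) (hb : b ∈ w.V) : w.red (a + b) = w.red a + w.red b := by
  rw [w.red_of_mem ha, w.red_of_mem hb, w.red_of_mem (w.V.add_mem a b ha hb), ← map_add]
  rfl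

theorem red_mul {a b : L} (ha : a ∈ w.V) (hb : b ∈ w.V) : w.red (a * b) = w.red a * w.red b := by
  rw [w.red_of_mem ha, w.red_of_mem hb, w.red_of_mem (w.V.mul_mem a b ha hb), ← map_mul]
  rfl

theorem neg_mem {a : L} (ha : a ∈ w.V) : -a ∈ w.V := w.V.neg_mem a ha

theorem sub_mem {a b : L} (ha : a ∈ w.V) (hb : b ∈ w.V) : a - b ∈ w.V := by
  rw [sub_eq_add_neg]
  exact w.V.add_mem _ _ ha (w.neg_mem hb)

theorem add_mem {a b : L} (ha : a ∈ w.V) (hb : b ∈ w.V) : a + b ∈ w.V := w.V.add_mem _ _ ha hb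

theorem mul_mem {a b : L} (ha : a ∈ w.V) (hb : b ∈ w.V) : a * b ∈ w.V := w.V.mul_mem _ _ ha hb

theorem zero_mem : (0 : L) ∈ w.V := w.V.zero_mem

theorem one_mem : (1 : L) ∈ w.V := w.V.one_mem

theorem pow_mem {a : L} (ha : a ∈ w.V) (k : ℕ) : a ^ k ∈ w.V := by
  induction k with
  | zero => rw [pow_zero]; exact w.one_mem
  | succ k ih => rw [pow_succ]; exact w.mul_mem ih ha

theorem red_zero : w.red 0 = 0 := by
  rw [w.red_of_mem w.zero_mem]
  exact map_zero w.res

theorem red_one : w.red 1 = 1 := by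
  rw [w.red_of_mem w.one_mem]
  exact map_one w.res

theorem red_neg {a : L} (ha : a ∈ w.V) : w.red (-a) = -w.red a := by
  have := w.red_add ha (w.neg_mem ha)
  rw [add_neg_cancel, w.red_zero] at this
  exact (neg_eq_of_add_eq_zero_right this.symm).symm

theorem red_sub {a b : L} (ha : a ∈ w.V) (hb : b ∈ w.V) : w.red (a - b) = w.red a - w.red b := by
  rw [sub_eq_add_neg, w.red_add ha (w.neg_mem hb), w.red_neg hb, sub_eq_add_neg]

theorem red_pow {a : L} (ha : a ∈ w.V) (k : ℕ) : w.red (a ^ k) = w.red a ^ k := by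
  induction k with
  | zero => rw [pow_zero, pow_zero, w.red_one]
  | succ k ih => rw [pow_succ, pow_succ, w.red_mul (w.pow_mem ha k) ha, ih]

theorem red_surj (b : w.κ) : ∃ a ∈ w.V, w.red a = b := by
  obtain ⟨a, ha⟩ := IsLocalRing.residue_surjective (R := w.V) b
  exact ⟨a, a.2, by rw [w.red_of_mem a.2]; exact ha⟩

theorem mem_iff {a : L} : a ∈ w.V ↔ w.V.valuation a ≤ 1 := (w.V.valuation_le_one_iff a).symm

theorem red_eq_zero_iff {a : L} (ha : a ∈ w.V) : w.red a = 0 ↔ w.V.valuation a < 1 := by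
  rw [w.red_of_mem ha]
  have h1 : w.res ⟨a, ha⟩ = 0 ↔ (⟨a, ha⟩ : w.V) ∈ IsLocalRing.maximalIdeal w.V :=
    IsLocalRing.residue_eq_zero_iff _
  rw [h1, w.V.valuation_lt_one_iff]

theorem mem_of_red_ne_zero {a : L} (h : w.red a ≠ 0) : a ∈ w.V := by
  by_contra hn
  exact h (w.red_of_notMem hn)

theorem red_ne_zero_iff {a : L} : w.red a ≠ 0 ↔ w.V.valuation a = 1 := by
  constructor
  · intro h
    have ha := w.mem_of_red_ne_zero h
    have h1 := w.mem_iff.mp ha
    rcases h1.lt_or_eq with h2 | h2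
    · exact absurd ((w.red_eq_zero_iff ha).mpr h2) h
    · exact h2
  · intro h h0
    have ha : a ∈ w.V := w.mem_iff.mpr h.le
    have := (w.red_eq_zero_iff ha).mp h0
    rw [h] at this
    exact lt_irrefl _ this

theorem inv_mem {a : L} (h : w.red a ≠ 0) : a⁻¹ ∈ w.V := by
  have h1 := w.red_ne_zero_iff.mp h
  rw [w.mem_iff, map_inv₀, h1, inv_one]

theorem red_inv {a : L} (h : w.red a ≠ 0) : w.red a⁻¹ = (w.red a)⁻¹ := by
  have ha := w.mem_of_red_ne_zero h
  have ha0 : a ≠ 0 := by
    rintro rfl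
    exact h w.red_zero
  have h1 := w.red_mul ha (w.inv_mem h)
  rw [mul_inv_cancel₀ ha0, w.red_one] at h1
  exact (inv_eq_of_mul_eq_one_right h1.symm).symm

/-- for every `a`, `a` or `a⁻¹` lies in `V` -/
theorem mem_or_inv_mem (a : L) : a ∈ w.V ∨ a⁻¹ ∈ w.V := w.V.mem_or_inv_mem a

theorem inv_red_eq_zero {a : L} (h : a ∉ w.V) : a⁻¹ ∈ w.V ∧ w.red a⁻¹ = 0 := by
  have h1 : a⁻¹ ∈ w.V := (w.mem_or_inv_mem a).resolve_left h
  refine ⟨h1, ?_⟩
  by_contra hne
  have := w.inv_mem hne
  rw [inv_inv] at this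
  exact h this

theorem aeval_mem' {ι : Type*} {x : ι → L} (hx : ∀ i, x i ∈ w.V) (f : MvPolynomial ι K) :
    aeval x f ∈ w.V := by
  induction f using MvPolynomial.induction_on with
  | C a => rw [aeval_C]; exact w.hK a
  | add p q hp hq => rw [map_add]; exact w.add_mem hp hq
  | mul_X p i hp => rw [map_mul, aeval_X]; exact w.mul_mem hp (hx i)

theorem red_aeval {ι : Type*} {x : ι → L} (hx : ∀ i, x i ∈ w.V) (f : MvPolynomial ι K) :
    w.red (aeval x f) = aeval (fun i => w.red (x i)) f := by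
  induction f using MvPolynomial.induction_on with
  | C a => rw [aeval_C, aeval_C, w.red_algebraMap]
  | add p q hp hq =>
    rw [map_add, map_add, w.red_add (w.aeval_mem' hx p) (w.aeval_mem' hx q), hp, hq]
  | mul_X p i hp =>
    rw [map_mul, map_mul, aeval_X, aeval_X, w.red_mul (w.aeval_mem' hx p) (hx i), hp]

/-- polynomials with coefficients in a subring contained in `V` -/
theorem eval₂_mem {ι : Type*} {R : Type*} [CommRing R] {φ : R →+* L} (hφ : ∀ c, φ c ∈ w.V)
    {x : ι → L} (hx : ∀ i, x i ∈ w.V) (f : MvPolynomial ι R) : eval₂ φ x f ∈ w.V := by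
  induction f using MvPolynomial.induction_on with
  | C a => rw [eval₂_C]; exact hφ a
  | add p q hp hq => rw [eval₂_add]; exact w.add_mem hp hq
  | mul_X p i hp => rw [eval₂_mul, eval₂_X]; exact w.mul_mem hp (hx i)

theorem red_eval₂ {ι : Type*} {R : Type*} [CommRing R] {φ : R →+* L} (hφ : ∀ c, φ c ∈ w.V)
    {ψ : R →+* w.κ} (hψ : ∀ c, ψ c = w.red (φ c))
    {x : ι → L} (hx : ∀ i, x i ∈ w.V) (f : MvPolynomial ι R) :
    w.red (eval₂ φ x f) = eval₂ ψ (fun i => w.red (x i)) f := by
  induction f using MvPolynomial.induction_on with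
  | C a => rw [eval₂_C, eval₂_C, hψ]
  | add p q hp hq =>
    rw [eval₂_add, eval₂_add, w.red_add (w.eval₂_mem hφ hx p) (w.eval₂_mem hφ hx q), hp, hq]
  | mul_X p i hp =>
    rw [eval₂_mul, eval₂_mul, eval₂_X, eval₂_X, w.red_mul (w.eval₂_mem hφ hx p) (hx i), hp]

theorem poly_eval₂_mem {R : Type*} [CommRing R] {φ : R →+* L} (hφ : ∀ c, φ c ∈ w.V)
    {x : L} (hx : x ∈ w.V) (f : Polynomial R) : f.eval₂ φ x ∈ w.V := by
  induction f using Polynomial.induction_on' with
  | add p q hp hq => rw [Polynomial.eval₂_add]; exact w.add_mem hp hq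
  | monomial k a => rw [Polynomial.eval₂_monomial]; exact w.mul_mem (hφ a) (w.pow_mem hx k)

theorem red_poly_eval₂ {R : Type*} [CommRing R] {φ : R →+* L} (hφ : ∀ c, φ c ∈ w.V)
    {ψ : R →+* w.κ} (hψ : ∀ c, ψ c = w.red (φ c)) {x : L} (hx : x ∈ w.V) (f : Polynomial R) :
    w.red (f.eval₂ φ x) = f.eval₂ ψ (w.red x) := by
  induction f using Polynomial.induction_on' with
  | add p q hp hq =>
    rw [Polynomial.eval₂_add, Polynomial.eval₂_add,
      w.red_add (w.poly_eval₂_mem hφ hx p) (w.poly_eval₂_mem hφ hx q), hp, hq]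
  | monomial k a =>
    rw [Polynomial.eval₂_monomial, Polynomial.eval₂_monomial, w.red_mul (hφ a) (w.pow_mem hx k),
      w.red_pow hx, hψ]

/-- residues are specializations -/
theorem spec_red {ι : Type} {x : ι → L} (hx : ∀ i, x i ∈ w.V) :
    Spec K x (fun i => w.red (x i)) := by
  intro f hf
  rw [← w.red_aeval hx, hf, w.red_zero]

theorem spec_redv {n : ℕ} {x : Fin n → L} (hx : ∀ i, x i ∈ w.V) : Spec K x (w.redv x) :=
  w.spec_red hx

theorem rk_red_le {ι : Type} [Finite ι] {x : ι → L} (hx : ∀ i, x i ∈ w.V) :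
    rk K (Set.range fun i => w.red (x i)) ≤ rk K (Set.range x) := (w.spec_red hx).rk_le

/-- ranks drop under residues -/
theorem rk_image_red_le {t : Set L} (ht : t.Finite) (hV : ∀ a ∈ t, a ∈ w.V) :
    rk K (w.red '' t) ≤ rk K t := by
  classical
  have : Finite t := ht
  obtain ⟨N, ⟨e⟩⟩ := Finite.exists_equiv_fin t
  have h1 := w.rk_red_le (x := fun i : Fin N => ((e.symm i : t) : L))
    (fun i => hV _ (e.symm i).2)
  have h2 : (Set.range fun i : Fin N => ((e.symm i : t) : L)) = t := by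
    ext a
    constructor
    · rintro ⟨i, rfl⟩
      exact (e.symm i).2
    · intro ha
      exact ⟨e ⟨a, ha⟩, by simp⟩
  have h3 : (Set.range fun i : Fin N => w.red ((e.symm i : t) : L)) = w.red '' t := by
    ext b
    constructor
    · rintro ⟨i, rfl⟩
      exact ⟨_, (e.symm i).2, rfl⟩
    · rintro ⟨a, ha, rfl⟩
      exact ⟨e ⟨a, ha⟩, by simp⟩
  rw [h2, h3] at h1
  exact h1

theorem redv_apply {n : ℕ} (x : Fin n → L) (c : Fin n) : w.redv x c = w.red (x c) := rfl

theorem image_red_range {n : ℕ} (x : Fin n → L) :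
    w.red '' Set.range x = Set.range (w.redv x) := by
  rw [← Set.range_comp]; rfl

theorem image_red_pts {n : ℕ} (v : ℕ → Fin n → L) (I : Set ℕ) :
    w.red '' pts v I = pts (fun i => w.redv (v i)) I := image_pts w.red v I

/-! ### trivially valued sets -/

variable {w} in
theorem Triv.mono {s t : Set L} (h : w.Triv t) (hst : s ⊆ t) : w.Triv s :=
  fun a ha => h a (hst ha)

variable {w} in
theorem Triv.mem {s : Set L} (h : w.Triv s) {a : L} (ha : a ∈ s) : a ∈ w.V := (h a ha).1

variable {w} in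
theorem Triv.red_ne {s : Set L} (h : w.Triv s) {a : L} (ha : a ∈ s) (h0 : a ≠ 0) :
    w.red a ≠ 0 := (h a ha).2 h0

variable {w} in
theorem Triv.red_eq_zero_iff {s : Set L} (h : w.Triv s) {a : L} (ha : a ∈ s) :
    w.red a = 0 ↔ a = 0 := by
  constructor
  · intro h1
    by_contra h0
    exact (h a ha).2 h0 h1
  · rintro rfl
    exact w.red_zero

variable {w} in
theorem Triv.valuation_eq_one {s : Set L} (h : w.Triv s) {a : L} (ha : a ∈ s) (h0 : a ≠ 0) :
    w.V.valuation a = 1 := w.red_ne_zero_iff.mp (h.red_ne ha h0)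

variable {w} in
theorem Triv.red_inj {M : IntermediateField K L} (h : w.Triv M) {a b : L} (ha : a ∈ M)
    (hb : b ∈ M) (hab : w.red a = w.red b) : a = b := by
  have h1 : w.red (a - b) = 0 := by
    rw [w.red_sub (h.mem ha) (h.mem hb), hab, sub_self]
  exact sub_eq_zero.mp ((h.red_eq_zero_iff (M.sub_mem ha hb)).mp h1)

variable {w} in
/-- the residue map on a trivially valued subfield -/
noncomputable def Triv.hom {M : IntermediateField K L} (h : w.Triv M) : M →ₐ[K] w.κ where
  toFun a := w.red a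
  map_one' := w.red_one
  map_mul' a b := w.red_mul (h.mem a.2) (h.mem b.2)
  map_zero' := w.red_zero
  map_add' a b := w.red_add (h.mem a.2) (h.mem b.2)
  commutes' c := w.red_algebraMap c

variable {w} in
theorem Triv.hom_apply {M : IntermediateField K L} (h : w.Triv M) (a : M) :
    h.hom a = w.red a := rfl

variable {w} in
/-- ranks of subsets of a trivially valued subfield -/
theorem Triv.rk_image {M : IntermediateField K L} (h : w.Triv M) {t : Set L}
    (ht : t ⊆ M) : rk K (w.red '' t) = rk K t := by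
  have h1 : t = (fun a : M => (a : L)) '' {a : M | (a : L) ∈ t} := by
    ext a
    constructor
    · intro ha
      exact ⟨⟨a, ht ha⟩, ha, rfl⟩
    · rintro ⟨b, hb, rfl⟩
      exact hb
  have h2 : w.red '' t = h.hom '' {a : M | (a : L) ∈ t} := by
    conv_lhs => rw [h1]
    rw [Set.image_image]
    rfl
  rw [h2, rk_image_of_injective h.hom]
  conv_rhs => rw [h1]
  exact (rk_image_of_injective M.val _).symm

variable {w} in
/-- residues of closures, in a trivially valued subfield -/
theorem Triv.red_mem_cl {M : IntermediateField K L} (h : w.Triv M) {t : Set L}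
    (ht : t ⊆ M) {a : L} (haM : a ∈ M) (ha : a ∈ cl K t) : w.red a ∈ cl K (w.red '' t) := by
  have h1 : t = (fun a : M => (a : L)) '' {a : M | (a : L) ∈ t} := by
    ext a
    constructor
    · intro ha
      exact ⟨⟨a, ht ha⟩, ha, rfl⟩
    · rintro ⟨b, hb, rfl⟩
      exact hb
  have h2 : w.red '' t = h.hom '' {a : M | (a : L) ∈ t} := by
    conv_lhs => rw [h1]
    rw [Set.image_image]
    rfl
  rw [h2]
  obtain ⟨t', ht't, ht'f, ht'a⟩ := exists_finite_of_mem_cl ha
  have h5 : M.val '' {a : M | (a : L) ∈ t'} = t' := by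
    ext b
    constructor
    · rintro ⟨a, ha, rfl⟩
      exact ha
    · intro hb
      exact ⟨⟨b, ht (ht't hb)⟩, hb, rfl⟩
  have h6 : ({a : M | (a : L) ∈ t'} : Set M).Finite := by
    apply Set.Finite.of_finite_image (f := M.val)
    · rw [h5]; exact ht'f
    · exact M.val.injective.injOn
  have h4 : (⟨a, haM⟩ : M) ∈ cl K {a : M | (a : L) ∈ t'} := by
    rw [← map_mem_cl_iff M.val h6, h5]
    exact ht'a
  have h7 := map_mem_cl h.hom h4
  refine cl_mono (Set.image_mono ?_) h7
  intro b hb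
  exact ht't hb

end KVal

section edges

variable {K : Type u} [Field K] [IsAlgClosed K] {n m k : ℕ} (S : Sys K n m k)
  {L : Type u} [Field L] [Algebra K L] (w : KVal K L)

/-- the residue of an edge is an edge if its rank is maximal -/
theorem Sys.edge_red {σ : Bool} {x y : Fin n → L} (h : Edge S.P σ x y)
    (hx : ∀ c, x c ∈ w.V) (hy : ∀ c, y c ∈ w.V)
    (hr : (m + 1) * k ≤ rk K (Set.range (w.redv x) ∪ Set.range (w.redv y))) :
    Edge S.P σ (w.redv x) (w.redv y) := by
  apply h.of_spec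
  · have := w.spec_red (x := Sum.elim x y) (by
      rintro (c | c)
      · exact hx c
      · exact hy c)
    rw [show (fun i => w.red (Sum.elim x y i)) = Sum.elim (w.redv x) (w.redv y) by
      funext i; cases i <;> rfl] at this
    exact this
  · rw [S.rk_edge h]; exact hr

/-- the residue of a vertex is a vertex if its rank is maximal -/
theorem Sys.vtx_red {σ : Bool} {x : Fin n → L} (h : Vtx S.P σ x)
    (hx : ∀ c, x c ∈ w.V) (hr : m * k ≤ rk K (Set.range (w.redv x))) :
    Vtx S.P σ (w.redv x) :=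
  h.of_spec (w.spec_redv hx) (by rw [S.rk_vtx h]; exact hr)

/-- residues of edges in a trivially valued field -/
theorem edge_red_of_triv {P : Ideal (MvPolynomial (Fin n ⊕ Fin n) K)} {w : KVal K L}
    {M : IntermediateField K L} (h : w.Triv M) {σ : Bool}
    {x y : Fin n → L} (hx : ∀ c, x c ∈ M) (hy : ∀ c, y c ∈ M) :
    Edge P σ (w.redv x) (w.redv y) ↔ Edge P σ x y := by
  have h1 := edge_map_iff (P := P) h.hom (σ := σ) (x := fun c => (⟨x c, hx c⟩ : M))
    (y := fun c => (⟨y c, hy c⟩ : M))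
  have h2 := edge_map_iff (P := P) M.val (σ := σ) (x := fun c => (⟨x c, hx c⟩ : M))
    (y := fun c => (⟨y c, hy c⟩ : M))
  exact h1.trans h2.symm

theorem vtx_red_of_triv {P : Ideal (MvPolynomial (Fin n ⊕ Fin n) K)} {w : KVal K L}
    {M : IntermediateField K L} (h : w.Triv M) {σ : Bool}
    {x : Fin n → L} (hx : ∀ c, x c ∈ M) :
    Vtx P σ (w.redv x) ↔ Vtx P σ x := by
  have h1 := vtx_map_iff (P := P) h.hom (σ := σ) (x := fun c => (⟨x c, hx c⟩ : M))
  have h2 := vtx_map_iff (P := P) M.val (σ := σ) (x := fun c => (⟨x c, hx c⟩ : M))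
  exact h1.trans h2.symm

theorem isWalk_red_of_triv {P : Ideal (MvPolynomial (Fin n ⊕ Fin n) K)} {w : KVal K L}
    {M : IntermediateField K L} (h : w.Triv M) {σ : Bool} {r : ℕ}
    {v : ℕ → Fin n → L} (hv : ∀ i ≤ r, ∀ c, v i c ∈ M) :
    IsWalk P σ r (fun i => w.redv (v i)) ↔ IsWalk P σ r v := by
  constructor
  · intro h1 i hi
    exact (edge_red_of_triv h (hv i hi.le) (hv (i + 1) hi)).mp (h1 i hi)
  · intro h1 i hi
    exact (edge_red_of_triv h (hv i hi.le) (hv (i + 1) hi)).mpr (h1 i hi)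

theorem nb_red_of_triv {w : KVal K L} {M : IntermediateField K L} (h : w.Triv M) {r : ℕ}
    {v : ℕ → Fin n → L} (hv : ∀ i ≤ r, ∀ c, v i c ∈ M) :
    NB r (fun i => w.redv (v i)) ↔ NB r v := by
  refine forall₂_congr fun i hi => not_congr ?_
  constructor
  · intro h1
    funext c
    exact h.red_inj (hv i (by omega) c) (hv (i + 2) hi c) (congrFun h1 c)
  · intro h1
    change w.redv (v i) = w.redv (v (i + 2))
    rw [h1]

end edges

end Pool.Agent.Helper92.GG
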