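import Pool.Agent.Helper92.GG.Stmts
import Pool.Agent.Helper92.GG.Red

/-! # Case A -/

set_option autoImplicit false

namespace Pool.Agent.Helper92.GG

open MvPolynomial
open Pool.Agent.Helper49.Girth (cl mem_cl mem_cl' coe_cl subset_cl mem_cl_of_mem cl_le_cl cl_mono
  root_mem_cl aeval_mem ty ty_zero ty_succ ty_add ty_two ty_add_two ty_not)

universe u

theorem st_CASEA (hZ : ST_ZERO.{u}) (hF : ST_FR0.{u}) (hW : ST_LEMW.{u}) : ST_CASEA.{u} := by
  intro K _ _ n m S D L _ _ _ ρ s x u v c a w hM hT hG hrk j hj1 hjm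
  obtain ⟨hTriv, haV, hwalk, hnb, hrank⟩ := hF K n m S L ρ s x u v c a w hM hT hG
  have hm2 : 2 ≤ m := S.two_le
  have hcs : ∀ i ≤ 2 * m - 1, ∀ d, c i d ∈ cl K s := fun i hi d =>
    hT.sub (coord_mem_pts c (Set.mem_Iic.mpr hi) d)
  have hcV : ∀ i ≤ 2 * m - 1, ∀ d, c i d ∈ w.V := fun i hi d => hG.triv.mem (hcs i hi d)
  by_contra hne
  have hred : w.red (gfun D ρ c a j) = 0 := by
    by_contra h
    exact hne (w.red_ne_zero_iff.mp h)
  obtain ⟨b, hb, hbnb, hb0, hbe⟩ :=
    hZ K n m S D L ρ s x u v c a w hM hT hG j hj1 hjm hred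
  -- the residues of the walk `c`
  have hcw : IsWalk S.P ρ (2 * m - 1) (fun i => w.redv (c i)) :=
    (isWalk_red_of_triv hG.triv hcs).mpr hT.walk
  have hxc : w.redv x = w.redv (c (m - 1)) := by rw [hT.cen]
  have hh : IsWalk S.P (ty ρ (m - 1)) (j - 1) (fun i => w.redv (c (m - 1 - i))) := by
    exact ((hcw.mono (show m - 1 ≤ 2 * m - 1 by omega)).reverse).mono (by omega)
  have hl : IsWalk S.P (ty ρ (m - 1)) (m - j) (fun i => w.redv (a i)) := hwalk.mono (by omega)
  have hne0 : w.redv (c (m - 1 - 0)) ≠ w.redv (a 0) := by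
    rw [Nat.sub_zero, ← hxc, hT.a0]
    exact fun h => hG.ne h.symm
  refine hW K n m 1 S.toSys w.κ (ty ρ (m - 1)) (j - 1) (m - j)
    (fun i => w.redv (c (m - 1 - i))) (fun i => w.redv (a i)) (by omega) hh hl hne0 ?_ ?_
  · have h1 := hrank j hj1 hjm
    have h2 : w.red '' (pts c (Set.Icc (m - j) (m - 1)) ∪ pts a (Set.Iic (m - j))) =
        pts (fun i => w.redv (c (m - 1 - i))) (Set.Iic (j - 1)) ∪
          pts (fun i => w.redv (a i)) (Set.Iic (m - j)) := by
      rw [Set.image_union, w.image_red_pts, w.image_red_pts]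
      congr 1
      ext z
      rw [mem_pts, mem_pts]
      constructor
      · rintro ⟨i, hi, d, rfl⟩
        obtain ⟨hi1, hi2⟩ := Set.mem_Icc.mp hi
        exact ⟨m - 1 - i, Set.mem_Iic.mpr (by omega), d, by
          rw [show m - 1 - (m - 1 - i) = i by omega]⟩
      · rintro ⟨i, hi, d, rfl⟩
        have hi' : i ≤ j - 1 := hi
        exact ⟨m - 1 - i, Set.mem_Icc.mpr ⟨by omega, by omega⟩, d, rfl⟩
    rw [h2] at h1
    have h3 : Set.range (w.redv (c (m - 1 - 0))) ∪ Set.range (w.redv (a 0)) =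
        Set.range (w.redv x) ∪ Set.range (w.redv v) := by
      rw [Nat.sub_zero, ← hxc, hT.a0]
    rw [h3]
    omega
  · have hty : ty (ty ρ (m - 1)) (j - 1) = ty ρ (m - j) := by
      rw [ty_ty]
      exact ty_congr (by omega)
    have hlen : j - 1 + (m - j) = m - 1 := by omega
    refine ⟨b, ?_, ?_, ?_, ?_⟩
    · rw [hty, hlen]; exact hb
    · rw [hlen]; exact hbnb
    · rw [hb0, show m - 1 - (j - 1) = m - j by omega]
    · rw [hlen]; exact hbe

end Pool.Agent.Helper92.GG
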