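import Pool.Agent.Helper92.GG.Stmts
import Pool.Agent.Helper92.GG.Red
import Pool.Agent.Helper56.GG.FR0

/-! # Case A, residues of elements algebraic over `x, v` -/

set_option autoImplicit false

namespace Pool.Agent.Helper92.GG

open MvPolynomial
open Pool.Agent.Helper49.Girth (cl mem_cl mem_cl' coe_cl subset_cl mem_cl_of_mem cl_le_cl cl_mono
  root_mem_cl aeval_mem ty ty_zero ty_succ ty_add ty_two ty_add_two ty_not)

universe u

theorem CASEA2_rk {K : Type u} [Field K] [IsAlgClosed K] {n m : ℕ} (S : SysT K n m)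
    {L : Type u} [Field L] [Algebra K L] {σ : Bool} {s : Set L} {x u v : Fin n → L}
    (hE : ST_ENDS.{u}) (hM : Mov S σ s x u v) :
    rk K (Set.range x ∪ Set.range v) = m + 2 := by
  have hx : Set.range x ⊆ cl K s := by
    rintro _ ⟨c, rfl⟩
    exact hM.xs c
  have hxv : x ≠ v := by
    intro h
    apply hM.vt
    rw [← h]
    exact cl_mono Set.subset_union_left (hM.xs _)
  have hw : IsWalk S.P σ 2 (wcons x (wcons u (fun _ => v))) := by
    intro i hi
    interval_cases i
    · exact hM.xu
    · exact hM.uv
  have hnb : NB 2 (wcons x (wcons u (fun _ => v))) := by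
    intro i hi
    obtain rfl : i = 0 := by omega
    exact hxv
  have hu : Set.range u ⊆ cl K (Set.range x ∪ Set.range v) := by
    rintro _ ⟨c, rfl⟩
    exact hE K n m 1 S.toSys L σ 2 _ S.two_le hw hnb 1 (by omega) c
  have hxu : rk K (Set.range x ∪ Set.range u) = m + 1 := by
    have := S.rk_edge hM.xu
    rw [this]
    ring
  have h1 : v (S.t σ) ∉ cl K (Set.range x ∪ Set.range u) := by
    intro h
    apply hM.vt
    refine (cl_le_cl ?_ : cl K (Set.range x ∪ Set.range u) ≤ cl K (s ∪ Set.range u)) h
    rintro a (ha | ha)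
    · exact cl_mono Set.subset_union_left (hx ha)
    · exact mem_cl_of_mem (Or.inr ha)
  have hfx := Set.finite_range x
  have hfu := Set.finite_range u
  have hfv := Set.finite_range v
  have h2 := rk_insert_of_notMem (hfx.union hfu) h1
  have h3 : rk K (insert (v (S.t σ)) (Set.range x ∪ Set.range u)) ≤
      rk K (Set.range x ∪ Set.range v ∪ Set.range u) := by
    apply rk_mono ((hfx.union hfv).union hfu)
    rw [Set.insert_subset_iff]
    refine ⟨Or.inl (Or.inr ⟨_, rfl⟩), ?_⟩
    rintro a (ha | ha)
    · exact Or.inl (Or.inl ha)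
    · exact Or.inr ha
  have h4 : rk K (Set.range x ∪ Set.range v ∪ Set.range u) =
      rk K (Set.range x ∪ Set.range v) := rk_union_of_subset_cl hu
  have h5 := S.rk_step_le hM.uv (A := Set.range x ∪ Set.range u) (hfx.union hfu)
    (fun a ha => mem_cl_of_mem (Or.inr ha))
  have h6 : rk K (Set.range x ∪ Set.range v) ≤
      rk K (Set.range x ∪ Set.range u ∪ Set.range v) := by
    apply rk_mono ((hfx.union hfu).union hfv)
    rintro a (ha | ha)
    · exact Or.inl (Or.inl ha)
    · exact Or.inr ha
  omega

theorem st_CASEA2 (hE : ST_ENDS.{u}) : ST_CASEA2.{u} := by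
  intro K _ _ n m S L _ _ _ σ s x u v w hM hG hrk e he heV d hd hed
  by_contra hdx
  obtain ⟨-, -, hcl, -⟩ := st_PL2 K L w s hG.triv
  have hrkxv := CASEA2_rk S hE hM
  have hfx := Set.finite_range x
  have hfv := Set.finite_range v
  have hfxr := Set.finite_range (w.redv x)
  have hfvr := Set.finite_range (w.redv v)
  have hxs : Set.range x ⊆ cl K s := by
    rintro _ ⟨c, rfl⟩
    exact hM.xs c
  have hvx : Vtx S.P σ x := hM.xu.vtx
  have hrx : rk K (Set.range (w.redv x)) = m := by
    rw [← w.image_red_range, hG.triv.rk_image hxs, S.rk_vtx hvx, mul_one]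
  -- `v̄` is not algebraic over the residues of `s`
  obtain ⟨c₀, hc₀⟩ := FR0_not_mem hG
  -- the residue of `x` lies in the closure of the residues of `s`
  have hxr : Set.range (w.redv x) ⊆ cl K (w.red '' s) := by
    rintro _ ⟨c, rfl⟩
    have h1 : x c ∈ cl K s := hM.xs c
    exact hcl s (subset_cl s) (x c) h1
  have hdr : w.red d ∈ cl K (w.red '' s) := hcl s (subset_cl s) d hd
  -- the rank of `x̄, v̄`
  have hge : m + 1 ≤ rk K (Set.range (w.redv x) ∪ Set.range (w.redv v)) := by
    have h1 : w.redv v c₀ ∉ cl K (Set.range (w.redv x)) := by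
      intro h
      exact hc₀ ((cl_le_cl fun a ha => hxr ha) h)
    have h2 := rk_insert_of_notMem hfxr h1
    have h3 : rk K (insert (w.redv v c₀) (Set.range (w.redv x))) ≤
        rk K (Set.range (w.redv x) ∪ Set.range (w.redv v)) := by
      apply rk_mono (hfxr.union hfvr)
      rw [Set.insert_subset_iff]
      exact ⟨Or.inr ⟨_, rfl⟩, Set.subset_union_left⟩
    omega
  have heq : rk K (Set.range (w.redv x) ∪ Set.range (w.redv v)) = m + 1 := le_antisymm hrk hge
  -- the place is not trivial on `cl (x, v)`
  have hnt : ¬ w.Triv (cl K (Set.range x ∪ Set.range v)) := by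
    intro h
    have h1 := h.rk_image (t := Set.range x ∪ Set.range v) (subset_cl _)
    rw [Set.image_union, w.image_red_range, w.image_red_range] at h1
    omega
  -- hence `ē` is algebraic over `x̄, v̄`
  have hmemV : ∀ a ∈ Set.range x ∪ Set.range v, a ∈ w.V := by
    rintro a (ha | ⟨c, rfl⟩)
    · exact hG.triv.mem (hxs ha)
    · exact hG.mem c
  have h3 := (st_PL3 K L w (Set.range x ∪ Set.range v ∪ {e})
    ((hfx.union hfv).union (Set.finite_singleton e)) (by
      rintro a (ha | ha)
      · exact hmemV a ha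
      · rw [Set.mem_singleton_iff.mp ha]; exact heV)).2 (Set.range x ∪ Set.range v)
      (hfx.union hfv) (by
      rintro a (ha | ha)
      · exact mem_cl_of_mem ha
      · rw [Set.mem_singleton_iff.mp ha]; exact he) hnt
  rw [Set.image_union, Set.image_union, w.image_red_range, w.image_red_range,
    Set.image_singleton, hrkxv] at h3
  have h4 : w.red e ∈ cl K (Set.range (w.redv x) ∪ Set.range (w.redv v)) := by
    apply mem_cl_of_rk_insert_le (hfxr.union hfvr)
    rw [← Set.union_singleton, heq]
    omega
  -- `d̄` is not algebraic over `x̄`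
  have h5 : w.red e ∉ cl K (Set.range (w.redv x)) := by
    rw [hed]
    intro h
    apply hdx
    -- ranks
    have h6 : rk K (insert (w.red d) (Set.range (w.redv x))) = m := by
      rw [← Set.union_singleton, rk_union_of_subset_cl (by
        rw [Set.singleton_subset_iff]; exact h), hrx]
    have h7 : insert (w.red d) (Set.range (w.redv x)) = w.red '' (insert d (Set.range x)) := by
      rw [Set.image_insert_eq, w.image_red_range]
    rw [h7, hG.triv.rk_image (t := insert d (Set.range x)) (by
      rw [Set.insert_subset_iff]; exact ⟨hd, hxs⟩)] at h6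
    apply mem_cl_of_rk_insert_le hfx
    rw [h6, S.rk_vtx hvx, mul_one]
  -- exchange
  have h6 : rk K (insert (w.red e) (Set.range (w.redv x))) = m + 1 := by
    rw [rk_insert_of_notMem hfxr h5, hrx]
  have h7 : Set.range (w.redv x) ∪ Set.range (w.redv v) ∪ {w.red e} ⊆
      cl K (insert (w.red e) (Set.range (w.redv x))) := by
    apply subset_cl_of_rk_le ((hfxr.union hfvr).union (Set.finite_singleton _))
    · rw [Set.insert_subset_iff]
      exact ⟨Or.inr rfl, fun a ha => Or.inl (Or.inl ha)⟩
    · rw [h6]
      omega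
  apply hc₀
  have h8 : w.redv v c₀ ∈ cl K (insert (w.red e) (Set.range (w.redv x))) :=
    h7 (Or.inl (Or.inr ⟨c₀, rfl⟩))
  refine (cl_le_cl ?_ : cl K (insert (w.red e) (Set.range (w.redv x))) ≤
    cl K (w.red '' s)) h8
  rintro a (rfl | ha)
  · rw [hed]; exact hdr
  · exact hxr ha

end Pool.Agent.Helper92.GG
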