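import Pool.Agent.Helper92.GG.Stmts
import Pool.Agent.Helper92.GG.Walk
import Pool.Agent.Helper49.FH.Comb

/-! # The one-dimensional theorem -/

set_option autoImplicit false

namespace Pool.Agent.Helper92.GG

open Pool.Agent.Helper49.Girth (ty ty_zero ty_succ ty_add ty_two ty_add_two ty_not)

universe u

theorem st_FIN1 (hSEP : ST_SEP.{u}) (hR : ST_RPOLY.{u}) (hO : ST_ORD.{u}) (hREL : ST_REL.{u}) :
    ST_FIN1.{u} := by
  intro K _ _ n m S₀
  obtain ⟨S, -⟩ := hSEP K n m S₀
  obtain ⟨D⟩ := hR K n m S
  obtain ⟨O⟩ := hO K n m S D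
  have hm : 2 ≤ m := S.two_le
  have b0 := O.B_zero true
  have b1 := O.B_pos true 1 le_rfl (by omega)
  have b2 := O.B_pos true 2 (by omega) hm
  refine Pool.Agent.Helper49.FH.comb2 m hm
    (fun σ => cond σ (O.B true 0 + O.B true 2) (O.B true 1 + O.B true 3))
    (fun σ => cond σ (O.B true 1) (O.B true 2)) ?_ ?_ true (O.B true) b0
    (O.B_end true) ⟨1, by omega, by omega⟩ ?_
  · intro σ
    cases σ <;> simp only [cond_true, cond_false] <;> omega
  · intro σ
    cases σ <;> simp only [cond_true, cond_false] <;> omega
  · intro j h1 h2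
    have key : ∀ j' : ℕ, 1 ≤ j' → j' ≤ m → j % 2 = j' % 2 →
        O.B true j' * (O.B true (j - 1) + O.B true (j + 1)) =
          O.B true j * (O.B true (j' - 1) + O.B true (j' + 1)) := by
      intro j' h3 h4 h5
      exact hREL K n m S D O true j j' h1 h2 h3 h4 (ty_congr h5)
    rcases Nat.even_or_odd j with ⟨i, hi⟩ | ⟨i, hi⟩
    · have h3 : ty true (j - 1) = false := by
        have : ty true (j - 1) = ty true 1 := ty_congr (by omega)
        rw [this]; rfl
      rw [h3]
      have := key 2 (by omega) hm (by omega)
      simp only [cond_false]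
      rw [this]
      ring
    · have h3 : ty true (j - 1) = true := by
        have : ty true (j - 1) = ty true 0 := ty_congr (by omega)
        rw [this]; rfl
      rw [h3]
      have := key 1 (by omega) (by omega) (by omega)
      simp only [cond_true]
      rw [this]
      ring

end Pool.Agent.Helper92.GG
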