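import Pool.Agent.Helper92.GG.Stmts
import Pool.Agent.Helper92.GG.Walk
import Pool.Agent.Helper36.GG.FREE
import Pool.Agent.Helper81.GG.LD
import Pool.Agent.Helper95.GG.DIM

/-! # Krull's height theorem and its converse, in terms of generic points -/

set_option autoImplicit false

namespace Pool.Agent.Helper92.GG

open MvPolynomial
open Pool.Agent.Helper49.Girth (cl mem_cl mem_cl' coe_cl subset_cl mem_cl_of_mem cl_le_cl cl_mono
  root_mem_cl aeval_mem)

universe u

section gp

variable {k : Type u} [Field k] {n : ℕ}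

/-- the residue field of a prime -/
abbrev KR_L (P : Ideal (MvPolynomial (Fin n) k)) : Type u :=
  FractionRing (MvPolynomial (Fin n) k ⧸ P)

/-- the generic point of a prime -/
noncomputable def KR_gp (P : Ideal (MvPolynomial (Fin n) k)) : Fin n → KR_L P :=
  fun i => algebraMap (MvPolynomial (Fin n) k ⧸ P) (KR_L P) (Ideal.Quotient.mk P (X i))

theorem KR_gp_aeval (P : Ideal (MvPolynomial (Fin n) k)) (f : MvPolynomial (Fin n) k) :
    aeval (KR_gp P) f = algebraMap (MvPolynomial (Fin n) k ⧸ P) (KR_L P)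
      (Ideal.Quotient.mk P f) := by
  let ψ : MvPolynomial (Fin n) k →ₐ[k] KR_L P :=
    (IsScalarTower.toAlgHom k (MvPolynomial (Fin n) k ⧸ P) (KR_L P)).comp
      (Ideal.Quotient.mkₐ k P)
  have h1 : aeval (KR_gp P) = ψ := by
    apply MvPolynomial.algHom_ext
    intro s
    rw [aeval_X]
    rfl
  rw [h1]
  rfl

theorem KR_gp_ker (P : Ideal (MvPolynomial (Fin n) k)) [P.IsPrime] (f : MvPolynomial (Fin n) k) :
    aeval (KR_gp P) f = 0 ↔ f ∈ P := by
  rw [KR_gp_aeval, map_eq_zero_iff _ (IsFractionRing.injective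
    (MvPolynomial (Fin n) k ⧸ P) (KR_L P)), Ideal.Quotient.eq_zero_iff_mem]

/-- the rank of the generic point -/
noncomputable def KR_rk (P : Ideal (MvPolynomial (Fin n) k)) [P.IsPrime] : ℕ :=
  rk k (Set.range (KR_gp P))

theorem KR_rk_lt {P Q : Ideal (MvPolynomial (Fin n) k)} [P.IsPrime] [Q.IsPrime] (h : P < Q) :
    KR_rk Q < KR_rk P := by
  by_contra hcon
  rw [not_lt] at hcon
  have hs : Spec k (KR_gp P) (KR_gp Q) := by
    intro f hf
    rw [KR_gp_ker] at hf ⊢
    exact h.le hf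
  have hc := hs.conj_of_rk_le hcon
  apply h.ne
  ext f
  rw [← KR_gp_ker P, ← KR_gp_ker Q]
  exact hc f

theorem KR_rk_ker {L : Type u} [Field L] [Algebra k L] (x : Fin n → L) :
    ∀ (P : Ideal (MvPolynomial (Fin n) k)) [P.IsPrime], (∀ f, f ∈ P ↔ aeval x f = 0) →
      KR_rk P = rk k (Set.range x) := by
  intro P _ hP
  have hc : Conj k (KR_gp P) x := fun f => by rw [KR_gp_ker, hP]
  exact hc.rk_eq

theorem KR_comap_lt {R : Type u} [CommRing R] {I : Ideal R} {q P : Ideal (R ⧸ I)} (h : q < P) :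
    q.comap (Ideal.Quotient.mk I) < P.comap (Ideal.Quotient.mk I) :=
  lt_of_le_of_ne (Ideal.comap_mono h.le) (fun h' => h.ne
    (Ideal.comap_injective_of_surjective (Ideal.Quotient.mk I) Ideal.Quotient.mk_surjective h'))

/-- a bound for heights in `R ⧸ I` -/
theorem KR_height {I : Ideal (MvPolynomial (Fin n) k)} {N₀ : ℕ}
    (hN : ∀ (P : Ideal (MvPolynomial (Fin n) k)) [P.IsPrime], I ≤ P → KR_rk P ≤ N₀) :
    ∀ (j : ℕ) (P : Ideal (MvPolynomial (Fin n) k ⧸ I)) [P.IsPrime],
      N₀ - KR_rk (P.comap (Ideal.Quotient.mk I)) ≤ j → P.height ≤ (j : ℕ∞) := by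
  intro j
  induction j with
  | zero =>
    intro P _ hj
    have h0 : P.height ≤ ((0 : ℕ) : ℕ∞) := by
      rw [Ideal.height_le_iff]
      intro q hq hqP
      exfalso
      have h1 : q.comap (Ideal.Quotient.mk I) < P.comap (Ideal.Quotient.mk I) :=
        KR_comap_lt hqP
      have h2 := KR_rk_lt h1
      have h3 := hN (q.comap (Ideal.Quotient.mk I)) (by
        intro f hf
        rw [Ideal.mem_comap, Ideal.Quotient.eq_zero_iff_mem.mpr hf]
        exact q.zero_mem)
      omega
    exact h0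
  | succ j ih =>
    intro P _ hj
    rw [Ideal.height_le_iff]
    intro q hq hqP
    have h1 : q.comap (Ideal.Quotient.mk I) < P.comap (Ideal.Quotient.mk I) :=
      KR_comap_lt hqP
    have h2 := KR_rk_lt h1
    have h3 := ih q (by omega)
    exact lt_of_le_of_lt h3 (by exact_mod_cast Nat.lt_succ_self j)

/-- the converse of Krull's theorem relative to an ideal `I` -/
theorem KR_converse {I p : Ideal (MvPolynomial (Fin n) k)} [hp : p.IsPrime] (hI : I ≤ p)
    {N₀ : ℕ}
    (hN : ∀ (P : Ideal (MvPolynomial (Fin n) k)) [P.IsPrime], I ≤ P → KR_rk P ≤ N₀) :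
    ∃ s : Finset (MvPolynomial (Fin n) k), s.card ≤ N₀ - KR_rk p ∧ (∀ f ∈ s, f ∈ p) ∧
      ∀ P : Ideal (MvPolynomial (Fin n) k), P.IsPrime → I ≤ P → (∀ f ∈ s, f ∈ P) → P ≤ p →
        P = p := by
  classical
  let p' : Ideal (MvPolynomial (Fin n) k ⧸ I) := p.map (Ideal.Quotient.mk I)
  have hp' : p'.IsPrime := Ideal.map_isPrime_of_surjective Ideal.Quotient.mk_surjective (by
    rw [Ideal.mk_ker]; exact hI)
  have hcomap : ∀ P : Ideal (MvPolynomial (Fin n) k), I ≤ P →
      (P.map (Ideal.Quotient.mk I)).comap (Ideal.Quotient.mk I) = P := by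
    intro P hP
    rw [Ideal.comap_map_of_surjective _ Ideal.Quotient.mk_surjective]
    have : (⊥ : Ideal (MvPolynomial (Fin n) k ⧸ I)).comap (Ideal.Quotient.mk I) = I := by
      rw [← RingHom.ker_eq_comap_bot, Ideal.mk_ker]
    rw [this]
    exact sup_eq_left.mpr hP
  have hht : p'.height ≤ ((N₀ - KR_rk p : ℕ) : ℕ∞) := by
    apply KR_height hN
    have h1 : (p'.comap (Ideal.Quotient.mk I)) = p := hcomap p hI
    have h2 : KR_rk (p'.comap (Ideal.Quotient.mk I)) = KR_rk p := by
      have key : ∀ (q : Ideal (MvPolynomial (Fin n) k)) [q.IsPrime], q = p →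
          KR_rk q = KR_rk p := by
        intro q _ hq
        subst hq
        rfl
      exact key _ h1
    rw [h2]
  obtain ⟨s', hs'1, hs'2⟩ := Ideal.exists_finset_card_eq_height_of_isNoetherianRing p'
  have hs'3 : s'.card ≤ N₀ - KR_rk p := by
    rw [← hs'2] at hht
    exact_mod_cast hht
  choose out hout using Ideal.Quotient.mk_surjective (I := I)
  refine ⟨s'.image out, (Finset.card_image_le).trans hs'3, ?_, ?_⟩
  · intro f hf
    obtain ⟨g, hg, rfl⟩ := Finset.mem_image.mp hf
    have h1 : g ∈ p' := hs'1.1.2 (Ideal.subset_span hg)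
    have h2 : out g ∈ p'.comap (Ideal.Quotient.mk I) := by
      rw [Ideal.mem_comap, hout]
      exact h1
    rw [hcomap p hI] at h2
    exact h2
  · intro P hP hIP hsP hPp
    have hP' : (P.map (Ideal.Quotient.mk I)).IsPrime :=
      Ideal.map_isPrime_of_surjective Ideal.Quotient.mk_surjective (by
        rw [Ideal.mk_ker]; exact hIP)
    have h1 : Ideal.span (s' : Set (MvPolynomial (Fin n) k ⧸ I)) ≤
        P.map (Ideal.Quotient.mk I) := by
      rw [Ideal.span_le]
      intro g hg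
      rw [← hout g]
      exact Ideal.mem_map_of_mem _ (hsP _ (Finset.mem_image_of_mem out hg))
    have h2 : P.map (Ideal.Quotient.mk I) ≤ p' := Ideal.map_mono hPp
    have h3 : p' ≤ P.map (Ideal.Quotient.mk I) := hs'1.2 ⟨hP', h1⟩ h2
    apply le_antisymm hPp
    rw [← hcomap p hI, ← hcomap P hIP]
    exact Ideal.comap_mono h3

end gp

section trdeg

variable {k : Type u} [Field k] {n : ℕ}

/-- the transcendence degree of the coordinate ring of a prime is at least the rank of a
generic point -/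
theorem KR_trdeg {L : Type u} [Field L] [Algebra k L] (v : Fin n → L) :
    ((rk k (Set.range v) : ℕ) : Cardinal.{u}) ≤
      Algebra.trdeg k (MvPolynomial (Fin n) k ⧸ RingHom.ker (aeval (R := k) v)) := by
  obtain ⟨J, h1, -, h3⟩ := exists_basis_family (K := k) v
  let ψ : (MvPolynomial (Fin n) k ⧸ RingHom.ker (aeval (R := k) v)) →ₐ[k] L :=
    Ideal.Quotient.liftₐ _ (aeval v) (fun a ha => ha)
  have h4 : AlgebraicIndependent k (fun j : J =>
      (Ideal.Quotient.mk (RingHom.ker (aeval (R := k) v)) (X (j : Fin n)))) := by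
    apply AlgebraicIndependent.of_comp ψ
    have : (ψ ∘ fun j : J => (Ideal.Quotient.mk (RingHom.ker (aeval (R := k) v))
        (X (j : Fin n)))) = fun j : J => v j := by
      funext j
      change aeval v (X (j : Fin n)) = v j
      rw [aeval_X]
    rw [this]
    exact h1
  have h5 := h4.lift_cardinalMk_le_trdeg
  rw [← h3]
  have h6 : Cardinal.mk J = (J.ncard : Cardinal) := by
    rw [← Nat.card_coe_set_eq, Nat.cast_card]
  rw [h6] at h5
  simpa using h5

end trdeg

theorem KR_rk_base {K W L : Type u} [Field K] [Field W] [Field L] [Algebra K W] [Algebra K L]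
    [Algebra W L] [IsScalarTower K W L] {n : ℕ} (z : Fin n → L) :
    rk W (Set.range z) ≤ rk K (Set.range z) := by
  obtain ⟨J, h1, -, h3⟩ := exists_basis_family (K := W) z
  have h2 : AlgebraicIndependent K (fun j : J => z j) :=
    h1.restrictScalars (algebraMap K W).injective
  have h4 := rk_range_of_algebraicIndependent h2
  rw [Nat.card_coe_set_eq] at h4
  rw [← h3, ← h4]
  apply rk_mono (Set.finite_range z)
  rintro _ ⟨j, rfl⟩
  exact ⟨j, rfl⟩

theorem KR_max {K Ω : Type u} [Field K] [Field Ω] [Algebra K Ω] {n : ℕ}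
    (k₂ : IntermediateField K Ω) (x : Fin n → Ω) (hx : ∀ c, x c ∈ k₂) :
    (RingHom.ker (aeval (R := k₂) x)).IsMaximal := by
  have hker : RingHom.ker (aeval (R := k₂) x) =
      RingHom.ker (aeval (R := k₂) (fun c => (⟨x c, hx c⟩ : k₂))) := by
    ext f
    have h1 : aeval x f = algebraMap k₂ Ω (aeval (fun c => (⟨x c, hx c⟩ : k₂)) f) := by
      have := aeval_algebraMap_apply (A := k₂) (B := Ω) (fun c => (⟨x c, hx c⟩ : k₂)) f
      exact this
    rw [RingHom.mem_ker, RingHom.mem_ker, h1, map_eq_zero_iff _ (algebraMap k₂ Ω).injective]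
  rw [hker]
  exact RingHom.ker_isMaximal_of_surjective _ (fun b => ⟨C b, by rw [aeval_C]; rfl⟩)

theorem KR_inc {K Ω : Type u} [Field K] [Field Ω] [Algebra K Ω] {n : ℕ}
    {W k₂ : IntermediateField K Ω} (hW : W ≤ k₂) (z : Fin n → Ω) (f : MvPolynomial (Fin n) W) :
    aeval z (MvPolynomial.map (IntermediateField.inclusion hW : W →+* k₂) f) = aeval z f := by
  rw [aeval_def, eval₂_map, aeval_def]
  rfl

/-- a prime between `a` and `mx` which contains `s`, by Krull's height theorem -/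
theorem KR_prime {R : Type u} [CommRing R] [IsNoetherianRing R] {a mx : Ideal R} [a.IsPrime]
    (hmx : mx.IsMaximal) (hamx : a ≤ mx) (s : Finset R) (hs : ∀ f ∈ s, f ∈ mx) {d : ℕ}
    (hd : s.card < d)
    (hht : ∀ M : Ideal (R ⧸ a), M.IsMaximal → (d : ℕ∞) ≤ M.height) :
    ∃ q : Ideal R, q.IsPrime ∧ a ≤ q ∧ q ≤ mx ∧ q ≠ mx ∧ ∀ f ∈ s, f ∈ q := by
  classical
  have hmxp : mx.IsPrime := hmx.isPrime
  have hcomap : (mx.map (Ideal.Quotient.mk a)).comap (Ideal.Quotient.mk a) = mx := by
    rw [Ideal.comap_map_of_surjective _ Ideal.Quotient.mk_surjective]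
    have : (⊥ : Ideal (R ⧸ a)).comap (Ideal.Quotient.mk a) = a := by
      rw [← RingHom.ker_eq_comap_bot, Ideal.mk_ker]
    rw [this]
    exact sup_eq_left.mpr hamx
  have hMp : (mx.map (Ideal.Quotient.mk a)).IsPrime :=
    Ideal.map_isPrime_of_surjective Ideal.Quotient.mk_surjective (by
      rw [Ideal.mk_ker]; exact hamx)
  have hMmax : (mx.map (Ideal.Quotient.mk a)).IsMaximal := by
    rcases Ideal.map_eq_top_or_isMaximal_of_surjective (Ideal.Quotient.mk a)
      Ideal.Quotient.mk_surjective hmx with h | h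
    · exact absurd h hMp.ne_top
    · exact h
  have hMht := hht _ hMmax
  generalize mx.map (Ideal.Quotient.mk a) = M at hcomap hMp hMmax hMht
  have hs'M : Ideal.span ((s.image (Ideal.Quotient.mk a) : Finset (R ⧸ a)) : Set (R ⧸ a)) ≤ M := by
    rw [Ideal.span_le]
    intro g hg
    obtain ⟨f, hf, rfl⟩ := Finset.mem_image.mp (Finset.mem_coe.mp hg)
    have h1 : f ∈ M.comap (Ideal.Quotient.mk a) := by
      rw [hcomap]
      exact hs f hf
    exact h1
  obtain ⟨H, hH1, hH2⟩ := Ideal.exists_minimalPrimes_le hs'M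
  have hHp : H.IsPrime := hH1.1.1
  have hHht : H.height ≤ ((s.card : ℕ) : ℕ∞) := by
    refine (Ideal.height_le_card_of_mem_minimalPrimes_span_finset hH1).trans ?_
    exact_mod_cast Finset.card_image_le
  have hHM : H ≠ M := by
    rintro rfl
    have h1 := hMht.trans hHht
    have h2 : d ≤ s.card := by exact_mod_cast h1
    omega
  refine ⟨H.comap (Ideal.Quotient.mk a), Ideal.comap_isPrime _ _, ?_, ?_, ?_, ?_⟩
  · intro f hf
    rw [Ideal.mem_comap, Ideal.Quotient.eq_zero_iff_mem.mpr hf]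
    exact H.zero_mem
  · rw [← hcomap]
    exact Ideal.comap_mono hH2
  · intro h
    apply hHM
    rw [← hcomap] at h
    exact Ideal.comap_injective_of_surjective (Ideal.Quotient.mk a)
      Ideal.Quotient.mk_surjective h
  · intro f hf
    exact hH1.1.2 (Ideal.subset_span (Finset.mem_coe.mpr (Finset.mem_image_of_mem _ hf)))

/-- elements of `W[X]` which cut out `x` together with the equations of `x` over `K` -/
theorem KR_eqs {K Ω : Type u} [Field K] [Field Ω] [Algebra K Ω] {n : ℕ}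
    (W : IntermediateField K Ω) (x : Fin n → Ω) :
    ∃ s : Finset (MvPolynomial (Fin n) W),
      s.card ≤ rk K (Set.range x) - rk W (Set.range x) ∧ (∀ f ∈ s, aeval x f = 0) ∧
      ∀ z : Fin n → Ω, Spec K x z → (∀ f ∈ s, aeval z f = 0) → Spec W z x → Conj W z x := by
  have hp : (RingHom.ker (aeval (R := W) x)).IsPrime := RingHom.ker_isPrime _
  obtain ⟨I, hI1, hI2⟩ : ∃ I : Ideal (MvPolynomial (Fin n) W),
      (∀ P : Ideal (MvPolynomial (Fin n) W), (∀ f : MvPolynomial (Fin n) K, aeval x f = 0 →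
        MvPolynomial.map (algebraMap K W) f ∈ P) → I ≤ P) ∧
      ∀ f : MvPolynomial (Fin n) K, aeval x f = 0 →
        MvPolynomial.map (algebraMap K W) f ∈ I := by
    refine ⟨(RingHom.ker (aeval (R := K) x)).map (MvPolynomial.map (algebraMap K W)), ?_, ?_⟩
    · intro P hP
      rw [Ideal.map_le_iff_le_comap]
      intro f hf
      exact hP f hf
    · intro f hf
      exact Ideal.mem_map_of_mem _ hf
  have hIp : I ≤ RingHom.ker (aeval (R := W) x) := by
    apply hI1
    intro f hf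
    rw [RingHom.mem_ker, aeval_map_algebraMap]
    exact hf
  have hN : ∀ (P : Ideal (MvPolynomial (Fin n) W)) [P.IsPrime], I ≤ P →
      KR_rk P ≤ rk K (Set.range x) := by
    intro P _ hP
    have hs : Spec K x (KR_gp P) := by
      intro f hf
      rw [← aeval_map_algebraMap W, KR_gp_ker]
      exact hP (hI2 f hf)
    exact (KR_rk_base (K := K) (W := W) (KR_gp P)).trans hs.rk_le
  obtain ⟨s, hs1, hs2, hs3⟩ := KR_converse hIp hN
  have hrkp : KR_rk (RingHom.ker (aeval (R := W) x)) = rk W (Set.range x) :=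
    KR_rk_ker x _ (fun f => Iff.rfl)
  rw [hrkp] at hs1
  refine ⟨s, hs1, fun f hf => hs2 f hf, ?_⟩
  intro z hz1 hz2 hz3
  have h1 := hs3 (RingHom.ker (aeval (R := W) z)) (RingHom.ker_isPrime _)
    (hI1 _ (by
      intro f hf
      rw [RingHom.mem_ker, aeval_map_algebraMap]
      exact hz1 f hf))
    (fun f hf => hz2 f hf) (fun f hf => hz3 f hf)
  exact conj_iff_ker.mpr h1

/-- the main step, for general intermediate fields -/
theorem KR_core {K Ω : Type u} [Field K] [Field Ω] [Algebra K Ω] {n : ℕ}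
    (W k₂ : IntermediateField K Ω) (hW : W ≤ k₂) [IsAlgClosed k₂] (hDIM : ST_DIM.{u})
    (x v : Fin n → Ω) (hx : ∀ c, x c ∈ k₂) (hxv : Spec K x v) (hvx : Spec k₂ v x)
    (hr : rk K (Set.range x) < rk W (Set.range x) + rk k₂ (Set.range v))
    (hemb : ∀ (L₀ : Type u) [Field L₀] [Algebra k₂ L₀] (z₀ : Fin n → L₀),
      ∃ z : Fin n → Ω, Conj k₂ z₀ z) :
    ∃ z : Fin n → Ω, Spec k₂ v z ∧ Spec k₂ z x ∧ z ≠ x ∧ Conj W z x := by
  classical
  obtain ⟨s, hs1, hs2, hs3⟩ := KR_eqs W x
  obtain ⟨inc, hinc⟩ : ∃ inc : W →+* k₂, ∀ (z : Fin n → Ω) (f : MvPolynomial (Fin n) W),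
      aeval z (MvPolynomial.map inc f) = aeval z f := ⟨_, KR_inc hW⟩
  have ha : (RingHom.ker (aeval (R := k₂) v)).IsPrime := RingHom.ker_isPrime _
  have hcard : (s.image (MvPolynomial.map inc)).card < rk k₂ (Set.range v) := by
    have h1 := (Finset.card_image_le (s := s) (f := MvPolynomial.map inc)).trans hs1
    have h3 : rk W (Set.range x) ≤ rk K (Set.range x) := KR_rk_base x
    omega
  obtain ⟨q, hqp, haq, hqmx, hqne, hsq⟩ := KR_prime (KR_max k₂ x hx)
    (a := RingHom.ker (aeval (R := k₂) v)) (fun f hf => hvx f hf)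
    (s.image (MvPolynomial.map inc)) (by
      intro f hf
      obtain ⟨g, hg, rfl⟩ := Finset.mem_image.mp hf
      rw [RingHom.mem_ker, hinc]
      exact hs2 g hg) hcard (fun M hM => hDIM k₂ _ M _ (KR_trdeg v))
  -- the generic point
  obtain ⟨z, hz⟩ := hemb (KR_L q) (KR_gp q)
  have hzq : ∀ f : MvPolynomial (Fin n) k₂, aeval z f = 0 ↔ f ∈ q := fun f => by
    rw [← hz f, KR_gp_ker]
  have hvz : Spec k₂ v z := fun f hf => (hzq f).mpr (haq hf)
  have hzx : Spec k₂ z x := fun f hf => hqmx ((hzq f).mp hf)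
  refine ⟨z, hvz, hzx, ?_, hs3 z ?_ ?_ ?_⟩
  · rintro rfl
    apply hqne
    ext f
    rw [← hzq f]
    exact Iff.rfl
  · intro f hf
    have h2 := hxv f hf
    have h3 := hvz (MvPolynomial.map (algebraMap K k₂) f) (by
      rw [aeval_map_algebraMap]; exact h2)
    rw [aeval_map_algebraMap] at h3
    exact h3
  · intro f hf
    rw [← hinc, hzq]
    exact hsq _ (Finset.mem_image_of_mem _ hf)
  · intro f hf
    rw [← hinc]
    apply hzx
    rw [hinc]
    exact hf

/-- embeddings into big fields over `cl K s` -/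
theorem KR_emb {K Ω : Type u} [Field K] [Field Ω] [Algebra K Ω] [Big K Ω] {s : Set Ω}
    (hs : s.Finite) (L₀ : Type u) [Field L₀] [Algebra (cl K s) L₀] {n : ℕ} (z₀ : Fin n → L₀) :
    ∃ z : Fin n → Ω, Conj (cl K s) z₀ z := by
  have hcl : IsAlgClosed Ω := Big.alg K
  obtain ⟨J, hJ1, hJ2, hJ3⟩ := exists_basis_family (K := cl K s) z₀
  obtain ⟨T, hT⟩ := FREE_bigκ (K := K) s hs J
  have hTind : AlgebraicIndependent (cl K s) T := by
    apply FREE_indep
    have h1 := rk_union_eq (K := K) hs (Set.finite_range T)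
    rw [hT] at h1
    exact (Nat.add_left_cancel h1).le
  have hc : Conj (cl K s) (fun j : J => z₀ j) T := by
    intro f
    rw [algebraicIndependent_iff] at hJ1 hTind
    constructor
    · intro h
      rw [hJ1 f h, map_zero]
    · intro h
      rw [hTind f h, map_zero]
  obtain ⟨θ, hθ⟩ := st_CONJ (cl K s) L₀ Ω J _ _ hc
  generalize hM : cl (cl K s) (Set.range fun j : J => z₀ j) = M at θ hθ
  have hz : ∀ i, z₀ i ∈ M := fun i => hM ▸ hJ2 i
  refine ⟨fun i => θ ⟨z₀ i, hz i⟩, ?_⟩
  have c1 : Conj (cl K s) (fun i => (⟨z₀ i, hz i⟩ : M)) (fun i => M.val ⟨z₀ i, hz i⟩) :=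
    conj_of_algHom M.val _
  have c2 : Conj (cl K s) (fun i => (⟨z₀ i, hz i⟩ : M)) (fun i => θ ⟨z₀ i, hz i⟩) :=
    conj_of_algHom θ _
  exact c1.symm.trans c2

theorem st_KRULL : ST_KRULL.{u} := by
  intro K Ω _ _ _ _ n sw s₂ hsw hs₂ hsub x v hx hxv hvx hr
  have hcl : IsAlgClosed Ω := Big.alg K
  have hac : IsAlgClosed (cl K s₂) := ld_isAlgClosed s₂
  refine KR_core (cl K sw) (cl K s₂) (cl_mono hsub) st_DIM x v hx hxv hvx ?_
    (fun L₀ _ _ z₀ => KR_emb hs₂ L₀ z₀)
  have h1 := rk_union_eq (K := K) hsw (Set.finite_range x)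
  have h2 := rk_union_eq (K := K) hs₂ (Set.finite_range v)
  omega

end Pool.Agent.Helper92.GG
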