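import Pool.Agent.Helper92.GG.Stmts
import Pool.Agent.Helper92.GG.Red

/-! # The polynomial `R` -/

set_option autoImplicit false

namespace Pool.Agent.Helper92.GG

open MvPolynomial
open Pool.Agent.Helper49.Girth (cl mem_cl mem_cl' coe_cl subset_cl mem_cl_of_mem cl_le_cl cl_mono
  root_mem_cl aeval_mem ty ty_zero ty_succ ty_add ty_two ty_add_two ty_not)

universe u

/-- `cl K ∅ = K` for algebraically closed `K`: conjugation over `cl K ∅` gives conjugation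
over `K`. -/
theorem Conj.restrict {K L L' : Type u} [Field K] [Field L] [Field L'] [Algebra K L]
    {M : IntermediateField K L} [Algebra K L'] [Algebra M L'] [IsScalarTower K M L'] {ι : Type}
    {y : ι → L} {y' : ι → L'} (h : Conj M y y') : Conj K y y' := by
  intro f
  have := h (map (algebraMap K M) f)
  rw [aeval_map_algebraMap, aeval_map_algebraMap] at this
  exact this

/-- generic walks in big fields -/
theorem exists_generic_walk (hS : ST_STEP.{u}) {K : Type u} [Field K] [IsAlgClosed K]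
    {n m k : ℕ} (S : Sys K n m k) {Ω : Type u} [Field Ω] [Algebra K Ω] [Big K Ω] {σ : Bool}
    {x : Fin n → Ω} (hx : Vtx S.P σ x) {A : Set Ω} (hA : A.Finite) (r : ℕ) :
    ∃ v : ℕ → Fin n → Ω, v 0 = x ∧ IsWalk S.P σ r v ∧
      rk K (A ∪ pts v (Set.Iic r)) = rk K (A ∪ Set.range x) + r * k := by
  induction r with
  | zero =>
    refine ⟨fun _ => x, rfl, isWalk_zero σ _, ?_⟩
    rw [pts_Iic_zero]
    omega
  | succ r ih =>
    obtain ⟨v, h0, hw, hr⟩ := ih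
    have hv : Vtx S.P (ty σ r) (v r) := hw.vtx' (by rw [h0]; exact hx) le_rfl
    obtain ⟨y, hy, hyr⟩ := hS K n m k S Ω (ty σ r) (v r) (A ∪ pts v (Set.Iic r))
      (hA.union (pts_Iic_finite v r)) hv
    refine ⟨wsnoc r v y, ?_, hw.snoc hy, ?_⟩
    · rw [wsnoc_of_le _ _ (Nat.zero_le r)]; exact h0
    · rw [pts_wsnoc, ← Set.union_assoc]
      have h1 : A ∪ pts v (Set.Iic r) ∪ Set.range (v r) = A ∪ pts v (Set.Iic r) := by
        apply Set.union_eq_self_of_subset_right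
        intro a ha
        exact Or.inr (range_subset_pts v (Set.mem_Iic.mpr le_rfl) ha)
      rw [h1] at hyr
      rw [hyr, hr]
      ring

theorem st_RPOLY (hT : ST_TYPE.{u}) (hE : ST_ENDS.{u}) (hS : ST_STEP.{u}) (hB : ST_BIG.{u})
    (hG : ST_GNB.{u}) (hF : ST_FREE.{u}) : ST_RPOLY.{u} := by
  intro K _ _ n m S
  have h2m : 2 ≤ m := S.two_le
  -- generic pairs are conjugate
  have hpair : ∀ (L₁ L₂ : Type u) [Field L₁] [Algebra K L₁] [Field L₂] [Algebra K L₂]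
      (σ ρ : Bool) (x₁ q₁ : Fin n → L₁) (x₂ q₂ : Fin n → L₂), Vtx S.P σ x₁ → Vtx S.P ρ q₁ →
      Vtx S.P σ x₂ → Vtx S.P ρ q₂ → rk K (Set.range x₁ ∪ Set.range q₁) = 2 * m →
      rk K (Set.range x₂ ∪ Set.range q₂) = 2 * m →
      Conj K (Sum.elim x₁ q₁) (Sum.elim x₂ q₂) := by
    intro L₁ L₂ _ _ _ _ σ ρ x₁ q₁ x₂ q₂ hx₁ hq₁ hx₂ hq₂ hr₁ hr₂
    obtain ⟨Ω₁, _, _, _, hst₁, hbig₁⟩ := hB K L₁
    obtain ⟨Ω₂, _, _, _, hst₂, hbig₂⟩ := hB K L₂
    have := hbig₁.alg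
    have := hbig₂.alg
    set θ₁ := IsScalarTower.toAlgHom K L₁ Ω₁ with hθ₁
    set θ₂ := IsScalarTower.toAlgHom K L₂ Ω₂ with hθ₂
    have e₁ : pts (fun _ c => θ₁ (x₁ c) : ℕ → Fin n → Ω₁) (Set.Iic 0) ∪
        Set.range (fun c => θ₁ (q₁ c)) = θ₁ '' (Set.range x₁ ∪ Set.range q₁) := by
      rw [pts_Iic_zero, Set.image_union, image_range θ₁ x₁, image_range θ₁ q₁]
    have e₂ : pts (fun _ c => θ₂ (x₂ c) : ℕ → Fin n → Ω₂) (Set.Iic 0) ∪
        Set.range (fun c => θ₂ (q₂ c)) = θ₂ '' (Set.range x₂ ∪ Set.range q₂) := by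
      rw [pts_Iic_zero, Set.image_union, image_range θ₂ x₂, image_range θ₂ q₂]
    obtain ⟨θ, ht1, ht2⟩ := hT K n m S Ω₁ Ω₂ σ ρ 0 (fun _ c => θ₁ (x₁ c)) (fun _ c => θ₂ (x₂ c))
      (fun c => θ₁ (q₁ c)) (fun c => θ₂ (q₂ c)) (isWalk_zero σ _) (isWalk_zero σ _)
      (hx₁.map θ₁) (hx₂.map θ₂) (hq₁.map θ₁) (hq₂.map θ₂)
      (by rw [e₁, rk_image_of_injective, hr₁]; omega)
      (by rw [e₂, rk_image_of_injective, hr₂]; omega)
    generalize hTdef : pts (fun _ c => θ₁ (x₁ c) : ℕ → Fin n → Ω₁) (Set.Iic 0) ∪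
        Set.range (fun c => θ₁ (q₁ c)) = T at θ ht1 ht2
    have m1 : ∀ c, θ₁ (x₁ c) ∈ cl K T := fun c => mem_cl_of_mem
      (hTdef ▸ Or.inl (coord_mem_pts (fun _ c => θ₁ (x₁ c) : ℕ → Fin n → Ω₁) (i := 0) (by simp) c))
    have m2 : ∀ c, θ₁ (q₁ c) ∈ cl K T := fun c => mem_cl_of_mem (hTdef ▸ Or.inr ⟨c, rfl⟩)
    set z : Fin n ⊕ Fin n → cl K T := Sum.elim (fun c => ⟨_, m1 c⟩) (fun c => ⟨_, m2 c⟩) with hz
    have c1 : Conj K (Sum.elim x₁ q₁) (Sum.elim (fun c => θ₁ (x₁ c)) (fun c => θ₁ (q₁ c))) :=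
      conj_elim_map θ₁ x₁ q₁
    have c2 : Conj K z (fun i => (cl K T).val (z i)) := conj_of_algHom (cl K T).val z
    have c3 : Conj K z (fun i => θ (z i)) := conj_of_algHom θ z
    have c4 : Conj K (Sum.elim x₂ q₂) (Sum.elim (fun c => θ₂ (x₂ c)) (fun c => θ₂ (q₂ c))) :=
      conj_elim_map θ₂ x₂ q₂
    have e3 : (fun i => (cl K T).val (z i)) =
        Sum.elim (fun c => θ₁ (x₁ c)) (fun c => θ₁ (q₁ c)) := by
      funext i
      rcases i with c | c <;> rfl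
    have e4 : (fun i => θ (z i)) = Sum.elim (fun c => θ₂ (x₂ c)) (fun c => θ₂ (q₂ c)) := by
      funext i
      rcases i with c | c
      · exact ht1 0 le_rfl c (z (Sum.inl c)) rfl
      · exact ht2 c (z (Sum.inr c)) rfl
    rw [e3] at c2
    rw [e4] at c3
    exact (c1.trans (c2.symm.trans c3)).trans c4.symm
  -- the ends of generic walks are conjugate
  have hends : ∀ (L₁ L₂ : Type u) [Field L₁] [Algebra K L₁] [Field L₂] [Algebra K L₂]
      (σ : Bool) (w₁ : ℕ → Fin n → L₁) (w₂ : ℕ → Fin n → L₂),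
      IsWalk S.P σ (m - 1) w₁ → IsWalk S.P σ (m - 1) w₂ → Vtx S.P σ (w₁ 0) →
      Vtx S.P σ (w₂ 0) → rk K (pts w₁ (Set.Iic (m - 1))) + 1 = 2 * m →
      rk K (pts w₂ (Set.Iic (m - 1))) + 1 = 2 * m →
      Conj K (Sum.elim (w₁ 0) (w₁ (m - 1))) (Sum.elim (w₂ 0) (w₂ (m - 1))) := by
    intro L₁ L₂ _ _ _ _ σ w₁ w₂ hw₁ hw₂ h₁ h₂ hr₁ hr₂
    obtain ⟨Ω₁, _, _, _, hst₁, hbig₁⟩ := hB K L₁
    obtain ⟨Ω₂, _, _, _, hst₂, hbig₂⟩ := hB K L₂
    have := hbig₁.alg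
    have := hbig₂.alg
    set θ₁ := IsScalarTower.toAlgHom K L₁ Ω₁ with hθ₁
    set θ₂ := IsScalarTower.toAlgHom K L₂ Ω₂ with hθ₂
    -- free vertices
    have hfree : ∀ (Ω : Type u) [Field Ω] [Algebra K Ω] [Big K Ω] (v : ℕ → Fin n → Ω),
        Vtx S.P σ (v 0) → rk K (pts v (Set.Iic (m - 1))) + 1 = 2 * m →
        ∃ q : Fin n → Ω, Vtx S.P σ q ∧
          rk K (pts v (Set.Iic (m - 1)) ∪ Set.range q) = m + (m - 1) + m := by
      intro Ω _ _ _ v hv0 hvr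
      obtain ⟨q, hq, hqr⟩ := hF K Ω ∅ (pts v (Set.Iic (m - 1))) Set.finite_empty
        (pts_Iic_finite v _) (Set.empty_subset _) (Fin n) (v 0)
      refine ⟨q, hv0.of_conj hq.restrict, ?_⟩
      rw [rk_empty, Set.empty_union, S.rk_vtx hv0] at hqr
      omega
    have im₁ : pts (fun i c => θ₁ (w₁ i c)) (Set.Iic (m - 1)) =
        θ₁ '' pts w₁ (Set.Iic (m - 1)) := (image_pts θ₁ w₁ _).symm
    have im₂ : pts (fun i c => θ₂ (w₂ i c)) (Set.Iic (m - 1)) =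
        θ₂ '' pts w₂ (Set.Iic (m - 1)) := (image_pts θ₂ w₂ _).symm
    obtain ⟨q₁, hq₁, hqr₁⟩ := hfree Ω₁ (fun i c => θ₁ (w₁ i c)) (h₁.map θ₁)
      (by rw [im₁, rk_image_of_injective]; exact hr₁)
    obtain ⟨q₂, hq₂, hqr₂⟩ := hfree Ω₂ (fun i c => θ₂ (w₂ i c)) (h₂.map θ₂)
      (by rw [im₂, rk_image_of_injective]; exact hr₂)
    obtain ⟨θ, ht1, -⟩ := hT K n m S Ω₁ Ω₂ σ σ (m - 1) (fun i c => θ₁ (w₁ i c))
      (fun i c => θ₂ (w₂ i c)) q₁ q₂ (hw₁.map θ₁) (hw₂.map θ₂) (h₁.map θ₁) (h₂.map θ₂)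
      hq₁ hq₂ hqr₁ hqr₂
    generalize hTdef : pts (fun i c => θ₁ (w₁ i c)) (Set.Iic (m - 1)) ∪ Set.range q₁ = T at θ ht1
    have m1 : ∀ i ≤ m - 1, ∀ c, θ₁ (w₁ i c) ∈ cl K T := fun i hi c => mem_cl_of_mem
      (hTdef ▸ Or.inl (coord_mem_pts (fun i c => θ₁ (w₁ i c)) (Set.mem_Iic.mpr hi) c))
    set z : Fin n ⊕ Fin n → cl K T := Sum.elim (fun c => ⟨_, m1 0 (Nat.zero_le _) c⟩)
      (fun c => ⟨_, m1 (m - 1) le_rfl c⟩) with hz
    have c1 := conj_elim_map θ₁ (w₁ 0) (w₁ (m - 1))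
    have c2 : Conj K z (fun i => (cl K T).val (z i)) := conj_of_algHom (cl K T).val z
    have c3 : Conj K z (fun i => θ (z i)) := conj_of_algHom θ z
    have c4 := conj_elim_map θ₂ (w₂ 0) (w₂ (m - 1))
    have e3 : (fun i => (cl K T).val (z i)) =
        Sum.elim (fun c => θ₁ (w₁ 0 c)) (fun c => θ₁ (w₁ (m - 1) c)) := by
      funext i
      rcases i with c | c <;> rfl
    have e4 : (fun i => θ (z i)) =
        Sum.elim (fun c => θ₂ (w₂ 0 c)) (fun c => θ₂ (w₂ (m - 1) c)) := by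
      funext i
      rcases i with c | c
      · exact ht1 0 (Nat.zero_le _) c (z (Sum.inl c)) rfl
      · exact ht1 (m - 1) le_rfl c (z (Sum.inr c)) rfl
    rw [e3] at c2
    rw [e4] at c3
    exact (c1.trans (c2.symm.trans c3)).trans c4.symm
  -- the polynomials
  have hex : ∀ σ : Bool, ∃ f : MvPolynomial (Fin n ⊕ Fin n) K,
      (∀ (L : Type u) [Field L] [Algebra K L] (w : ℕ → Fin n → L),
        IsWalk S.P σ (m - 1) w → Vtx S.P σ (w 0) →
        rk K (pts w (Set.Iic (m - 1))) + 1 = 2 * m →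
        aeval (Sum.elim (w 0) (w (m - 1))) f = 0) ∧
      (∀ (L : Type u) [Field L] [Algebra K L] (x q : Fin n → L),
        Vtx S.P σ x → Vtx S.P (ty σ (m - 1)) q →
        rk K (Set.range x ∪ Set.range q) = 2 * m → aeval (Sum.elim x q) f ≠ 0) := by
    intro σ
    obtain ⟨L₀, _, _, x₀, y₀, hxy₀⟩ := S.exists_edge σ
    obtain ⟨Ω, _, _, _, hst, hbig⟩ := hB K L₀
    set θ := IsScalarTower.toAlgHom K L₀ Ω with hθ
    have hx : Vtx S.P σ (fun c => θ (x₀ c)) := hxy₀.vtx.map θ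
    -- the generic walk
    obtain ⟨v, hv0, hvw, hvr⟩ := exists_generic_walk hS S.toSys hx
      (A := ∅) Set.finite_empty (m - 1)
    rw [Set.empty_union, Set.empty_union, S.rk_vtx hx] at hvr
    have hvv : Vtx S.P σ (v 0) := by rw [hv0]; exact hx
    have hvr' : rk K (pts v (Set.Iic (m - 1))) + 1 = 2 * m := by omega
    have hnb : NB (m - 1) v := hG K n m 1 S.toSys Ω σ (m - 1) v hvw (by omega)
    have hcl : pts v (Set.Iic (m - 1)) ⊆ cl K (Set.range (v 0) ∪ Set.range (v (m - 1))) := by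
      intro a ha
      obtain ⟨i, hi, c, rfl⟩ := mem_pts.mp ha
      exact hE K n m 1 S.toSys Ω σ (m - 1) v (by omega) hvw hnb i hi c
    have hend : rk K (Set.range (v 0) ∪ Set.range (v (m - 1))) + 1 ≤ 2 * m := by
      rw [← hvr']
      have := rk_mono (K := K) (pts_Iic_finite v (m - 1))
        (show Set.range (v 0) ∪ Set.range (v (m - 1)) ⊆ pts v (Set.Iic (m - 1)) from
          Set.union_subset (range_subset_pts v (Set.mem_Iic.mpr (Nat.zero_le _)))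
            (range_subset_pts v (Set.mem_Iic.mpr le_rfl)))
      omega
    -- the generic pair
    have hvend : Vtx S.P (ty σ (m - 1)) (v (m - 1)) := hvw.vtx' hvv le_rfl
    obtain ⟨q, hq, hqr⟩ := hF K Ω ∅ (Set.range (v 0)) Set.finite_empty
      (Set.finite_range _) (Set.empty_subset _) (Fin n) (v (m - 1))
    have hqv : Vtx S.P (ty σ (m - 1)) q := hvend.of_conj hq.restrict
    rw [rk_empty, Set.empty_union, S.rk_vtx hvv, S.rk_vtx hvend] at hqr
    have hqr' : rk K (Set.range (v 0) ∪ Set.range q) = 2 * m := by omega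
    have hne : ¬ Spec K (Sum.elim (v 0) (v (m - 1))) (Sum.elim (v 0) q) := by
      intro hsp
      have := hsp.rk_le
      rw [range_sum_elim, range_sum_elim] at this
      omega
    unfold Spec at hne
    push Not at hne
    obtain ⟨f, hf0, hf1⟩ := hne
    refine ⟨f, ?_, ?_⟩
    · intro L _ _ w hw hw0 hwr
      exact (hends Ω L σ v w hvw hw hvv hw0 hvr' hwr f).mp hf0
    · intro L _ _ x q' hx hq' hr h0
      exact hf1 ((hpair L Ω σ (ty σ (m - 1)) x q' (v 0) q hx hq' hvv hqv hr hqr' f).mp h0)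
  choose R hR1 hR2 using hex
  exact ⟨⟨R, fun L _ _ σ w hw hw0 hwr => hR1 σ L w hw hw0 hwr,
    fun L _ _ σ x q hx hq hr => hR2 σ L x q hx hq hr⟩⟩

end Pool.Agent.Helper92.GG
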