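import Pool.Agent.Helper92.GG.Stmts
import Pool.Agent.Helper92.GG.Red
import Pool.Agent.Helper36.GG.FREE

/-! # Uniqueness of the type of a generic walk with an independent vertex -/

set_option autoImplicit false

namespace Pool.Agent.Helper92.GG

open MvPolynomial
open Pool.Agent.Helper49.Girth (cl mem_cl mem_cl' coe_cl subset_cl mem_cl_of_mem cl_le_cl cl_mono
  root_mem_cl aeval_mem ty ty_zero ty_succ ty_add ty_two ty_add_two ty_not)

universe u

/-- conjugations extend in big fields -/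
theorem TYPE_ext {K L Ω : Type u} [Field K] [Field L] [Field Ω] [Algebra K L] [Algebra K Ω]
    [Big K Ω] {ι κ : Type} [Finite ι] [Finite κ] {a : ι → L} {a' : ι → Ω} (h : Conj K a a')
    (y : κ → L) : ∃ y' : κ → Ω, Conj K (Sum.elim a y) (Sum.elim a' y') := by
  have hcl : IsAlgClosed Ω := Big.alg K
  obtain ⟨θ₀, hθ₀⟩ := st_CONJ K L Ω ι a a' h
  obtain ⟨J, hJ1, hJ2, hJ3⟩ := exists_basis_family (K := cl K (Set.range a)) y
  obtain ⟨T, hT⟩ := FREE_bigκ (K := K) (Set.range a') (Set.finite_range a') J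
  have hTind : AlgebraicIndependent (cl K (Set.range a')) T := by
    apply FREE_indep
    have h1 := rk_union_eq (K := K) (Set.finite_range a') (Set.finite_range T)
    rw [hT] at h1
    exact (Nat.add_left_cancel h1).le
  -- the values of `θ₀`
  have hval : ∀ b : cl K (Set.range a), θ₀ b ∈ cl K (Set.range a') := by
    intro b
    have h1 := map_mem_cl_val (cl K (Set.range a)) θ₀
      (s := Set.range fun i => (⟨a i, mem_cl_of_mem ⟨i, rfl⟩⟩ : cl K (Set.range a)))
      (Set.finite_range _) (a := b) (by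
        have h2 : (Subtype.val '' Set.range fun i =>
            (⟨a i, mem_cl_of_mem ⟨i, rfl⟩⟩ : cl K (Set.range a))) = Set.range a := by
          rw [← Set.range_comp]
          rfl
        rw [h2]
        exact b.2)
    have h3 : (θ₀ '' Set.range fun i =>
        (⟨a i, mem_cl_of_mem ⟨i, rfl⟩⟩ : cl K (Set.range a))) = Set.range a' := by
      rw [← Set.range_comp]
      congr 1
      funext i
      exact hθ₀ i _ rfl
    rw [h3] at h1
    exact h1
  let θ₁ : cl K (Set.range a) →+* cl K (Set.range a') :=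
    (θ₀ : cl K (Set.range a) →+* Ω).codRestrict (cl K (Set.range a')) hval
  have hθ₁ : ((algebraMap (cl K (Set.range a')) Ω).comp θ₁) =
      (θ₀ : cl K (Set.range a) →+* Ω) := RingHom.ext fun b => rfl
  obtain ⟨θ, hθ1, hθ2⟩ := st_CONJR K L Ω (Set.range a) θ₀ J (fun j : J => y j) T (by
    intro f
    constructor
    · intro h1
      have h2 : f = 0 := (algebraicIndependent_iff.mp hJ1) f h1
      rw [h2, eval₂_zero]
    · intro h1
      have h2 : aeval T (map θ₁ f) = 0 := by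
        rw [aeval_def, eval₂_map, hθ₁]
        exact h1
      have h3 : map θ₁ f = 0 := (algebraicIndependent_iff.mp hTind) _ h2
      have h4 : f = 0 := map_injective θ₁ θ₁.injective (by rw [h3, map_zero])
      rw [h4, map_zero])
  generalize hM : cl K (Set.range a ∪ Set.range fun j : J => y j) = M at θ hθ1 hθ2
  have ha : ∀ i, a i ∈ M := fun i => hM ▸ mem_cl_of_mem (Or.inl ⟨i, rfl⟩)
  have hy : ∀ i, y i ∈ M := fun i => hM ▸ cl_cl_mem.mp (hJ2 i)
  let z : ι ⊕ κ → M := Sum.elim (fun i => ⟨a i, ha i⟩) (fun i => ⟨y i, hy i⟩)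
  refine ⟨fun i => θ ⟨y i, hy i⟩, ?_⟩
  have c1 : Conj K z (fun i => M.val (z i)) := conj_of_algHom M.val z
  have c2 : Conj K z (fun i => θ (z i)) := conj_of_algHom θ z
  have e1 : (fun i => M.val (z i)) = Sum.elim a y := by
    funext i
    rcases i with i | i <;> rfl
  have e2 : (fun i => θ (z i)) = Sum.elim a' (fun i => θ ⟨y i, hy i⟩) := by
    funext i
    rcases i with i | i
    · have h1 := hθ1 ⟨a i, mem_cl_of_mem ⟨i, rfl⟩⟩ ⟨a i, ha i⟩ rfl
      have h2 := hθ₀ i ⟨a i, mem_cl_of_mem ⟨i, rfl⟩⟩ rfl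
      exact h1.trans h2
    · rfl
  rw [e1] at c1
  rw [e2] at c2
  exact c1.symm.trans c2

/-- from specializations over `cl K s` to specializations over `K` -/
theorem TYPE_spec_sum {K L : Type u} [Field K] [Field L] [Algebra K L] {s : Set L} {κ ι : Type}
    (a : κ → L) (ha : ∀ j, a j ∈ cl K s) {y y' : ι → L} (h : Spec (cl K s) y y') :
    Spec K (Sum.elim a y) (Sum.elim a y') := by
  intro f hf
  let g : MvPolynomial ι (cl K s) :=
    aeval (Sum.elim (fun j => C (⟨a j, ha j⟩ : cl K s)) X) f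
  have hg : ∀ z : ι → L, aeval z g = aeval (Sum.elim a z) f := by
    intro z
    have h1 : ((aeval z : MvPolynomial ι (cl K s) →ₐ[cl K s] L).restrictScalars K).comp
        (aeval (Sum.elim (fun j => C (⟨a j, ha j⟩ : cl K s)) X)) =
        (aeval (Sum.elim a z) : MvPolynomial (κ ⊕ ι) K →ₐ[K] L) := by
      apply MvPolynomial.algHom_ext
      intro i
      rcases i with i | i
      · rw [AlgHom.comp_apply, aeval_X, aeval_X, Sum.elim_inl, Sum.elim_inl]
        exact aeval_C z (⟨a i, ha i⟩ : cl K s)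
      · rw [AlgHom.comp_apply, aeval_X, aeval_X, Sum.elim_inr, Sum.elim_inr]
        exact aeval_X z i
    exact DFunLike.congr_fun h1 f
  rw [← hg]
  apply h
  rw [hg]
  exact hf

/-- over an algebraically closed field `cl K ∅ = K` -/
theorem TYPE_spec_empty {K L : Type u} [Field K] [IsAlgClosed K] [Field L] [Algebra K L]
    {ι : Type} {y y' : ι → L} (h : Spec K y y') : Spec (cl K (∅ : Set L)) y y' := by
  have hsurj : Function.Surjective (algebraMap K (cl K (∅ : Set L))) := by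
    have halg : Algebra.IsAlgebraic K (cl K (∅ : Set L)) := by
      constructor
      intro b
      have h1 : IsAlgebraic (IntermediateField.adjoin K (∅ : Set L)) (b : L) := mem_cl.mp b.2
      rw [IntermediateField.adjoin_empty] at h1
      have h2 : IsAlgebraic K (b : L) := by
        have h3 : Algebra.IsAlgebraic K (⊥ : IntermediateField K L) := by
          constructor
          intro c
          obtain ⟨d, hd⟩ := IntermediateField.mem_bot.mp c.2
          have : c = algebraMap K _ d := Subtype.ext hd.symm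
          rw [this]
          exact isAlgebraic_algebraMap d
        exact h1.restrictScalars K
      exact (isAlgebraic_algebraMap_iff (Subtype.val_injective)).mp h2
    have hint : Algebra.IsIntegral K (cl K (∅ : Set L)) := halg.isIntegral
    exact IsAlgClosed.algebraMap_bijective_of_isIntegral.2
  intro f hf
  obtain ⟨g, rfl⟩ := map_surjective _ hsurj f
  rw [aeval_map_algebraMap] at hf ⊢
  exact h g hf

/-- all coordinates of a walk and a vertex -/
def TYPE_cfg {n : ℕ} {L : Type u} (r : ℕ) (v : ℕ → Fin n → L) (q : Fin n → L) :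
    (Fin (r + 1) × Fin n) ⊕ Fin n → L :=
  Sum.elim (fun i => v i.1 i.2) q

theorem TYPE_cfg_range {n : ℕ} {L : Type u} [Field L] (r : ℕ) (v : ℕ → Fin n → L)
    (q : Fin n → L) : Set.range (TYPE_cfg r v q) = pts v (Set.Iic r) ∪ Set.range q := by
  unfold TYPE_cfg
  rw [Set.Sum.elim_range]
  congr 1
  ext a
  rw [mem_pts]
  constructor
  · rintro ⟨⟨i, c⟩, rfl⟩
    exact ⟨i, Set.mem_Iic.mpr (by omega), c, rfl⟩
  · rintro ⟨i, hi, c, rfl⟩
    exact ⟨(⟨i, Nat.lt_succ_of_le hi⟩, c), rfl⟩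

theorem TYPE_cfg_map {n : ℕ} {L Ω : Type u} (r : ℕ) (v : ℕ → Fin n → L) (q : Fin n → L)
    (θ : L → Ω) : (fun i => θ (TYPE_cfg r v q i)) =
      TYPE_cfg r (fun i c => θ (v i c)) (fun c => θ (q c)) := by
  funext i
  rcases i with i | i <;> rfl

/-- the new configuration in terms of the old one and the last vertex -/
def TYPE_re {n : ℕ} (r : ℕ) : (Fin (r + 1 + 1) × Fin n) ⊕ Fin n →
    ((Fin (r + 1) × Fin n) ⊕ Fin n) ⊕ Fin n :=
  Sum.elim (fun i => if h : (i.1 : ℕ) < r + 1 then Sum.inl (Sum.inl (⟨i.1, h⟩, i.2))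
    else Sum.inr i.2) (fun c => Sum.inl (Sum.inr c))

theorem TYPE_re_comp {n : ℕ} {L : Type u} (r : ℕ) (v : ℕ → Fin n → L) (q : Fin n → L)
    (y : Fin n → L) (hy : y = v (r + 1)) :
    Sum.elim (TYPE_cfg r v q) y ∘ TYPE_re r = TYPE_cfg (r + 1) v q := by
  funext i
  rcases i with ⟨i, c⟩ | c
  · unfold TYPE_re TYPE_cfg
    simp only [Function.comp_apply, Sum.elim_inl]
    split_ifs with h
    · rfl
    · have : (i : ℕ) = r + 1 := by omega
      rw [Sum.elim_inr, hy, this]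
  · rfl

theorem TYPE_main (hIRR : ST_IRR.{u}) (hLD : ST_LD.{u}) (hBIG : ST_BIG.{u}) {K : Type u}
    [Field K] [IsAlgClosed K] {n m : ℕ} (S : Sys K n m 1) (σ ρ : Bool) (r : ℕ) :
    ∀ (L₁ L₂ : Type u) [Field L₁] [Algebra K L₁] [Field L₂] [Algebra K L₂]
    (v₁ : ℕ → Fin n → L₁) (v₂ : ℕ → Fin n → L₂) (q₁ : Fin n → L₁) (q₂ : Fin n → L₂),
    IsWalk S.P σ r v₁ → IsWalk S.P σ r v₂ → Vtx S.P σ (v₁ 0) → Vtx S.P σ (v₂ 0) →
    Vtx S.P ρ q₁ → Vtx S.P ρ q₂ →
    rk K (pts v₁ (Set.Iic r) ∪ Set.range q₁) = m + r + m →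
    rk K (pts v₂ (Set.Iic r) ∪ Set.range q₂) = m + r + m →
    Conj K (TYPE_cfg r v₁ q₁) (TYPE_cfg r v₂ q₂) := by
  induction r with
  | zero =>
    intro L₁ L₂ _ _ _ _ v₁ v₂ q₁ q₂ _ _ h₁ h₂ hq₁ hq₂ hr₁ hr₂
    obtain ⟨Ω, _, _, _, hst, hbig⟩ := hBIG K L₂
    have hcl : IsAlgClosed Ω := hbig.alg
    set θ := IsScalarTower.toAlgHom K L₂ Ω with hθ
    have hx : Conj K (v₁ 0) (fun c => θ (v₂ 0 c)) := h₁.conj (h₂.map θ)
    obtain ⟨q', hq'⟩ := TYPE_ext hx q₁
    have hq'1 : Conj K q₁ q' := hq'.comp Sum.inr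
    have hq'v : Vtx S.P ρ q' := hq₁.of_conj hq'1
    have hsp : Spec K q' (fun c => θ (q₂ c)) := (hq'v.conj (hq₂.map θ)).spec
    have hfx := Set.finite_range (fun c => θ (v₂ 0 c))
    have hfq := Set.finite_range q'
    rw [pts_Iic_zero] at hr₁ hr₂
    have hrq : rk K (Set.range (fun c => θ (v₂ 0 c)) ∪ Set.range q') = m + 0 + m := by
      have h3 := hq'.rk_eq
      rw [range_sum_elim, range_sum_elim, hr₁] at h3
      exact h3.symm
    have hvx : rk K (Set.range (fun c => θ (v₂ 0 c))) = m := by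
      rw [S.rk_vtx (h₂.map θ), mul_one]
    have hvq : rk K (Set.range q') = m := by
      rw [S.rk_vtx hq'v, mul_one]
    have hld := hLD K Ω ∅ (Set.range (fun c => θ (v₂ 0 c))) Set.finite_empty hfx
      (Set.empty_subset _) (Fin n) q' (fun c => θ (q₂ c)) (by
        rw [rk_empty, Set.empty_union, hrq, hvx, hvq]; omega) (TYPE_spec_empty hsp)
    have h5 := TYPE_spec_sum (fun c => θ (v₂ 0 c)) (fun j => mem_cl_of_mem (Set.mem_range_self j)) hld
    have h6 : Spec K (Sum.elim (v₁ 0) q₁)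
        (Sum.elim (fun c => θ (v₂ 0 c)) (fun c => θ (q₂ c))) := hq'.spec.trans h5
    have h7 : Conj K (Sum.elim (v₁ 0) q₁) (Sum.elim (v₂ 0) q₂) :=
      (h6.trans (conj_elim_map θ (v₂ 0) q₂).symm.spec).conj_of_rk_le (by
        rw [range_sum_elim, range_sum_elim, hr₁, hr₂])
    have h8 := h7.comp (Sum.map (fun i : Fin (0 + 1) × Fin n => i.2) id)
    have e : ∀ {L : Type u} (v : ℕ → Fin n → L) (q : Fin n → L),
        Sum.elim (v 0) q ∘ (Sum.map (fun i : Fin (0 + 1) × Fin n => i.2) id) =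
          TYPE_cfg 0 v q := by
      intro L v q
      funext i
      rcases i with ⟨i, c⟩ | c
      · simp [TYPE_cfg]
      · rfl
    rw [e, e] at h8
    exact h8
  | succ r ih =>
    intro L₁ L₂ _ _ _ _ v₁ v₂ q₁ q₂ hw₁ hw₂ h₁ h₂ hq₁ hq₂ hr₁ hr₂
    -- ranks of the shorter configurations
    have hshort : ∀ (L : Type u) [Field L] [Algebra K L] (v : ℕ → Fin n → L) (q : Fin n → L),
        IsWalk S.P σ (r + 1) v → Vtx S.P σ (v 0) → Vtx S.P ρ q →
        rk K (pts v (Set.Iic (r + 1)) ∪ Set.range q) = m + (r + 1) + m →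
        rk K (pts v (Set.Iic r) ∪ Set.range q) = m + r + m := by
      intro L _ _ v q hw h0 hq hr
      have hfp := pts_Iic_finite v r
      have hfq := Set.finite_range q
      have e1 : pts v (Set.Iic (r + 1)) ∪ Set.range q =
          (pts v (Set.Iic r) ∪ Set.range q) ∪ Set.range (v (r + 1)) := by
        rw [pts_Iic_succ, Set.union_assoc, Set.union_assoc, Set.union_comm (Set.range q)]
      have h3 := S.rk_step_le (hw r (Nat.lt_succ_self r))
        (A := pts v (Set.Iic r) ∪ Set.range q) (hfp.union hfq)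
        (fun a ha => mem_cl_of_mem (Or.inl (range_subset_pts v (Set.mem_Iic.mpr le_rfl) ha)))
      rw [← e1, hr] at h3
      have h4 := S.rk_pts_le (hw.mono (Nat.le_succ r)) h0
      have h5 := rk_union_le (K := K) hfp hfq
      rw [S.rk_vtx hq] at h5
      omega
    have hs₁ := hshort L₁ v₁ q₁ hw₁ h₁ hq₁ hr₁
    have hs₂ := hshort L₂ v₂ q₂ hw₂ h₂ hq₂ hr₂
    obtain ⟨Ω, _, _, _, hst, hbig⟩ := hBIG K L₂
    have hcl : IsAlgClosed Ω := hbig.alg
    set θ := IsScalarTower.toAlgHom K L₂ Ω with hθ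
    have hih := ih L₁ L₂ v₁ v₂ q₁ q₂ (hw₁.mono (Nat.le_succ r)) (hw₂.mono (Nat.le_succ r))
      h₁ h₂ hq₁ hq₂ hs₁ hs₂
    have hih' : Conj K (TYPE_cfg r v₁ q₁)
        (TYPE_cfg r (fun i c => θ (v₂ i c)) (fun c => θ (q₂ c))) := by
      have := hih.trans (conj_of_algHom θ (TYPE_cfg r v₂ q₂))
      rw [TYPE_cfg_map] at this
      exact this
    obtain ⟨y', hy'⟩ := TYPE_ext hih' (v₁ (r + 1))
    set a' := TYPE_cfg r (fun i c => θ (v₂ i c)) (fun c => θ (q₂ c)) with ha'
    have hra' : Set.range a' = θ '' (pts v₂ (Set.Iic r) ∪ Set.range q₂) := by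
      rw [ha', TYPE_cfg_range, Set.image_union, image_pts, image_range θ q₂]
    have hrka' : rk K (Set.range a') = m + r + m := by
      rw [hra', rk_image_of_injective, hs₂]
    have hfa' := Set.finite_range a'
    -- the new edges
    have hlast : ∀ (L : Type u) (v : ℕ → Fin n → L) (q y : Fin n → L),
        Sum.elim (TYPE_cfg r v q) y ∘ (Sum.map (fun c => Sum.inl (Fin.last r, c)) id) =
          Sum.elim (v r) y := by
      intro L v q y
      funext i
      rcases i with c | c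
      · simp [TYPE_cfg]
      · rfl
    have hE' : Edge S.P (ty σ r) (fun c => θ (v₂ r c)) y' := by
      have h3 := hy'.comp (Sum.map (fun c => Sum.inl (Fin.last r, c)) id)
      rw [hlast, ha', hlast] at h3
      exact (hw₁ r (Nat.lt_succ_self r)).of_conj h3
    have hE₂ : Edge S.P (ty σ r) (fun c => θ (v₂ r c)) (fun c => θ (v₂ (r + 1) c)) :=
      (hw₂ r (Nat.lt_succ_self r)).map θ
    have hsp := hIRR K n m 1 S Ω (ty σ r) (fun c => θ (v₂ r c)) y' (fun c => θ (v₂ (r + 1) c))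
      hE' hE₂
    have hsub : Set.range (fun c => θ (v₂ r c)) ⊆ Set.range a' := by
      rintro _ ⟨c, rfl⟩
      refine ⟨Sum.inl (Fin.last r, c), ?_⟩
      simp [ha', TYPE_cfg]
    have hrk1 : rk K (Set.range a' ∪ Set.range y') = m + (r + 1) + m := by
      have h3 := hy'.rk_eq
      rw [Set.Sum.elim_range, Set.Sum.elim_range, TYPE_cfg_range] at h3
      rw [← h3, ← hr₁, pts_Iic_succ, Set.union_assoc, Set.union_assoc,
        Set.union_comm (Set.range q₁)]
    have hrk2 : rk K (Set.range (fun c => θ (v₂ r c))) = m := by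
      rw [S.rk_vtx hE₂.vtx, mul_one]
    have hrk3 : rk K (Set.range (fun c => θ (v₂ r c)) ∪ Set.range y') = m + 1 := by
      rw [S.rk_edge hE', mul_one]
    have hld := hLD K Ω (Set.range (fun c => θ (v₂ r c))) (Set.range a')
      (Set.finite_range _) hfa' hsub (Fin n) y' (fun c => θ (v₂ (r + 1) c))
      (by rw [hrk1, hrk2, hrk3, hrka']; omega) hsp
    have h5 := TYPE_spec_sum a' (fun j => mem_cl_of_mem (Set.mem_range_self j)) hld
    have h6 := hy'.spec.trans h5
    have h7 := h6.comp (TYPE_re r)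
    rw [TYPE_re_comp r v₁ q₁ _ rfl, ha',
      TYPE_re_comp r (fun i c => θ (v₂ i c)) (fun c => θ (q₂ c)) _ rfl, ← TYPE_cfg_map] at h7
    have h8 := h7.trans (conj_of_algHom θ (TYPE_cfg (r + 1) v₂ q₂)).symm.spec
    exact h8.conj_of_rk_le (by rw [TYPE_cfg_range, TYPE_cfg_range, hr₁, hr₂])

theorem st_TYPE (hIRR : ST_IRR.{u}) (hLD : ST_LD.{u}) (hBIG : ST_BIG.{u}) : ST_TYPE.{u} := by
  intro K _ _ n m S L₁ L₂ _ _ _ _ _ _ σ ρ r v₁ v₂ q₁ q₂ hw₁ hw₂ h₁ h₂ hq₁ hq₂ hr₁ hr₂
  have hc := TYPE_main hIRR hLD hBIG S.toSys σ ρ r L₁ L₂ v₁ v₂ q₁ q₂ hw₁ hw₂ h₁ h₂ hq₁ hq₂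
    hr₁ hr₂
  obtain ⟨θ, hθ⟩ := st_CONJ K L₁ L₂ _ _ _ hc
  generalize hT : pts v₁ (Set.Iic r) ∪ Set.range q₁ = T
  have hT' : Set.range (TYPE_cfg r v₁ q₁) = T := by rw [TYPE_cfg_range, hT]
  subst hT'
  refine ⟨θ, ?_, ?_⟩
  · intro i hi c b hb
    exact hθ (Sum.inl (⟨i, Nat.lt_succ_of_le hi⟩, c)) b hb
  · intro c b hb
    exact hθ (Sum.inr c) b hb

end Pool.Agent.Helper92.GG
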