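import Pool.Agent.Helper92.GG.Main
import Pool.Agent.Helper92.GG.RPOLY
import Pool.Agent.Helper92.GG.FIN1
import Pool.Agent.Helper92.GG.TYPE
import Pool.Agent.Helper92.GG.CASEA
import Pool.Agent.Helper92.GG.CASEA2
import Pool.Agent.Helper92.GG.KRULL
import Pool.Agent.Helper18.GG.REL
import Pool.Agent.Helper24.GG.HART
import Pool.Agent.Helper24.GG.HLEM
import Pool.Agent.Helper31.GG.SETUP
import Pool.Agent.Helper36.GG.CONJ
import Pool.Agent.Helper36.GG.ENDS
import Pool.Agent.Helper36.GG.FREE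
import Pool.Agent.Helper36.GG.STEP
import Pool.Agent.Helper44.GG.GNB
import Pool.Agent.Helper44.GG.GRAPH
import Pool.Agent.Helper44.GG.MWALK
import Pool.Agent.Helper44.GG.SEP
import Pool.Agent.Helper56.GG.FR0
import Pool.Agent.Helper56.GG.PL4
import Pool.Agent.Helper56.GG.ZERO
import Pool.Agent.Helper58.GG.IRR
import Pool.Agent.Helper61.GG.BIG
import Pool.Agent.Helper61.GG.MOORE
import Pool.Agent.Helper79.GG.ORD
import Pool.Agent.Helper81.GG.LD
import Pool.Agent.Helper81.GG.LOC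
import Pool.Agent.Helper81.GG.PI
import Pool.Agent.Helper84.GG.LEMW
import Pool.Agent.Helper84.GG.COUNT
import Pool.Agent.Helper85.GG.CASEB
import Pool.Agent.Helper85.GG.CASEU
import Pool.Agent.Helper90.GG.FIB
import Pool.Agent.Helper90.GG.GOOD
import Pool.Agent.Helper90.GG.PL2
import Pool.Agent.Helper90.GG.PLBase
import Pool.Agent.Helper90.GG.STEP1
import Pool.Agent.Helper90.GG.VGS
import Pool.Agent.Helper95.GG.DIM
import Pool.Agent.Helper99.GG.K2

/-! # Assembly -/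

set_option autoImplicit false

namespace Pool.Agent.Helper92.GG

universe u

/-- the one-dimensional theorem -/
theorem all_FIN1 : ST_FIN1.{u} := by
  have hE : ST_ENDS.{u} := st_ENDS st_BIG
  have hIRR : ST_IRR.{u} := st_IRR st_CONJ st_FREE st_LD st_BIG hE st_STEP st_GNB
  have hMW : ST_MWALK.{u} := st_MWALK st_BIG st_STEP hE st_GNB st_LD st_CONJ
  have hFR0 : ST_FR0.{u} := st_FR0 hE st_GNB
  have hZ : ST_ZERO.{u} := st_ZERO hE st_GNB st_CONJ
  have hA : ST_CASEA.{u} := st_CASEA hZ hFR0 (st_LEMW hE)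
  have hB : ST_CASEB.{u} := st_CASEB st_PL1 st_PL2 hE st_GNB hFR0 hZ
  have hU : ST_CASEU.{u} := st_CASEU st_PL1 st_PL2 hE st_GNB
  have hSet : ST_SETUP.{u} := st_SETUP st_BIG (st_STEP1 st_CONJ) hMW hIRR st_LD st_PL4 hE st_GNB
  have hREL : ST_REL.{u} := st_REL (st_HART st_HLEM) (st_GOOD st_PL2) hA (st_CASEA2 hE) hB hU
    hSet (st_FIB st_CONJ st_PL2) hE
  have hTYPE : ST_TYPE.{u} := st_TYPE hIRR st_LD st_BIG
  have hORD : ST_ORD.{u} := st_ORD (st_VGS st_CONJ st_PL1 st_PL2 st_PL3) st_PL6 st_GNB hE st_PL1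
    st_PL3 hIRR st_LD st_PI st_LOC hTYPE
  have hR : ST_RPOLY.{u} := st_RPOLY hTYPE hE st_STEP st_BIG st_GNB st_FREE
  exact st_FIN1 (st_SEP st_CONJ) hR hORD hREL

/-- the theorem over algebraically closed fields -/
theorem all_TALG3 : ST_TALG3.{u} := by
  have hE : ST_ENDS.{u} := st_ENDS st_BIG
  have hK2 : ST_K2.{u} := st_K2 st_BIG st_KRULL hE st_STEP st_FREE st_LD st_CONJ
  exact st_TALG3 st_GRAPH (st_MOORE st_CONJ st_CONJR st_FREE) hK2 all_FIN1

/-- the theorem over finite fields -/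
theorem all_FINITE3 : ST_FINITE3.{u} := st_FINITE3 all_TALG3 st_COUNT

end Pool.Agent.Helper92.GG
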