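import Mathlib
import Pool.Agent.Helper49.Girth.Dim
import Pool.Agent.Helper49.Girth.Comb

/-! # General algebraic graphs: definitions

`K` is an algebraically closed field, `P` an ideal of `K[x_1..x_n, y_1..y_n]`. For every
extension field `L` of `K` we look at the bipartite graph on `L^n + L^n` in which `x ~ y` iff the
vanishing ideal of `(x, y)` over `K` is exactly `P` (`K`-generic edges). -/

set_option autoImplicit false

namespace Pool.Agent.Helper92.GG

open MvPolynomial
open Pool.Agent.Helper49.Girth (cl ty)

universe u

section rank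

variable (K : Type u) {L : Type u} [Field K] [Field L] [Algebra K L]

/-- The transcendence degree over `K` of the field generated by `s` (for finite `s`). -/
noncomputable def rk (s : Set L) : ℕ :=
  ((AlgebraicIndependent.matroid K L).eRk s).toNat

end rank

section spec

variable (k : Type u) [Field k] {ι : Type} {L L' : Type u} [Field L] [Field L'] [Algebra k L]
  [Algebra k L']

/-- `y'` is a specialization of `y` over `k`. -/
def Spec (y : ι → L) (y' : ι → L') : Prop :=
  ∀ f : MvPolynomial ι k, aeval y f = 0 → aeval y' f = 0

/-- `y` and `y'` have the same vanishing ideal over `k`. -/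
def Conj (y : ι → L) (y' : ι → L') : Prop :=
  ∀ f : MvPolynomial ι k, aeval y f = 0 ↔ aeval y' f = 0

end spec

section walks

variable {K : Type u} [Field K] {n : ℕ} (P : Ideal (MvPolynomial (Fin n ⊕ Fin n) K))
  {L : Type u} [Field L] [Algebra K L]

/-- `K`-generic edges: `x` has type `σ`, `y` has type `!σ`; `P` is the vanishing ideal of the
pair (vertex of type `true`, vertex of type `false`). -/
def Edge (σ : Bool) (x y : Fin n → L) : Prop :=
  RingHom.ker (aeval (R := K) (Sum.elim (cond σ x y) (cond σ y x))) = P

/-- Vertices of type `σ`: their vanishing ideal is that of the endpoints of type `σ` of edges. -/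
def Vtx (σ : Bool) (x : Fin n → L) : Prop :=
  RingHom.ker (aeval (R := K) x) =
    P.comap (rename (R := K) (cond σ (Sum.inl : Fin n → Fin n ⊕ Fin n) Sum.inr)).toRingHom

/-- `v 0, ..., v r` is a walk which starts at a vertex of type `σ`. -/
def IsWalk (σ : Bool) (r : ℕ) (v : ℕ → Fin n → L) : Prop :=
  ∀ i < r, Edge P (ty σ i) (v i) (v (i + 1))

/-- non-backtracking -/
def NB (r : ℕ) (v : ℕ → Fin n → L) : Prop :=
  ∀ i, i + 2 ≤ r → v i ≠ v (i + 2)

/-- the coordinates of the points `v i`, `i ∈ I` -/
def pts (v : ℕ → Fin n → L) (I : Set ℕ) : Set L :=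
  ⋃ i ∈ I, Set.range (v i)

/-- Non-backtracking walks of total length at most `2 m` with the same ends coincide, over all
extension fields. -/
def Uniq (m : ℕ) : Prop :=
  ∀ (L : Type u) [Field L] [Algebra K L] (σ : Bool) (r r' : ℕ) (v v' : ℕ → Fin n → L),
    r + r' ≤ 2 * m → IsWalk P σ r v → IsWalk P σ r' v' → NB r v → NB r' v' →
    v 0 = v' 0 → ty σ r = ty σ r' → v r = v' r' → r = r' ∧ ∀ i ≤ r, v i = v' i

end walks

/-- A system: `K` algebraically closed, generic edges of rank `(m+1) k`, vertices of rank `m k`,
no short cycles. -/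
structure Sys (K : Type u) [Field K] [IsAlgClosed K] (n m k : ℕ) where
  P : Ideal (MvPolynomial (Fin n ⊕ Fin n) K)
  two_le : 2 ≤ m
  one_le : 1 ≤ k
  uniq : Uniq P m
  /-- there is an edge over some extension field -/
  ne : ∃ (L : Type u) (_ : Field L) (_ : Algebra K L) (x y : Fin n → L), Edge P true x y
  rkV : ∀ (L : Type u) [Field L] [Algebra K L] (σ : Bool) (x y : Fin n → L),
    Edge P σ x y → rk K (Set.range x) = m * k
  rkE : ∀ (L : Type u) [Field L] [Algebra K L] (σ : Bool) (x y : Fin n → L),
    Edge P σ x y → rk K (Set.range x ∪ Set.range y) = (m + 1) * k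

/-- A one-dimensional system with separating coordinates `t σ` for the vertices of type `σ`. -/
structure SysT (K : Type u) [Field K] [IsAlgClosed K] (n m : ℕ) extends Sys K n m 1 where
  t : Bool → Fin n
  /-- the coordinate `t (!σ)` of a neighbour `y` of `x` is not algebraic over `x` -/
  trans : ∀ (L : Type u) [Field L] [Algebra K L] (σ : Bool) (x y : Fin n → L),
    Edge P σ x y → y (t (!σ)) ∉ cl K (Set.range x)
  /-- all coordinates of `y` are separable over `cl x (y_t)` -/
  sep : ∀ (L : Type u) [Field L] [Algebra K L] [IsAlgClosed L] (σ : Bool) (x y : Fin n → L),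
    Edge P σ x y → ∀ c : Fin n, ∃ f : MvPolynomial (Fin 2) (cl K (Set.range x)),
      aeval ![y (t (!σ)), y c] f = 0 ∧ aeval ![y (t (!σ)), y c] (pderiv 1 f) ≠ 0

/-- Algebraically closed fields of infinite transcendence degree. -/
class Big (K Ω : Type u) [Field K] [Field Ω] [Algebra K Ω] : Prop where
  alg : IsAlgClosed Ω
  big : ∀ s : Set Ω, s.Finite → ∃ a : Ω, a ∉ cl K s

section places

/-- Valuation subrings of `L` which contain `K`. -/
structure KVal (K L : Type u) [Field K] [Field L] [Algebra K L] where
  V : ValuationSubring L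
  hK : ∀ c : K, algebraMap K L c ∈ V

namespace KVal

variable {K L : Type u} [Field K] [Field L] [Algebra K L] (w : KVal K L)

/-- the residue field -/
def κ : Type u := IsLocalRing.ResidueField w.V

noncomputable instance : Field w.κ := inferInstanceAs (Field (IsLocalRing.ResidueField w.V))

/-- the structure map of the valuation ring -/
def incl : K →+* w.V where
  toFun c := ⟨algebraMap K L c, w.hK c⟩
  map_one' := by ext; simp
  map_mul' a b := by ext; simp
  map_zero' := by ext; simp
  map_add' a b := by ext; simp

noncomputable instance : Algebra K w.κ :=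
  ((IsLocalRing.residue w.V).comp w.incl).toAlgebra

open Classical in
/-- the residue of an element (zero outside the valuation ring) -/
noncomputable def red (a : L) : w.κ :=
  if h : a ∈ w.V then IsLocalRing.residue w.V ⟨a, h⟩ else 0

/-- coordinatewise residue -/
noncomputable def redv {n : ℕ} (x : Fin n → L) : Fin n → w.κ := fun c => w.red (x c)

/-- all coordinates lie in the valuation ring -/
def Fin' {n : ℕ} (x : Fin n → L) : Prop := ∀ c, x c ∈ w.V

/-- the valuation is trivial on the set `s` (elements are zero or units) -/
def Triv (s : Set L) : Prop := ∀ a ∈ s, a ∈ w.V ∧ (a ≠ 0 → w.red a ≠ 0)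

/-- the valuation ring of `L'` extends that of `L` -/
def Ext {L' : Type u} [Field L'] [Algebra K L'] [Algebra L L'] (w : KVal K L)
    (w' : KVal K L') : Prop :=
  ∀ a : L, algebraMap L L' a ∈ w'.V ↔ a ∈ w.V

end KVal

end places

end Pool.Agent.Helper92.GG
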