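import Pool.Agent.Helper77.GG.TALG

/-! # TALG for varieties of dimension `d` -/

set_option autoImplicit false

namespace Pool.Agent.Helper92.GG

open MvPolynomial
open Pool.Agent.Helper49.Girth (cl ty ty_add_two ty_succ)

universe u

/-- the theorem over algebraically closed fields; the vertices have rank at most `d` -/
def ST_TALG3 : Prop :=
  ∀ (K : Type u) [Field K] [IsAlgClosed K] (m : ℕ), (m = 4 ∨ 6 ≤ m) → ∀ (N d D : ℕ)
    (S : Fin D → Set (MvPolynomial (Fin N ⊕ Fin N) K))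
    (g : Fin D → MvPolynomial (Fin N ⊕ Fin N) K), 1 ≤ d →
    ((2 * m : ℕ) : ℕ∞) < (polyGraph S g K).egirth →
    (∀ (L : Type u) [Field L] [Algebra K L] (p l : Fin N → L), PRel S g L p l →
      rk K (Set.range p) ≤ d ∧ rk K (Set.range l) ≤ d) →
    ∀ (L : Type u) [Field L] [Algebra K L] (p l : Fin N → L), PRel S g L p l →
      m * rk K (Set.range p ∪ Set.range l) + 1 ≤ (m + 1) * d

theorem st_TALG3 (hGr : ST_GRAPH.{u}) (hM : ST_MOORE.{u}) (hK2 : ST_K2.{u}) (hF : ST_FIN1.{u}) :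
    ST_TALG3.{u} := by
  intro K _ _ m hm N d D S g hd hgirth hrk L _ _ p l hpl
  by_contra hcon
  have hle : (m + 1) * d ≤ m * rk K (Set.range p ∪ Set.range l) := by omega
  obtain ⟨hp, hl⟩ := hrk L p l hpl
  obtain ⟨i₀, h1, h2⟩ := hpl
  have hU := TALG_uniq S g hGr hgirth (i₀ := i₀)
    (P := RingHom.ker (aeval (R := K) (Sum.elim p l))) (fun f hf => h1 f hf) (fun h => h2 h)
  have hpos : 1 ≤ rk K (Set.range p ∪ Set.range l) := by
    rcases Nat.eq_zero_or_pos (rk K (Set.range p ∪ Set.range l)) with h0 | h0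
    · exfalso
      rw [h0, Nat.mul_zero] at hle
      have : 0 < (m + 1) * d := Nat.mul_pos (Nat.succ_pos m) hd
      omega
    · exact h0
  obtain ⟨k, S', -⟩ := hM K N m d _ (by omega) hU L p l rfl hp hl hle hpos
  obtain rfl := hK2 K N m k S'
  have := hF K N m S'
  omega

end Pool.Agent.Helper92.GG
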