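import Pool.Agent.Helper94.GG.FINITE2
import Pool.Agent.Helper92.GG.TALG3

/-! # From algebraically closed fields to finite fields: varieties of dimension `d` -/

set_option autoImplicit false

namespace Pool.Agent.Helper92.GG

open MvPolynomial SimpleGraph Filter
open Pool.Agent.Helper49.Girth (uI mk_eq_zero_iff ultraMap prodMap ultraMap_comp ultra_root
  exists_lift_poly egirth_le_iff uI_max)

universe u

/-- `PDim d D S`: the equations `S` imply, for every `d + 1` of the `N` coordinates of each of the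
two vertices, a nontrivial polynomial equation of degree at most `D` in these coordinates -/
def PDim {F : Type u} [Field F] {N : ℕ} (d D : ℕ) (S : Set (MvPolynomial (Fin N ⊕ Fin N) F)) :
    Prop :=
  ∀ (T : Finset (Fin N)), T.card = d + 1 → ∀ σ : Bool, ∃ f : MvPolynomial (Fin N) F,
    f ≠ 0 ∧ f.totalDegree ≤ D ∧ f.vars ⊆ T ∧
      rename (cond σ (Sum.inl : Fin N → Fin N ⊕ Fin N) Sum.inr) f ∈ S

/-- The final theorem, for vertices on varieties of dimension `d`. -/
def ST_FINITE3 : Prop :=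
  ∀ (m : ℕ), (m = 4 ∨ 6 ≤ m) → ∀ N d D : ℕ, 1 ≤ d → ∃ n₀ C : ℕ, 0 < n₀ ∧
    ∀ (F : Type u) [Field F] [Finite F] (S : Fin D → Set (MvPolynomial (Fin N ⊕ Fin N) F))
      (g : Fin D → MvPolynomial (Fin N ⊕ Fin N) F),
      (∀ i, ∀ f ∈ S i, f.totalDegree ≤ D) → (∀ i, (g i).totalDegree ≤ D) →
      (∀ i, PDim d D (S i)) →
      ∀ (E : Type u) [Field E] [Algebra F E] [Finite E], n₀ ∣ Module.finrank F E →
        ((2 * m : ℕ) : ℕ∞) < (polyGraph S g E).egirth →
        ∀ (E₂ : Type u) [Field E₂] [Algebra F E₂] [Finite E₂],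
          (polyGraph S g E₂).edgeSet.ncard ^ m ≤ C * Nat.card E₂ ^ ((m + 1) * d - 1)

/-- a bound for the rank from polynomial equations -/
theorem FINITE3_rk {K L : Type u} [Field K] [Field L] [Algebra K L] {N : ℕ} (p : Fin N → L) (d : ℕ)
    (h : ∀ T : Finset (Fin N), T.card = d + 1 → ∃ f : MvPolynomial (Fin N) K,
      f ≠ 0 ∧ f.vars ⊆ T ∧ aeval p f = 0) : rk K (Set.range p) ≤ d := by
  classical
  by_contra hcon
  obtain ⟨J, h1, -, h3⟩ := exists_basis_family (K := K) p
  have hJ : J.Finite := Set.toFinite J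
  have hcard : d + 1 ≤ hJ.toFinset.card := by
    rw [← Set.ncard_eq_toFinset_card J hJ, h3]
    omega
  obtain ⟨T, hTJ, hT⟩ := Finset.exists_subset_card_eq hcard
  obtain ⟨f, hf0, hfT, hf⟩ := h T hT
  obtain ⟨q, hq⟩ := exists_rename_eq_of_vars_subset_range f
    (Subtype.val : T → Fin N) Subtype.val_injective (by
      intro a ha
      exact ⟨⟨a, hfT ha⟩, rfl⟩)
  have h4 : AlgebraicIndependent K (fun t : T => p t) := by
    have h5 := h1.comp (fun t : T => (⟨(t : Fin N), hJ.mem_toFinset.mp (hTJ t.2)⟩ : J)) (by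
      intro a b hab
      apply Subtype.ext
      exact congrArg (fun z : J => (z : Fin N)) hab)
    exact h5
  apply hf0
  rw [← hq, (algebraicIndependent_iff.mp h4) q, map_zero]
  rw [← hq, aeval_rename] at hf
  exact hf

section lift3

variable (F : ℕ → Type u) [∀ k, Field (F k)] (U : Ultrafilter ℕ)

/-- lifting nonzero polynomials in given variables -/
theorem FINITE3_lift {N D : ℕ} (f : ∀ k, MvPolynomial (Fin N) (F k))
    (hD : ∀ k, (f k).totalDegree ≤ D) (h0 : ∀ k, f k ≠ 0) (T : Finset (Fin N))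
    (hT : ∀ k, (f k).vars ⊆ T) :
    ∃ f' : MvPolynomial (Fin N) ((k : ℕ) → F k),
      (∀ k, MvPolynomial.map (Pi.evalRingHom (fun k => F k) k) f' = f k) ∧
      MvPolynomial.map (Ideal.Quotient.mk (uI F U)) f' ≠ 0 ∧
      (MvPolynomial.map (Ideal.Quotient.mk (uI F U)) f').vars ⊆ T := by
  classical
  obtain ⟨f', hf'⟩ := exists_lift_poly F f D hD
  refine ⟨f', hf', ?_, ?_⟩
  · intro hz
    have h1 : ∀ e ∈ f'.support, ∀ᶠ k in (U : Filter ℕ), coeff e (f k) = 0 := by
      intro e _
      have h2 := congrArg (coeff e) hz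
      rw [coeff_map, coeff_zero, mk_eq_zero_iff] at h2
      filter_upwards [h2] with k hk
      rw [← hf' k, coeff_map]
      exact hk
    have h3 : ∀ᶠ k in (U : Filter ℕ), ∀ e ∈ f'.support, coeff e (f k) = 0 := by
      rw [eventually_all_finset]
      exact h1
    obtain ⟨k, hk⟩ := h3.exists
    apply h0 k
    ext e
    rw [coeff_zero]
    by_cases he : e ∈ f'.support
    · exact hk e he
    · rw [← hf' k, coeff_map, notMem_support_iff.mp he, map_zero]
  · intro a ha
    rw [mem_vars_iff_mem_support] at ha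
    obtain ⟨e, he, hae⟩ := ha
    rw [mem_support_iff, coeff_map] at he
    have h1 : coeff e f' ≠ 0 := by
      intro h
      apply he
      rw [h, map_zero]
    obtain ⟨k, hk⟩ := Function.ne_iff.mp h1
    apply hT k
    rw [mem_vars_iff_mem_support]
    refine ⟨e, ?_, hae⟩
    rw [mem_support_iff, ← hf' k, coeff_map]
    exact hk

end lift3

theorem st_FINITE3 (hT : ST_TALG3.{u}) (hC : ST_COUNT.{u}) : ST_FINITE3.{u} := by
  classical
  intro m hm N dd D hdd
  by_contra hcon
  push Not at hcon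
  choose F fF finF S g hS hg hdim E fE aE finE hdvd hgirth E₂ fE₂ aE₂ finE₂ hbad using
    fun k : ℕ => hcon k.factorial k (Nat.factorial_pos k)
  let U : Ultrafilter ℕ := hyperfilter ℕ
  have hU : (U : Filter ℕ) ≤ cofinite := hyperfilter_le_cofinite
  choose G hG using fun i => exists_lift_poly F (fun k => g k i) D fun k => hg k i
  let _ : Algebra (((k : ℕ) → F k) ⧸ uI F U) (((k : ℕ) → E k) ⧸ uI E U) :=
    (ultraMap F E U).toAlgebra
  let _ : Algebra (((k : ℕ) → F k) ⧸ uI F U) (((k : ℕ) → E₂ k) ⧸ uI E₂ U) :=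
    (ultraMap F E₂ U).toAlgebra
  have hac : IsAlgClosure (((N : ℕ) → F N) ⧸ uI F U)
      (algebraicClosure (((N : ℕ) → F N) ⧸ uI F U) (((N : ℕ) → E N) ⧸ uI E U)) := by
    refine IsAlgClosure.of_exists_root fun p hp hirr => ?_
    obtain ⟨x, hx⟩ := ultra_root F E U hU hdvd p hp hirr.natDegree_pos
    have hx' : Polynomial.aeval x p = 0 := hx
    have hint : IsIntegral (((N : ℕ) → F N) ⧸ uI F U) x := ⟨p, hp, hx'⟩
    refine ⟨⟨x, mem_algebraicClosure_iff'.2 hint⟩, ?_⟩
    apply Subtype.ext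
    have h1 := Polynomial.aeval_algHom_apply
      (algebraicClosure (((N : ℕ) → F N) ⧸ uI F U) (((N : ℕ) → E N) ⧸ uI E U)).val
      ⟨x, mem_algebraicClosure_iff'.2 hint⟩ p
    exact h1.symm.trans hx'
  have hac' : IsAlgClosed
      (algebraicClosure (((N : ℕ) → F N) ⧸ uI F U) (((N : ℕ) → E N) ⧸ uI E U)) :=
    hac.isAlgClosed
  have hac'' : Algebra.IsAlgebraic (((N : ℕ) → F N) ⧸ uI F U)
      (algebraicClosure (((N : ℕ) → F N) ⧸ uI F U) (((N : ℕ) → E N) ⧸ uI E U)) :=
    hac.isAlgebraic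
  set K := (algebraicClosure (((N : ℕ) → F N) ⧸ uI F U) (((N : ℕ) → E N) ⧸ uI E U)) with hK
  -- the equations over the ultraproduct of the `F k`
  let SF : Fin D → Set (MvPolynomial (Fin N ⊕ Fin N) (((k : ℕ) → F k) ⧸ uI F U)) :=
    FINITE_SK F U (Ideal.Quotient.mk (uI F U)) S
  let gF : Fin D → MvPolynomial (Fin N ⊕ Fin N) (((k : ℕ) → F k) ⧸ uI F U) :=
    fun i => MvPolynomial.map (Ideal.Quotient.mk (uI F U)) (G i)
  let SK : Fin D → Set (MvPolynomial (Fin N ⊕ Fin N) K) :=
    fun i => MvPolynomial.map (algebraMap (((k : ℕ) → F k) ⧸ uI F U) K) '' SF i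
  let gK : Fin D → MvPolynomial (Fin N ⊕ Fin N) K :=
    fun i => MvPolynomial.map (algebraMap (((k : ℕ) → F k) ⧸ uI F U) K) (gF i)
  have hφ : (algebraMap (((k : ℕ) → F k) ⧸ uI F U) (((k : ℕ) → E k) ⧸ uI E U)).comp
      (Ideal.Quotient.mk (uI F U)) = (Ideal.Quotient.mk (uI E U)).comp (prodMap F E) :=
    ultraMap_comp F E U
  have hφ₂ : (algebraMap (((k : ℕ) → F k) ⧸ uI F U) (((k : ℕ) → E₂ k) ⧸ uI E₂ U)).comp
      (Ideal.Quotient.mk (uI F U)) = (Ideal.Quotient.mk (uI E₂ U)).comp (prodMap F E₂) :=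
    ultraMap_comp F E₂ U
  obtain ⟨out, hout⟩ : ∃ out : (((k : ℕ) → E k) ⧸ uI E U) → (k : ℕ) → E k,
      ∀ a, Ideal.Quotient.mk (uI E U) (out a) = a :=
    Classical.axiomOfChoice (Ideal.Quotient.mk_surjective (I := uI E U))
  -- the girth over `K`
  have hgK : ((2 * m : ℕ) : ℕ∞) < (polyGraph SK gK K).egirth := by
    by_contra hle
    rw [not_lt] at hle
    obtain ⟨n, hn, hnm, hc⟩ := egirth_le_iff.1 hle
    let lift : ((Fin N → K) ⊕ (Fin N → K)) → ∀ k, ((Fin N → E k) ⊕ (Fin N → E k)) :=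
      fun x k => Sum.map
        (fun p i => out (algebraMap K (((k : ℕ) → E k) ⧸ uI E U) (p i)) k)
        (fun p i => out (algebraMap K (((k : ℕ) → E k) ⧸ uI E U) (p i)) k) x
    have hrel : ∀ p l : Fin N → K, PRel SK gK K p l →
        ∀ᶠ k in (U : Filter ℕ), PRel (S k) (g k) (E k)
          (fun i => out (algebraMap K (((k : ℕ) → E k) ⧸ uI E U) (p i)) k)
          (fun i => out (algebraMap K (((k : ℕ) → E k) ⧸ uI E U) (l i)) k) := by
      intro p l h
      have h1 : PRel SF gF K p l := (FINITE2_prel_tower SF gF K p l).1 h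
      have h2 := (FINITE2_prel_hom SF gF K (((k : ℕ) → E k) ⧸ uI E U)
        (IsScalarTower.toAlgHom (((k : ℕ) → F k) ⧸ uI F U) K (((k : ℕ) → E k) ⧸ uI E U))
        p l).1 h1
      apply (FINITE_los_prel F E U (Ideal.Quotient.mk (uI F U)) S g G hφ hS hG _ _).1
      simp only [hout]
      exact h2
    have hne : ∀ p q : Fin N → K, p ≠ q → ∀ᶠ k in (U : Filter ℕ),
        (fun i => out (algebraMap K (((k : ℕ) → E k) ⧸ uI E U) (p i)) k) ≠
        (fun i => out (algebraMap K (((k : ℕ) → E k) ⧸ uI E U) (q i)) k) := by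
      intro p q hpq
      obtain ⟨i, hi⟩ := Function.ne_iff.1 hpq
      rw [Ultrafilter.eventually_not]
      intro h
      apply hi
      apply (algebraMap K (((k : ℕ) → E k) ⧸ uI E U)).injective
      rw [← hout (algebraMap K (((k : ℕ) → E k) ⧸ uI E U) (p i)),
        ← hout (algebraMap K (((k : ℕ) → E k) ⧸ uI E U) (q i)), ← sub_eq_zero, ← map_sub,
        mk_eq_zero_iff]
      filter_upwards [h] with k hk
      rw [Pi.sub_apply, sub_eq_zero]
      exact congrFun hk i
    have h1 := FINITE_los_graph (polyGraph SK gK K)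
      (fun k => polyGraph (S k) (g k) (E k)) U lift ?_ ?_ hc
    · obtain ⟨k, hk⟩ := h1.exists
      exact absurd (egirth_le_iff.2 ⟨n, hn, hnm, hk⟩) (not_le.2 (hgirth k))
    · rintro _ _ (⟨p, l, rfl, rfl, hpl⟩ | ⟨p, l, rfl, rfl, hpl⟩)
      · exact (hrel p l hpl).mono fun k hk => Or.inl ⟨_, _, rfl, rfl, hk⟩
      · exact (hrel p l hpl).mono fun k hk => Or.inr ⟨_, _, rfl, rfl, hk⟩
    · rintro (p | p) (q | q) hpq
      · exact (hne p q fun h => hpq (by rw [h])).mono fun k hk h => hk (Sum.inl_injective h)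
      · exact Eventually.of_forall fun k h => Sum.inl_ne_inr h
      · exact Eventually.of_forall fun k h => Sum.inr_ne_inl h
      · exact (hne p q fun h => hpq (by rw [h])).mono fun k hk h => hk (Sum.inr_injective h)
  -- the ranks of the vertices over `K`
  have hrk : ∀ (L : Type u) [Field L] [Algebra K L] (p l : Fin N → L), PRel SK gK L p l →
      rk K (Set.range p) ≤ dd ∧ rk K (Set.range l) ≤ dd := by
    intro L _ _ p l hpl
    obtain ⟨i, h1, -⟩ := hpl
    have key : ∀ σ : Bool, ∀ T : Finset (Fin N), T.card = dd + 1 → ∃ f : MvPolynomial (Fin N) K,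
        f ≠ 0 ∧ f.vars ⊆ T ∧ aeval (cond σ p l) f = 0 := by
      intro σ T hTc
      choose f hf0 hfD hfT hfS using fun k => hdim k i T hTc σ
      obtain ⟨f', hf'1, hf'2, hf'3⟩ := FINITE3_lift F U f hfD hf0 T hfT
      refine ⟨MvPolynomial.map (algebraMap (((k : ℕ) → F k) ⧸ uI F U) K)
        (MvPolynomial.map (Ideal.Quotient.mk (uI F U)) f'), ?_, ?_, ?_⟩
      · intro h0
        apply hf'2
        apply map_injective _ (algebraMap (((k : ℕ) → F k) ⧸ uI F U) K).injective
        rw [h0, map_zero]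
      · exact (vars_map _ _).trans hf'3
      · have h2 := h1 (MvPolynomial.map (algebraMap (((k : ℕ) → F k) ⧸ uI F U) K)
          (rename (cond σ (Sum.inl : Fin N → Fin N ⊕ Fin N) Sum.inr)
            (MvPolynomial.map (Ideal.Quotient.mk (uI F U)) f'))) (by
          refine ⟨_, ⟨rename (cond σ (Sum.inl : Fin N → Fin N ⊕ Fin N) Sum.inr) f', ?_, ?_⟩, rfl⟩
          · rw [map_rename]
          · refine Eventually.of_forall fun k => ?_
            rw [map_rename, hf'1]
            exact hfS k)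
        rw [map_rename, aeval_rename] at h2
        have h3 : (Sum.elim p l) ∘ (cond σ (Sum.inl : Fin N → Fin N ⊕ Fin N) Sum.inr) =
            cond σ p l := by
          cases σ <;> rfl
        rw [h3] at h2
        exact h2
    exact ⟨FINITE3_rk p dd (key true), FINITE3_rk l dd (key false)⟩
  have hmpos : 0 < m := by omega
  set d := ((m + 1) * dd - 1) / m with hd
  have hdm : d * m ≤ (m + 1) * dd - 1 := Nat.div_mul_le_self _ _
  obtain ⟨J, f, hf, hcov⟩ := FINITE_cover SF gF d (by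
      intro L _ _ p l hpl
      -- embed `K` and `L` into a common field
      let θ : K →ₐ[(((N : ℕ) → F N) ⧸ uI F U)] AlgebraicClosure L := IsAlgClosed.lift
      let _ : Algebra K (AlgebraicClosure L) := θ.toRingHom.toAlgebra
      have htower : IsScalarTower (((N : ℕ) → F N) ⧸ uI F U) K (AlgebraicClosure L) :=
        IsScalarTower.of_algebraMap_eq fun a => (θ.commutes a).symm
      have h0 := (FINITE2_prel_hom SF gF L (AlgebraicClosure L)
        (IsScalarTower.toAlgHom (((k : ℕ) → F k) ⧸ uI F U) L (AlgebraicClosure L)) p l).1 hpl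
      have h1 := hT K m hm N dd D SK gK hdd hgK hrk (AlgebraicClosure L) _ _
        ((FINITE2_prel_tower SF gF (AlgebraicClosure L) _ _).2 h0)
      have h2 := rk_image_of_injective
        (IsScalarTower.toAlgHom (((k : ℕ) → F k) ⧸ uI F U) L (AlgebraicClosure L))
        (Set.range p ∪ Set.range l)
      rw [Set.image_union, ← Set.range_comp, ← Set.range_comp] at h2
      have h3 := FINITE2_rk (K₀ := (((k : ℕ) → F k) ⧸ uI F U)) (K := K) (AlgebraicClosure L)
        ((Set.finite_range (⇑(IsScalarTower.toAlgHom (((k : ℕ) → F k) ⧸ uI F U) L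
          (AlgebraicClosure L)) ∘ p)).union (Set.finite_range
          (⇑(IsScalarTower.toAlgHom (((k : ℕ) → F k) ⧸ uI F U) L (AlgebraicClosure L)) ∘ l)))
      rw [h2] at h3
      have h4 : m * rk (((k : ℕ) → F k) ⧸ uI F U) (Set.range p ∪ Set.range l) + 1 ≤
          (m + 1) * dd := le_trans (Nat.add_le_add_right (Nat.mul_le_mul_left m h3) 1) h1
      rw [hd, Nat.le_div_iff_mul_le hmpos]
      rw [mul_comm]
      omega)
  choose f' hf'1 hf'2 using fun j T => FINITE_lift F U (f j T)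
  let D' : ℕ := J.sup fun j => Finset.univ.sup fun T => (f j T).totalDegree
  obtain ⟨C', hC'⟩ := hC (Fin N ⊕ Fin N) d D'
  have hf'3 : ∀ j T, MvPolynomial.map (Ideal.Quotient.mk (uI F U)) (f' j T) = f j T := by
    intro j T
    rw [hf'1, Algebra.algebraMap_self, MvPolynomial.map_id]
  -- eventually, the polynomials do not vanish
  have ev1 : ∀ᶠ k in (U : Filter ℕ), ∀ j ∈ J, ∀ T : Finset (Fin N ⊕ Fin N),
      MvPolynomial.map (Pi.evalRingHom (fun k => F k) k) (f' j T) ≠ 0 := by
    rw [eventually_all_finset]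
    intro j _
    rw [eventually_all]
    intro T
    obtain ⟨e, he⟩ := ne_zero_iff.1 (hf j T).1
    have h1 : Ideal.Quotient.mk (uI F U) (coeff e (f' j T)) ≠ 0 := by
      rw [← coeff_map, hf'3]
      exact he
    rw [Ne, mk_eq_zero_iff, ← Ultrafilter.eventually_not] at h1
    filter_upwards [h1] with k hk h2
    apply hk
    have h3 := congrArg (coeff e) h2
    rw [coeff_map, coeff_zero] at h3
    exact h3
  -- eventually, the cover works
  have ev2 : ∀ᶠ k in (U : Filter ℕ), ∀ x : Fin N ⊕ Fin N → E₂ k,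
      PRel (S k) (g k) (E₂ k) (x ∘ Sum.inl) (x ∘ Sum.inr) →
      ∃ j ∈ J, ∀ T : Finset (Fin N ⊕ Fin N), T.card = d + 1 →
        aeval x (MvPolynomial.map (Pi.evalRingHom (fun k => F k) k) (f' j T)) = 0 := by
    by_contra hno
    rw [← Ultrafilter.eventually_not] at hno
    push Not at hno
    have hx : ∀ k, ∃ x : Fin N ⊕ Fin N → E₂ k,
        (∃ x : Fin N ⊕ Fin N → E₂ k, PRel (S k) (g k) (E₂ k) (x ∘ Sum.inl) (x ∘ Sum.inr) ∧
          ∀ j ∈ J, ∃ T : Finset (Fin N ⊕ Fin N), T.card = d + 1 ∧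
            aeval x (MvPolynomial.map (Pi.evalRingHom (fun k => F k) k) (f' j T)) ≠ 0) →
        (PRel (S k) (g k) (E₂ k) (x ∘ Sum.inl) (x ∘ Sum.inr) ∧
          ∀ j ∈ J, ∃ T : Finset (Fin N ⊕ Fin N), T.card = d + 1 ∧
            aeval x (MvPolynomial.map (Pi.evalRingHom (fun k => F k) k) (f' j T)) ≠ 0) := by
      intro k
      by_cases h : ∃ x : Fin N ⊕ Fin N → E₂ k,
          PRel (S k) (g k) (E₂ k) (x ∘ Sum.inl) (x ∘ Sum.inr) ∧
          ∀ j ∈ J, ∃ T : Finset (Fin N ⊕ Fin N), T.card = d + 1 ∧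
            aeval x (MvPolynomial.map (Pi.evalRingHom (fun k => F k) k) (f' j T)) ≠ 0
      · obtain ⟨x, hx⟩ := h
        exact ⟨x, fun _ => hx⟩
      · exact ⟨0, fun h' => absurd h' h⟩
    choose x hx using hx
    have h1 := (FINITE_los_prel F E₂ U (Ideal.Quotient.mk (uI F U)) S g G hφ₂ hS hG
      (fun i k => x k (Sum.inl i)) (fun i k => x k (Sum.inr i))).2
        (hno.mono fun k hk => (hx k hk).1)
    obtain ⟨j, hj, h2⟩ := hcov _ _ _ h1
    have h3 : ∀ T : Finset (Fin N ⊕ Fin N), ∀ᶠ k in (U : Filter ℕ), T.card = d + 1 →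
        aeval (x k) (MvPolynomial.map (Pi.evalRingHom (fun k => F k) k) (f' j T)) = 0 := by
      intro T
      by_cases hTc : T.card = d + 1
      · have h4 := h2 T hTc
        have h5 : Sum.elim (fun i => Ideal.Quotient.mk (uI E₂ U) fun k => x k (Sum.inl i))
            (fun i => Ideal.Quotient.mk (uI E₂ U) fun k => x k (Sum.inr i)) =
            fun s => Ideal.Quotient.mk (uI E₂ U) ((fun s k => x k s) s) := by
          funext s
          rcases s with s | s <;> rfl
        rw [h5, ← hf'3] at h4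
        have h6 := (FINITE_los F E₂ U (Ideal.Quotient.mk (uI F U)) hφ₂ (f' j T)
          (fun s k => x k s)).1 h4
        exact h6.mono fun k hk _ => hk
      · exact Eventually.of_forall fun k h => absurd h hTc
    obtain ⟨k, hk1, hk2⟩ := (hno.and (eventually_all.2 h3)).exists
    obtain ⟨T, hT1, hT2⟩ := (hx k hk1).2 j hj
    exact hT2 (hk2 T hT1)
  have ev3 : ∀ᶠ k in (U : Filter ℕ), (J.card * C') ^ m ≤ k := by
    apply hU
    rw [Nat.cofinite_eq_atTop]
    exact eventually_ge_atTop _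
  obtain ⟨k, hk1, hk2, hk3⟩ := (ev1.and (ev2.and ev3)).exists
  -- counting
  let W : Ideal (MvPolynomial (Fin N ⊕ Fin N) (((k : ℕ) → F k) ⧸ uI F U)) →
      Set (Fin N ⊕ Fin N → E₂ k) := fun j =>
    {x | ∀ T : Finset (Fin N ⊕ Fin N), T.card = d + 1 →
        aeval x (MvPolynomial.map (Pi.evalRingHom (fun k => F k) k) (f' j T)) = 0}
  have hW : ∀ j ∈ J, (W j).ncard ≤ C' * Nat.card (E₂ k) ^ d := by
    intro j hj
    apply hC' (E₂ k) (W j)
    intro T hTc
    have hsup : (MvPolynomial.map (algebraMap (F k) (E₂ k))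
        (MvPolynomial.map (Pi.evalRingHom (fun k => F k) k) (f' j T))).support ⊆
        (f j T).support :=
      (support_map_subset _ _).trans ((support_map_subset _ _).trans (hf'2 j T))
    refine ⟨MvPolynomial.map (algebraMap (F k) (E₂ k))
      (MvPolynomial.map (Pi.evalRingHom (fun k => F k) k) (f' j T)), ?_, ?_, ?_,
      fun p hp => ?_⟩
    · intro h0
      apply hk1 j hj T
      apply map_injective _ (algebraMap (F k) (E₂ k)).injective
      rw [h0, map_zero]
    · have h1 := (FINITE_support_mono hsup).1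
      have h3 : (f j T).totalDegree ≤ Finset.univ.sup fun T => (f j T).totalDegree :=
        Finset.le_sup (f := fun T => (f j T).totalDegree) (Finset.mem_univ T)
      have h4 : (Finset.univ.sup fun T => (f j T).totalDegree) ≤ D' :=
        Finset.le_sup (f := fun j => Finset.univ.sup fun T => (f j T).totalDegree) hj
      omega
    · exact_mod_cast (FINITE_support_mono hsup).2.trans (hf j T).2
    · have h1 := hp T hTc
      rw [aeval_def, ← eval_map] at h1
      exact h1
  have hsub : {x : Fin N ⊕ Fin N → E₂ k |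
      PRel (S k) (g k) (E₂ k) (x ∘ Sum.inl) (x ∘ Sum.inr)} ⊆ ⋃ j ∈ J, W j := by
    intro x hx
    obtain ⟨j, hj, h1⟩ := hk2 x hx
    exact Set.mem_biUnion hj h1
  have h1 : {x : Fin N ⊕ Fin N → E₂ k |
      PRel (S k) (g k) (E₂ k) (x ∘ Sum.inl) (x ∘ Sum.inr)}.ncard ≤
      J.card * C' * Nat.card (E₂ k) ^ d := by
    refine (Set.ncard_le_ncard hsub (Set.toFinite _)).trans ?_
    refine (Finset.set_ncard_biUnion_le J W).trans ?_
    refine (Finset.sum_le_card_nsmul J _ _ hW).trans ?_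
    rw [smul_eq_mul, mul_assoc]
  have h2 := (FINITE_edges (S k) (g k) (E₂ k)).trans h1
  have h3 : (polyGraph (S k) (g k) (E₂ k)).edgeSet.ncard ^ m ≤
      k * Nat.card (E₂ k) ^ ((m + 1) * dd - 1) := by
    calc (polyGraph (S k) (g k) (E₂ k)).edgeSet.ncard ^ m
        ≤ (J.card * C' * Nat.card (E₂ k) ^ d) ^ m := Nat.pow_le_pow_left h2 m
      _ = (J.card * C') ^ m * Nat.card (E₂ k) ^ (d * m) := by rw [mul_pow, ← pow_mul]
      _ ≤ k * Nat.card (E₂ k) ^ ((m + 1) * dd - 1) :=
        Nat.mul_le_mul hk3 (Nat.pow_le_pow_right Nat.card_pos hdm)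
  exact absurd h3 (not_le.2 (hbad k))

end Pool.Agent.Helper92.GG
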