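import Pool.Agent.Helper92.GG.FINITE3

/-! # From `ST_FINITE3` to graphs on varieties -/

set_option autoImplicit false

namespace Pool.Agent.Helper92.GG

open MvPolynomial SimpleGraph

universe u

section

variable {F : Type u} [Field F] {N D : ℕ}

/-- The `E`-rational points of the affine variety in `N`-space defined by the polynomials in `A`. -/
def Pts (A : Set (MvPolynomial (Fin N) F)) (E : Type u) [Field E] [Algebra F E] :
    Set (Fin N → E) :=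
  {p | ∀ f ∈ A, aeval p f = 0}

/-- `A` consists of polynomials of degree at most `D`, and for every `d + 1` of the `N`
coordinates it contains a nonzero polynomial in these coordinates only (so that the variety
defined by `A` has dimension at most `d`). -/
def IsVar (A : Set (MvPolynomial (Fin N) F)) (d D : ℕ) : Prop :=
  (∀ f ∈ A, f.totalDegree ≤ D) ∧
    ∀ T : Finset (Fin N), T.card = d + 1 → ∃ f ∈ A, f ≠ 0 ∧ f.vars ⊆ T

/-- A union of `D` sets, the `i`-th one given by the equations `f = 0`, `f ∈ S i`, and the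
inequation `g i ≠ 0`, in the coordinates of two points `p` and `l`. -/
def Rel (S : Fin D → Set (MvPolynomial (Fin N ⊕ Fin N) F))
    (g : Fin D → MvPolynomial (Fin N ⊕ Fin N) F) (E : Type u) [Field E] [Algebra F E]
    (p l : Fin N → E) : Prop :=
  ∃ i : Fin D, (∀ f ∈ S i, aeval (Sum.elim p l) f = 0) ∧ aeval (Sum.elim p l) (g i) ≠ 0

/-- The bipartite graph whose classes are the `E`-rational points of two varieties, two vertices
`p`, `l` being adjacent if `Rel S g E p l`. -/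
def algGraph (A B : Set (MvPolynomial (Fin N) F))
    (S : Fin D → Set (MvPolynomial (Fin N ⊕ Fin N) F))
    (g : Fin D → MvPolynomial (Fin N ⊕ Fin N) F) (E : Type u) [Field E] [Algebra F E] :
    SimpleGraph (Pts A E ⊕ Pts B E) where
  Adj x y :=
    (∃ p l, x = Sum.inl p ∧ y = Sum.inr l ∧ Rel S g E p l) ∨
    (∃ p l, x = Sum.inr l ∧ y = Sum.inl p ∧ Rel S g E p l)
  symm := ⟨by
    rintro x y (⟨p, l, rfl, rfl, h⟩ | ⟨p, l, rfl, rfl, h⟩)
    · exact Or.inr ⟨p, l, rfl, rfl, h⟩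
    · exact Or.inl ⟨p, l, rfl, rfl, h⟩⟩
  loopless := ⟨by
    rintro x (⟨p, l, h1, h2, -⟩ | ⟨p, l, h1, h2, -⟩)
    · rw [h1] at h2; cases h2
    · rw [h1] at h2; cases h2⟩

/-- all the equations together -/
def SAB (A B : Set (MvPolynomial (Fin N) F))
    (S : Fin D → Set (MvPolynomial (Fin N ⊕ Fin N) F)) :
    Fin D → Set (MvPolynomial (Fin N ⊕ Fin N) F) :=
  fun i => S i ∪ (rename Sum.inl '' A ∪ rename Sum.inr '' B)

variable (A B : Set (MvPolynomial (Fin N) F))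
    (S : Fin D → Set (MvPolynomial (Fin N ⊕ Fin N) F))
    (g : Fin D → MvPolynomial (Fin N ⊕ Fin N) F)

theorem prel_SAB_iff (E : Type u) [Field E] [Algebra F E] (p l : Fin N → E) :
    PRel (SAB A B S) g E p l ↔ p ∈ Pts A E ∧ l ∈ Pts B E ∧ Rel S g E p l := by
  unfold PRel SAB Rel Pts
  constructor
  · rintro ⟨i, h1, h2⟩
    refine ⟨fun f hf => ?_, fun f hf => ?_, i, fun f hf => h1 f (Or.inl hf), h2⟩
    · have := h1 _ (Or.inr (Or.inl ⟨f, hf, rfl⟩))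
      rw [aeval_rename, Sum.elim_comp_inl] at this
      exact this
    · have := h1 _ (Or.inr (Or.inr ⟨f, hf, rfl⟩))
      rw [aeval_rename, Sum.elim_comp_inr] at this
      exact this
  · rintro ⟨hp, hl, i, h1, h2⟩
    refine ⟨i, ?_, h2⟩
    rintro f (hf | ⟨f, hf, rfl⟩ | ⟨f, hf, rfl⟩)
    · exact h1 f hf
    · rw [aeval_rename, Sum.elim_comp_inl]
      exact hp f hf
    · rw [aeval_rename, Sum.elim_comp_inr]
      exact hl f hf

/-- forgetting the equations of the vertices -/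
def vmap (E : Type u) [Field E] [Algebra F E] :
    Pts A E ⊕ Pts B E → (Fin N → E) ⊕ (Fin N → E) := Sum.map Subtype.val Subtype.val

theorem vmap_inj (E : Type u) [Field E] [Algebra F E] : Function.Injective (vmap A B E) :=
  Sum.map_injective.mpr ⟨Subtype.val_injective, Subtype.val_injective⟩

theorem vmap_adj (E : Type u) [Field E] [Algebra F E] (x y : Pts A E ⊕ Pts B E) :
    (polyGraph (SAB A B S) g E).Adj (vmap A B E x) (vmap A B E y) ↔
      (algGraph A B S g E).Adj x y := by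
  constructor
  · rintro (⟨p, l, hx, hy, h⟩ | ⟨p, l, hx, hy, h⟩)
    · obtain ⟨h1, h2, h3⟩ := (prel_SAB_iff A B S g E p l).mp h
      refine Or.inl ⟨⟨p, h1⟩, ⟨l, h2⟩, ?_, ?_, h3⟩
      · exact vmap_inj A B E (by rw [hx]; rfl)
      · exact vmap_inj A B E (by rw [hy]; rfl)
    · obtain ⟨h1, h2, h3⟩ := (prel_SAB_iff A B S g E p l).mp h
      refine Or.inr ⟨⟨p, h1⟩, ⟨l, h2⟩, ?_, ?_, h3⟩
      · exact vmap_inj A B E (by rw [hx]; rfl)
      · exact vmap_inj A B E (by rw [hy]; rfl)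
  · rintro (⟨p, l, rfl, rfl, h⟩ | ⟨p, l, rfl, rfl, h⟩)
    · exact Or.inl ⟨p, l, rfl, rfl, (prel_SAB_iff A B S g E p l).mpr ⟨p.2, l.2, h⟩⟩
    · exact Or.inr ⟨p, l, rfl, rfl, (prel_SAB_iff A B S g E p l).mpr ⟨p.2, l.2, h⟩⟩

theorem mem_vmap_of_adj (E : Type u) [Field E] [Algebra F E]
    {x y : (Fin N → E) ⊕ (Fin N → E)} (h : (polyGraph (SAB A B S) g E).Adj x y) :
    ∃ x', vmap A B E x' = x := by
  rcases h with ⟨p, l, rfl, rfl, h⟩ | ⟨p, l, rfl, rfl, h⟩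
  · obtain ⟨h1, h2, h3⟩ := (prel_SAB_iff A B S g E p l).mp h
    exact ⟨Sum.inl ⟨p, h1⟩, rfl⟩
  · obtain ⟨h1, h2, h3⟩ := (prel_SAB_iff A B S g E p l).mp h
    exact ⟨Sum.inr ⟨l, h2⟩, rfl⟩

/-- the girths agree -/
theorem girth_SAB {M : ℕ} (E : Type u) [Field E] [Algebra F E]
    (h : (M : ℕ∞) < (algGraph A B S g E).egirth) :
    (M : ℕ∞) < (polyGraph (SAB A B S) g E).egirth := by
  by_contra hle
  rw [not_lt, Pool.Agent.Helper49.Girth.egirth_le_iff] at hle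
  obtain ⟨r, hr, hrM, ⟨c⟩⟩ := hle
  obtain ⟨s, rfl⟩ : ∃ s, r = s + 3 := ⟨r - 3, by omega⟩
  have h1 : ∀ a : Fin (s + 3), ∃ x', vmap A B E x' = c a := by
    intro a
    have h2 : (cycleGraph (s + 3)).Adj a (a + 1) := by
      rw [cycleGraph_adj]
      right
      exact add_sub_cancel_left a 1
    exact mem_vmap_of_adj A B S g E (c.toHom.map_adj h2)
  choose f hf using h1
  have h3 : (algGraph A B S g E).egirth ≤ (M : ℕ∞) := by
    rw [Pool.Agent.Helper49.Girth.egirth_le_iff]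
    refine ⟨s + 3, hr, hrM, ⟨⟨⟨f, ?_⟩, ?_⟩⟩⟩
    · intro a b hab
      rw [← vmap_adj, hf, hf]
      exact c.toHom.map_adj hab
    · intro a b hab
      have h4 : f a = f b := hab
      have h5 : c a = c b := by rw [← hf a, ← hf b, h4]
      exact c.injective h5
  exact absurd h (not_lt.mpr h3)

/-- the numbers of edges agree -/
theorem edges_SAB (E : Type u) [Field E] [Algebra F E] [Finite E] :
    (algGraph A B S g E).edgeSet.ncard ≤ (polyGraph (SAB A B S) g E).edgeSet.ncard := by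
  refine Set.ncard_le_ncard_of_injOn (Sym2.map (vmap A B E)) ?_
    (Sym2.map.injective (vmap_inj A B E)).injOn (Set.toFinite _)
  intro e he
  induction e with
  | _ a b =>
    rw [SimpleGraph.mem_edgeSet] at he
    rw [Sym2.map_mk, SimpleGraph.mem_edgeSet]
    exact (vmap_adj A B S g E a b).mpr he

theorem pdim_SAB {d D' : ℕ} (hA : IsVar A d D') (hB : IsVar B d D') (i : Fin D) :
    PDim d D' (SAB A B S i) := by
  intro T hT σ
  cases σ
  · obtain ⟨f, hf, hf0, hfT⟩ := hB.2 T hT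
    exact ⟨f, hf0, hB.1 f hf, hfT, Or.inr (Or.inr ⟨f, hf, rfl⟩)⟩
  · obtain ⟨f, hf, hf0, hfT⟩ := hA.2 T hT
    exact ⟨f, hf0, hA.1 f hf, hfT, Or.inr (Or.inl ⟨f, hf, rfl⟩)⟩

theorem deg_SAB {d D' : ℕ} (hA : IsVar A d D') (hB : IsVar B d D')
    (hS : ∀ i, ∀ f ∈ S i, f.totalDegree ≤ D') (i : Fin D) (f : MvPolynomial (Fin N ⊕ Fin N) F)
    (hf : f ∈ SAB A B S i) : f.totalDegree ≤ D' := by
  rcases hf with hf | ⟨f, hf, rfl⟩ | ⟨f, hf, rfl⟩
  · exact hS i f hf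
  · exact (totalDegree_rename_le _ _).trans (hA.1 f hf)
  · exact (totalDegree_rename_le _ _).trans (hB.1 f hf)

end

/-- from powers of `q` to powers of `n` -/
theorem real_bound {m d e q n C₁ : ℕ} (hm : 1 ≤ m) (hd : 1 ≤ d) {c : ℝ} (hc : 0 < c)
    (h : e ^ m ≤ C₁ * q ^ ((m + 1) * d - 1)) (hn : c * (q : ℝ) ^ d ≤ n) :
    (e : ℝ) ≤ (((C₁ : ℝ) ^ (1 / (m : ℝ))) * (1 / c) ^ (1 + 1 / (m : ℝ) - 1 / ((m : ℝ) * d))) *
      (n : ℝ) ^ (1 + 1 / (m : ℝ) - 1 / ((m : ℝ) * d)) := by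
  set α : ℝ := 1 + 1 / (m : ℝ) - 1 / ((m : ℝ) * d) with hα
  have hm' : (0 : ℝ) < m := by exact_mod_cast hm
  have hd' : (0 : ℝ) < d := by exact_mod_cast hd
  have hq' : (0 : ℝ) ≤ q := Nat.cast_nonneg q
  have hα0 : 0 ≤ α := by
    have h1 : 1 / ((m : ℝ) * d) ≤ 1 / (m : ℝ) := by
      apply one_div_le_one_div_of_le hm'
      have : (1 : ℝ) ≤ d := by exact_mod_cast hd
      nlinarith
    rw [hα]
    linarith
  have hcast : (((m + 1) * d - 1 : ℕ) : ℝ) = d * α * m := by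
    have h1 : 1 ≤ (m + 1) * d := Nat.mul_pos (Nat.succ_pos m) hd
    rw [Nat.cast_sub h1]
    push_cast
    rw [hα]
    field_simp
  have h2 : (e : ℝ) ^ m ≤ C₁ * (q : ℝ) ^ ((m + 1) * d - 1) := by exact_mod_cast h
  have h3 : (q : ℝ) ^ ((m + 1) * d - 1) = (((q : ℝ) ^ d) ^ α) ^ m := by
    rw [← Real.rpow_natCast (q : ℝ) ((m + 1) * d - 1), hcast, Real.rpow_mul hq',
      Real.rpow_mul hq', Real.rpow_natCast, Real.rpow_natCast]
  have h4 : (q : ℝ) ^ d ≤ 1 / c * n := by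
    rw [one_div, inv_mul_eq_div, le_div_iff₀ hc]
    linarith
  have h5 : ((q : ℝ) ^ d) ^ α ≤ (1 / c * n) ^ α :=
    Real.rpow_le_rpow (by positivity) h4 hα0
  have h6 : (1 / c * (n : ℝ)) ^ α = (1 / c) ^ α * (n : ℝ) ^ α :=
    Real.mul_rpow (by positivity) (Nat.cast_nonneg n)
  have h7 : (C₁ : ℝ) = ((C₁ : ℝ) ^ (1 / (m : ℝ))) ^ m := by
    rw [← Real.rpow_natCast, ← Real.rpow_mul (Nat.cast_nonneg C₁), one_div,
      inv_mul_cancel₀ hm'.ne', Real.rpow_one]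
  have h8 : (e : ℝ) ^ m ≤ ((C₁ : ℝ) ^ (1 / (m : ℝ)) * ((q : ℝ) ^ d) ^ α) ^ m := by
    rw [mul_pow, ← h7, ← h3]
    exact h2
  have h9 : (e : ℝ) ≤ (C₁ : ℝ) ^ (1 / (m : ℝ)) * ((q : ℝ) ^ d) ^ α :=
    le_of_pow_le_pow_left₀ (by omega) (by positivity) h8
  calc (e : ℝ) ≤ (C₁ : ℝ) ^ (1 / (m : ℝ)) * ((q : ℝ) ^ d) ^ α := h9
    _ ≤ (C₁ : ℝ) ^ (1 / (m : ℝ)) * ((1 / c) ^ α * (n : ℝ) ^ α) := by
      rw [← h6]
      exact mul_le_mul_of_nonneg_left h5 (by positivity)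
    _ = _ := by ring

/-- the final theorem, from `ST_FINITE3` -/
theorem main_of_FINITE3 (hF3 : ST_FINITE3.{u}) (m : ℕ) (hm : m = 4 ∨ 6 ≤ m) (N d D : ℕ)
    (hd : 1 ≤ d) :
    ∃ n₀ : ℕ, 0 < n₀ ∧ ∀ c : ℝ, 0 < c → ∃ C : ℝ,
      ∀ (F : Type u) [Field F] [Finite F] (A B : Set (MvPolynomial (Fin N) F))
        (S : Fin D → Set (MvPolynomial (Fin N ⊕ Fin N) F))
        (g : Fin D → MvPolynomial (Fin N ⊕ Fin N) F),
        IsVar A d D → IsVar B d D →
        (∀ i, ∀ f ∈ S i, f.totalDegree ≤ D) → (∀ i, (g i).totalDegree ≤ D) →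
        ∀ (E : Type u) [Field E] [Algebra F E] [Finite E], n₀ ∣ Module.finrank F E →
          ((2 * m : ℕ) : ℕ∞) < (algGraph A B S g E).egirth →
          ∀ (E' : Type u) [Field E'] [Algebra F E'] [Finite E'],
            c * (Nat.card E' : ℝ) ^ d ≤ (Nat.card (Pts A E' ⊕ Pts B E') : ℝ) →
            ((algGraph A B S g E').edgeSet.ncard : ℝ) ≤
              C * (Nat.card (Pts A E' ⊕ Pts B E') : ℝ) ^
                (1 + 1 / (m : ℝ) - 1 / ((m : ℝ) * d)) := by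
  obtain ⟨n₀, C₁, h0, h1⟩ := hF3 m hm N d D hd
  refine ⟨n₀, h0, fun c hc => ⟨((C₁ : ℝ) ^ (1 / (m : ℝ))) *
    (1 / c) ^ (1 + 1 / (m : ℝ) - 1 / ((m : ℝ) * d)), ?_⟩⟩
  · intro F _ _ A B S g hA hB hS hg E _ _ _ hdvd hgirth E' _ _ _ hn
    have h2 := h1 F (SAB A B S) g (deg_SAB A B S hA hB hS) hg (pdim_SAB A B S hA hB) E hdvd
      (girth_SAB A B S g E hgirth) E'
    have h3 : (algGraph A B S g E').edgeSet.ncard ^ m ≤
        C₁ * Nat.card E' ^ ((m + 1) * d - 1) :=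
      (Nat.pow_le_pow_left (edges_SAB A B S g E') m).trans h2
    exact real_bound (by omega) hd hc h3 hn

end Pool.Agent.Helper92.GG
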